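import Pool.Agent.Run7.h636.LT.C.ChkF

/-!
# Project LT (helper636): the checker for edge subdivisions and inverse edge subdivisions, with the real embedding
-/

set_option autoImplicit false
set_option linter.unusedVariables false

namespace Run7.h636.LT.Ctr

open Pool.Agent.Run7.h308.LT.Mv (Sd Md)
open Pool.Agent.Run7.h308.LT.Chk

/-- Executing `f` moves, and then `K`. The moves are the digits of `N` in base `2 ^ (3 q + 2)`: the lowest two bits of
a digit are the type (`0`: subdivision, otherwise inverse subdivision), followed by the vertices `m`, `s`, `t` with `q`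
bits each. -/
def ge (n q R1 R2 : ℕ) (K : ℕ → ℕ → Bool) : ℕ → ℕ → ℕ → ℕ → Bool
  | 0, _, M, a => K M a
  | f + 1, N, M, a =>
    frc (Nat.mod (Nat.shiftRight N 2) (Nat.pow 2 q)) fun m =>
    frc (Nat.mod (Nat.shiftRight N (q + 2)) (Nat.pow 2 q)) fun s =>
    frc (Nat.mod (Nat.shiftRight N (2 * q + 2)) (Nat.pow 2 q)) fun t =>
    frc (Nat.mod N 4) fun y =>
    frc (Nat.shiftRight N (3 * q + 2)) fun N' =>
    cond (Nat.beq y 0)
      (cS n R2 M a m s t && frc (nwf n R1 R2 M (nb n M s t) m s t) fun M1 => frc (Nat.lor a (Nat.pow 2 m)) fun a1 =>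
        ge n q R1 R2 K f N' M1 a1)
      (frc (Nat.xor a (Nat.pow 2 m)) fun a1 =>
          (ckI n M a a1 m s t && frc (nwf n R1 R2 M (row n M m) m s t) fun M1 => ge n q R1 R2 K f N' M1 a1))

theorem ge_good {k n q R1 R2 : ℕ} (hR : Cst n R1 R2) (K : ℕ → ℕ → Bool) (f : ℕ) : ∀ (N M a : ℕ), Good k n M a →
    ge n q R1 R2 K f N M a = true → ∃ M' a', Good k n M' a' ∧ K M' a' = true := by
  induction f with
  | zero =>
    intro N M a hG h
    exact ⟨M, a, hG, h⟩
  | succ f ih =>
    intro N M a hG h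
    rw [ge] at h
    simp only [frc_eq] at h
    generalize (N.shiftRight 2).mod (Nat.pow 2 q) = m at h
    generalize (N.shiftRight (q + 2)).mod (Nat.pow 2 q) = s at h
    generalize (N.shiftRight (2 * q + 2)).mod (Nat.pow 2 q) = t at h
    cases hc : (N.mod 4).beq 0 with
    | true =>
      rw [hc, cond_true, Bool.and_eq_true, cS_eq hR, nwf_eq hR] at h
      exact ih _ _ _ ((ckS_sb hG.lt h.1).good hG) h.2
    | false =>
      rw [hc, cond_false, Bool.and_eq_true, nwf_eq hR] at h
      obtain ⟨h1, h2, h3⟩ := ckI_sb hG.lt hG.sy h.1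
      rw [← h1] at hG
      exact ih _ _ _ (h2.good_back h3 hG) h.2

/-- Executing the chunks of moves of a list: pairs of the number of moves and the number of the moves. -/
def geL (n q R1 R2 : ℕ) (K : ℕ → ℕ → Bool) : List (ℕ × ℕ) → ℕ → ℕ → Bool
  | [], M, a => K M a
  | c :: l, M, a => ge n q R1 R2 (geL n q R1 R2 K l) c.1 c.2 M a

theorem geL_good {k n q R1 R2 : ℕ} (hR : Cst n R1 R2) (K : ℕ → ℕ → Bool) (l : List (ℕ × ℕ)) : ∀ (M a : ℕ),
    Good k n M a → geL n q R1 R2 K l M a = true → ∃ M' a', Good k n M' a' ∧ K M' a' = true := by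
  induction l with
  | nil =>
    intro M a hG h
    exact ⟨M, a, hG, h⟩
  | cons c l ih =>
    intro M a hG h
    rw [geL] at h
    obtain ⟨M', a', h1, h2⟩ := ge_good hR _ _ _ _ _ hG h
    exact ih M' a' h1 h2

end Run7.h636.LT.Ctr
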