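import Pool.Agent.Run7.h636.LT.C.ChkF
import Pool.Agent.Run7.h636.LT.S.FinSS
import Pool.Agent.N504.RS.Hom3

/-!
# Project LT (helper636): the graph at the end of a run, all fields
-/

set_option autoImplicit false

noncomputable section

namespace Run7.h636.LT.Ctr

open Pool.Agent.Run7.h308.LT.Chk
open Pool.Agent.W907.SG
open Pool.Agent.W907.SM (lk)
open Pool.Agent.TH652.Above (HSph)
open Pool.Agent.N504.RS.Two (HSph2 e1_two emb_of_hsph2)
open Pool.Agent.N496.LT (Sub)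

theorem fin_hsf {k n M N : ℕ} (hN : N ≤ n) (hG : GoodF k n M (2 ^ N - 1)) (F : Type) [Field F] :
    HSF F k (fin n M N) Set.univ := by
  classical
  have hadj : ∀ u v : Fin N, (fin n M N).Adj u v ↔ (gr n M).Adj (Fin.castLE hN u) (Fin.castLE hN v) := by
    intro u v
    show (u ≠ v ∧ _) ↔ (Fin.castLE hN u ≠ Fin.castLE hN v ∧ _)
    rw [ne_eq, ne_eq, (Fin.castLE_injective hN).eq_iff]
    rfl
  have hrange : al n (2 ^ N - 1) = Set.range (Fin.castLE hN) := by
    rw [al_pow]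
    ext v
    constructor
    · intro hv
      exact ⟨⟨v, hv⟩, rfl⟩
    · rintro ⟨u, rfl⟩
      exact u.2
  intro S hS _ i
  have h1 := hG.hs F (S.map (Fin.castLEEmb hN)) (by
    intro a ha b hb hab
    rw [Finset.mem_coe, Finset.mem_map] at ha hb
    obtain ⟨a', ha', rfl⟩ := ha
    obtain ⟨b', hb', rfl⟩ := hb
    exact (hadj a' b').1 (hS ha' hb' fun e => hab (by rw [e]))) (by
    intro a ha
    rw [Finset.mem_coe, Finset.mem_map] at ha
    obtain ⟨a', ha', rfl⟩ := ha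
    rw [hrange]
    exact ⟨a', rfl⟩) i
  rw [Finset.card_map] at h1
  rw [← h1]
  have h2 : al n (2 ^ N - 1) ∩ lk (gr n M) (S.map (Fin.castLEEmb hN)) =
      Fin.castLE hN '' (Set.univ ∩ lk (fin n M N) S) := by
    rw [hrange]
    ext a
    constructor
    · rintro ⟨⟨a', rfl⟩, h3⟩
      refine ⟨a', ⟨Set.mem_univ _, fun u hu => ?_⟩, rfl⟩
      exact (hadj a' u).2 (h3 _ (Finset.mem_map.2 ⟨u, hu, rfl⟩))
    · rintro ⟨a', ⟨-, h3⟩, rfl⟩
      refine ⟨⟨a', rfl⟩, fun u hu => ?_⟩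
      obtain ⟨u', hu', rfl⟩ := Finset.mem_map.1 hu
      exact (hadj a' u').1 (h3 u' hu')
  rw [h2]
  exact (bb_tr (F := F) (Fin.castLE hN) (Fin.strictMono_castLE hN) _ (fun u _ u' _ => hadj u u') i).symm

theorem fin_hsph {k n M N : ℕ} (hN : N ≤ n) (hG : GoodF k n M (2 ^ N - 1)) : HSph k (fin n M N) := by
  intro S hS i
  have h1 := fin_hsf hN hG ℝ S hS (Set.subset_univ _) i
  rw [Set.univ_inter] at h1
  exact h1

theorem fin_hsph2 {k n M N : ℕ} (hN : N ≤ n) (hG : GoodF k n M (2 ^ N - 1)) : HSph2 k (fin n M N) := by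
  intro S hS i
  have h1 := fin_hsf hN hG (ZMod 2) S hS (Set.subset_univ _) i
  rw [Set.univ_inter] at h1
  rw [← h1]
  have h2 : (Pool.Agent.R782.Bal.tr2 : Fin N → ZMod 2 →ₗ[ZMod 2] ZMod 2) = fun _ => - LinearMap.id := by
    funext v
    refine LinearMap.ext fun x => ?_
    show x = - x
    revert x
    decide
  rw [h2]
  rfl

/-- the graph of the flag complex is embedded, after subdivisions -/
theorem embAll_two {N d : ℕ} {H : SimpleGraph (Fin N)} (h : HSph2 (2 * d + 1) H) : Run7.h636.LT.S.EmbAll d H := by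
  intro n G hG V _ K φ hφ hK
  have h1 : HSph2 (2 * d + 1) G := Pool.Agent.N504.RS.sub_hsph2 hG h
  have h2 := Pool.Agent.N504.RS.Two.hsph_clq h1
  refine Pool.Agent.R782.Bal.Emb.sphere (Pool.Agent.N504.RS.Two.clq G) ⟨φ, hφ⟩ le_rfl h2 fun T hT => ?_
  rw [Pool.Agent.N504.RS.Two.mem_clq]
  intro a ha b hb hab
  rw [Finset.coe_map] at ha hb
  obtain ⟨x, hx, rfl⟩ := ha
  obtain ⟨y, hy, rfl⟩ := hb
  exact hK x y (hT hx hy fun e => hab (by rw [e]))

end Run7.h636.LT.Ctr
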