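import Pool.Agent.Run7.h636.LT.C.L17
import Pool.Agent.Run7.h636.LT.C.ChkE
import Pool.Agent.Run7.h636.LT.C.FinF
import Pool.Agent.Run7.h636.LT.S.Fin3

/-!
# Project LT (helper636): the results from a certified flag sphere which contains a doubled cycle
-/

set_option autoImplicit false

noncomputable section

namespace Run7.h636.LTS

open Run7.h636.Pub
open Pool.Agent.Run7.h308.LT.Chk (Good)
open Run7.h636.LT.Ctr (GoodF)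
open Run7.h636.LT.Tab (ckJ L17)

instance : Fact (Nat.Prime 3) := ⟨Nat.prime_three⟩

theorem tsph_of_good {n M N : ℕ} (hN : N ≤ n) (hG : Good 7 n M (2 ^ N - 1)) :
    TSph (2 * 3 + 1) (Pool.Agent.Run7.h308.LT.Chk.fin n M N) := by
  obtain ⟨h1, f, h2, h3, h4⟩ := Pool.Agent.Run7.h308.LT.Chk.fin_main hN hG
  refine ⟨(HS_iff _ _).2 h1, f, ?_⟩
  rw [Rea_eq]
  exact ⟨h2, h3, h4⟩

theorem cubeE {n M N : ℕ} {J : List ℕ} {C : ℕ} (hN : N ≤ n) (hG : Good 7 n M (2 ^ N - 1))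
    (hJ : ckJ n M N J L17 C = true) (hJl : J.length = 38) :
    ∃ (m : ℕ) (S : SimpleGraph (Fin m)), TSph 7 S ∧ ResFin (Gam S) ∧
      (dav S).free.DetL2Acyclic ∧ (dav S).cube.free.DetL2Acyclic ∧ (dav S).cube.free.l2torsion = 0 ∧
      CubeGrowth (dav S) 3 10 (2 ^ m / 2 ^ 4) := by
  obtain ⟨Z, c, hc⟩ := Run7.h636.LT.Tab.mk Run7.h636.LT.Tab.L17_ck hJ hJl Run7.h636.LT.Tab.L17_ne
  obtain ⟨m, S, -, h2, h3, h4, h5, h6, h7⟩ := main3T (d := 3) _ (by norm_num) (tsph_of_good hN hG) 3 (by norm_num) Z c hc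
  exact ⟨m, S, h2, h3, h4, h5, h6, h7⟩

theorem squareE {n M N : ℕ} {J : List ℕ} {C : ℕ} (hN : N ≤ n) (hG : Good 7 n M (2 ^ N - 1))
    (hJ : ckJ n M N J L17 C = true) (hJl : J.length = 38) :
    ∃ (m : ℕ) (S : SimpleGraph (Fin m)), TSph 7 S ∧ ResFin (Gam S) ∧
      SqGrowth (dav S) 3 6 (2 ^ m / 2 ^ 4) ∧ SqGrowth (dav S) 3 7 (2 ^ m / 2 ^ 4) := by
  obtain ⟨Z, c, hc⟩ := Run7.h636.LT.Tab.mk Run7.h636.LT.Tab.L17_ck hJ hJl Run7.h636.LT.Tab.L17_ne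
  obtain ⟨m, S, -, h2, h3, h4, h5⟩ := main2T (d := 3) _ (by norm_num) (tsph_of_good hN hG) 3 (by norm_num) Z c hc
  exact ⟨m, S, h2, h3, h4, h5⟩

theorem cubeF {n M N : ℕ} {J : List ℕ} {C : ℕ} (hN : N ≤ n) (hG : GoodF 7 n M (2 ^ N - 1))
    (hJ : ckJ n M N J L17 C = true) (hJl : J.length = 38) :
    ∃ (m : ℕ) (S : SimpleGraph (Fin m)), HS 7 S ∧ Pool.Agent.N504.RS.Two.HSph2 7 S ∧ ResFin (Gam S) ∧
      (dav S).free.DetL2Acyclic ∧ (dav S).cube.free.DetL2Acyclic ∧ (dav S).cube.free.l2torsion = 0 ∧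
      CubeGrowth (dav S) 3 10 (2 ^ m / 2 ^ 4) := by
  obtain ⟨Z, c, hc⟩ := Run7.h636.LT.Tab.mk Run7.h636.LT.Tab.L17_ck hJ hJl Run7.h636.LT.Tab.L17_ne
  have h0 := Run7.h636.LT.Ctr.fin_hsph2 hN hG
  obtain ⟨m, S, h1, h2, h3, h4, h5, h6, h7⟩ := main3 (d := 3) _ (by norm_num) (Run7.h636.LT.Ctr.fin_hsph hN hG)
    (Run7.h636.LT.Ctr.embAll_two (d := 3) h0) 3 (by norm_num) Z c hc
  exact ⟨m, S, (HS_iff _ _).2 h2, Pool.Agent.N504.RS.sub_hsph2 h1 h0, h3, h4, h5, h6, h7⟩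

theorem squareF {n M N : ℕ} {J : List ℕ} {C : ℕ} (hN : N ≤ n) (hG : GoodF 7 n M (2 ^ N - 1))
    (hJ : ckJ n M N J L17 C = true) (hJl : J.length = 38) :
    ∃ (m : ℕ) (S : SimpleGraph (Fin m)), HS 7 S ∧ Pool.Agent.N504.RS.Two.HSph2 7 S ∧ ResFin (Gam S) ∧
      SqGrowth (dav S) 3 6 (2 ^ m / 2 ^ 4) ∧ SqGrowth (dav S) 3 7 (2 ^ m / 2 ^ 4) := by
  obtain ⟨Z, c, hc⟩ := Run7.h636.LT.Tab.mk Run7.h636.LT.Tab.L17_ck hJ hJl Run7.h636.LT.Tab.L17_ne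
  have h0 := Run7.h636.LT.Ctr.fin_hsph2 hN hG
  obtain ⟨m, S, h1, h2, h3, h4, h5⟩ := main2 (d := 3) _ (by norm_num) (Run7.h636.LT.Ctr.fin_hsph hN hG)
    (Run7.h636.LT.Ctr.embAll_two (d := 3) h0) 3 (by norm_num) Z c hc
  exact ⟨m, S, (HS_iff _ _).2 h2, Pool.Agent.N504.RS.sub_hsph2 h1 h0, h3, h4, h5⟩

end Run7.h636.LTS
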