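import Pool.Agent.N496.LT.E1
import Pool.Agent.N504.RS.Brid

/-!
# Project LT (helper636): contraction of edges of flag homology spheres, basic inequalities over a field

After `Pool/Agent/N496/LT/E1.lean` (real coefficients).
-/

set_option autoImplicit false
set_option linter.unusedSectionVars false

noncomputable section

namespace Run7.h636.LT.Ctr

open Module Pool.Agent.W907.SG
open Pool.Agent.W907.SM (lk)

variable {V : Type} [Fintype V] [LinearOrder V] {F : Type} [Field F] {G H : SimpleGraph V} {A : Set V}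


/-- the real reduced Betti numbers of the flag complex of `G` on the set `A` -/
def bb (F : Type) [Field F] (G : SimpleGraph V) (A : Set V) (i : ℕ) : ℕ :=
  beta G (fun _ => (- LinearMap.id : F →ₗ[F] F)) A ∅ i

omit [Fintype V] [LinearOrder V] in
theorem KK_S (S : Set V) (i : ℕ) : KK G (fun _ => (- LinearMap.id : F →ₗ[F] F)) A S i =
    KK G (fun _ => (- LinearMap.id : F →ₗ[F] F)) A ∅ i := by
  ext c
  rw [mem_KK, mem_KK]
  exact and_congr_right fun _ => ⟨fun _ T t _ => rfl, fun _ T t _ => rfl⟩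

theorem beta_SS (S : Set V) (i : ℕ) : beta G (fun _ => (- LinearMap.id : F →ₗ[F] F)) A S i =
    bb F G A i := by
  unfold bb beta ZZ BB
  rw [KK_S (i := i) S, KK_S (i := i + 1) S]

/-- only the induced graph matters -/
theorem bb_congr (h : ∀ u ∈ A, ∀ v ∈ A, G.Adj u v ↔ H.Adj u v) (i : ℕ) : bb F G A i = bb F H A i := by
  have key : ∀ i, KK G (fun _ => (- LinearMap.id : F →ₗ[F] F)) A ∅ i =
      KK H (fun _ => (- LinearMap.id : F →ₗ[F] F)) A ∅ i := by
    intro i
    have hcl : ∀ T : Finset V, (G.IsClique (T : Set V) ∧ (T : Set V) ⊆ A ∧ T.card = i) ↔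
        (H.IsClique (T : Set V) ∧ (T : Set V) ⊆ A ∧ T.card = i) := by
      intro T
      constructor
      · rintro ⟨h1, h2, h3⟩
        exact ⟨fun x hx y hy hxy => (h x (h2 hx) y (h2 hy)).1 (h1 hx hy hxy), h2, h3⟩
      · rintro ⟨h1, h2, h3⟩
        exact ⟨fun x hx y hy hxy => (h x (h2 hx) y (h2 hy)).2 (h1 hx hy hxy), h2, h3⟩
    ext c
    rw [mem_KK, mem_KK]
    refine and_congr_left fun _ => forall_congr' fun T => ?_
    rw [hcl T]
  unfold bb beta ZZ BB
  rw [key i, key (i + 1)]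

theorem bb_cone {u : V} (hu : u ∈ A) (h : ∀ w ∈ A, w ≠ u → G.Adj u w) (i : ℕ) : bb F G A i = 0 :=
  Pool.Agent.R703.MO.beta_cone hu h (fun _ => rfl) i

theorem bb_vert0 {v : V} (hv : v ∉ A) : bb F G (insert v A) 0 ≤ bb F G A 0 :=
  (vert V F F G _ A ∅ v hv (Set.notMem_empty v)).1

theorem bb_vert {v : V} (hv : v ∉ A) (i : ℕ) :
    bb F G (insert v A) (i + 1) ≤ bb F G A (i + 1) + bb F G (A ∩ G.neighborSet v) i := by
  have h := (vert V F F G (fun _ => (- LinearMap.id : F →ₗ[F] F)) A ∅ v hv (Set.notMem_empty v)).2 i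
  rw [beta_SS (insert v ∅)] at h
  exact h

theorem bb_vdel {v : V} (hv : v ∉ A) (i : ℕ) :
    bb F G A i ≤ bb F G (insert v A) i + bb F G (A ∩ G.neighborSet v) i := by
  have h := Pool.Agent.R781.VS.vdel G (fun _ => (- LinearMap.id : F →ₗ[F] F)) A ∅ v hv i
  rw [beta_SS (insert v ∅)] at h
  exact h

/-- adding a vertex with an acyclic link -/
theorem bb_add {v : V} (hv : v ∉ A) (h : ∀ i, bb F G (A ∩ G.neighborSet v) i = 0) (i : ℕ) :
    bb F G (insert v A) i = bb F G A i := by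
  refine le_antisymm ?_ ?_
  · cases i with
    | zero => exact bb_vert0 hv
    | succ i =>
      have := bb_vert (F := F) (G := G) hv i
      rwa [h i, add_zero] at this
  · have := bb_vdel (F := F) (G := G) hv i
    rwa [h i, add_zero] at this

/-- adding a dominated vertex -/
theorem bb_dom {v u : V} (hv : v ∉ A) (hu : u ∈ A) (huv : G.Adj v u)
    (h : ∀ w ∈ A, G.Adj v w → w ≠ u → G.Adj u w) (i : ℕ) : bb F G (insert v A) i = bb F G A i :=
  bb_add hv (fun i => bb_cone (show u ∈ A ∩ G.neighborSet v from ⟨hu, huv⟩)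
    (fun w hw hwu => h w hw.1 hw.2 hwu) i) i

open Pool.Agent.W347.SGV in
/-- the lift as a linear map -/
def liftL (v : V) : (Finset V → F) →ₗ[F] (Finset V → F) where
  toFun := lift v
  map_add' c d := by
    funext T
    show (if v ∈ T then sg v (T.erase v) • (c + d) (T.erase v) else 0) =
      (if v ∈ T then sg v (T.erase v) • c (T.erase v) else 0) +
        (if v ∈ T then sg v (T.erase v) • d (T.erase v) else 0)
    split_ifs
    · rw [Pi.add_apply, smul_add]
    · rw [add_zero]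
  map_smul' a c := by
    funext T
    show (if v ∈ T then sg v (T.erase v) • (a • c) (T.erase v) else 0) =
      a • (if v ∈ T then sg v (T.erase v) • c (T.erase v) else 0)
    split_ifs
    · rw [Pi.smul_apply]
      exact smul_comm _ _ _
    · rw [smul_zero]

open Pool.Agent.W347.SGV in
/-- the third inequality in the exact sequence of a vertex -/
theorem bb_lnk {v : V} (hv : v ∉ A) (i : ℕ) :
    bb F G (A ∩ G.neighborSet v) i ≤ bb F G (insert v A) (i + 1) + bb F G A i := by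
  set ρ : V → F →ₗ[F] F := fun _ => (- LinearMap.id : F →ₗ[F] F) with hρ
  have hlk : bb F G (A ∩ G.neighborSet v) i = beta G ρ (A ∩ G.neighborSet v) (insert v ∅) i :=
    (beta_SS _ _).symm
  rw [hlk]
  have hq0 : ∀ j, ∀ c ∈ KK G ρ A ∅ j, qq F v c = 0 := by
    intro j c hc
    funext T
    by_cases hvT : v ∈ T
    · exact qq_of_mem _ hvT
    · rw [qq_of_not _ hvT, (mem_KK.1 hc).1 (insert v T), smul_zero]
      · rfl
      · rintro ⟨-, h, -⟩
        exact hv (h (by simp))
  refine mid F (Finset V → F) (Finset V → F) (Finset V → F) (qq F v) ((bd F).comp (liftL v))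
    (BB G ρ (insert v A) ∅ (i + 1)) (ZZ G ρ (insert v A) ∅ (i + 1))
    (BB G ρ (A ∩ G.neighborSet v) (insert v ∅) i) (ZZ G ρ (A ∩ G.neighborSet v) (insert v ∅) i)
    (BB G ρ A ∅ i) (ZZ G ρ A ∅ i) (BB_le_ZZ _ _ _ _ _) (BB_le_ZZ _ _ _ _ _) (BB_le_ZZ _ _ _ _ _)
    ?_ ?_ ?_
  · rintro _ ⟨_, ⟨c, hc, rfl⟩, rfl⟩
    refine ⟨- qq F v c, Submodule.neg_mem _ (qq_mem hc), ?_⟩
    rw [map_neg, qq_bd, neg_neg]
  · rintro _ ⟨y, ⟨hy1, hy2⟩, rfl⟩
    have hy2 : bd F y = 0 := hy2
    show bd F (lift v y) ∈ ZZ G ρ A ∅ i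
    refine ⟨mem_of_qq (bd_mem_KK (lift_mem hy1)) ?_, bd_bd _⟩
    have h1 := qq_bd (F := F) v (lift v y)
    rw [qq_lift hv hy1, hy2] at h1
    exact neg_eq_zero.1 h1.symm
  · rintro z ⟨hz1, hz2⟩ ⟨w, hw, hwz⟩
    have hwz : bd F w = bd F (lift v z) := hwz
    refine ⟨lift v z - w, ⟨Submodule.sub_mem _ (lift_mem hz1)
      (KK_mono (Set.subset_insert _ _) hw), ?_⟩, 0, Submodule.zero_mem _, ?_⟩
    · show bd F (lift v z - w) = 0
      rw [map_sub, hwz, sub_self]
    · rw [map_sub, qq_lift hv hz1, hq0 _ w hw, sub_zero, add_zero]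


end Run7.h636.LT.Ctr
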