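import Pool.Agent.Run7.h636.LT.C.MvF
import Pool.Agent.Run7.h308.LT.ChkB

/-!
# Project LT (helper636): a checker for edge subdivisions, inverse edge subdivisions and contractions

After helper308's `Chk.lean` (real coefficients, no contractions). A graph with vertices `< n` is a natural number
`M`: the bit `u * (n + 1) + v` is the adjacency of `u` and `v`. The set of active vertices is a number `a`.
-/

set_option autoImplicit false
set_option linter.unusedVariables false

namespace Run7.h636.LT.Ctr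

open Pool.Agent.Run7.h308.LT.Mv (Sd Md)
open Pool.Agent.Run7.h308.LT.Chk

/-! ### the moves -/

/-- inverse subdivisions -/
theorem sd_back {V : Type} [Fintype V] [LinearOrder V] {F : Type} [Field F] {G G' : SimpleGraph V} {A : Set V}
    {m s t : V} {k : ℕ} (h : Sd G G' A m s t) (hG : HSF F k G' (insert m A)) : HSF F k G A := by
  have hmt : m ≠ t := fun e => h.hm (e ▸ h.ht)
  have hms : m ≠ s := fun e => h.hm (e ▸ h.hs)
  have hA : insert m A \ {m} = A := by
    ext x
    constructor
    · rintro ⟨h1 | h1, h2⟩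
      · exact absurd h1 h2
      · exact h1
    · intro h1
      exact ⟨Or.inr h1, fun e => h.hm (e ▸ h1)⟩
  have hc : Cn G' G (insert m A) t m := by
    refine ⟨Or.inr h.ht, Or.inl rfl, ?_, ?_, ?_, ?_⟩
    · rw [G'.adj_comm, h.mc t h.ht]
      exact Or.inr (Or.inl rfl)
    · intro x hx y hy h1 h2 h3 h4 h5 h6 h7
      have hxA : x ∈ A := hx.resolve_left h3
      have hyA : y ∈ A := by
        rcases hy with hy | hy
        · rw [hy] at h4
          exact absurd h4 (G'.loopless.irrefl _)
        · exact hy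
      have hys : y = s := by
        rcases (h.mc y hyA).1 h4 with h8 | h8 | h8
        · exact h8
        · exact absurd h8 h6
        · by_contra hys
          apply h5
          rw [h.cc t h.ht y hyA]
          refine ⟨h8.2, fun e => ?_⟩
          rw [Sym2.eq_iff] at e
          rcases e with ⟨-, e⟩ | ⟨-, e⟩
          · exact h6 e
          · exact hys e
      rw [hys, h.cc x hxA s h.hs] at h7
      rw [h.cc t h.ht x hxA] at h1
      exact h2 ((h.mc x hxA).2 (Or.inr (Or.inr ⟨h7.1.symm, h1.1⟩)))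
    · intro x hx y hy h1 h2 h3 h4
      have hxA : x ∈ A := hx.resolve_left h2
      have hyA : y ∈ A := hy.resolve_left h4
      rw [h.cc x hxA y hyA]
      refine ⟨fun h5 => ⟨h5, fun e => ?_⟩, fun h5 => h5.1⟩
      rw [Sym2.eq_iff] at e
      rcases e with ⟨-, e⟩ | ⟨e, -⟩
      · exact h3 e
      · exact h1 e
    · intro x hx h1 h2
      have hxA : x ∈ A := hx.resolve_left h2
      constructor
      · intro h3
        by_cases h4 : x = s
        · right
          rw [h.mc x hxA]
          exact Or.inl h4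
        · left
          rw [h.cc t h.ht x hxA]
          refine ⟨h3, fun e => ?_⟩
          rw [Sym2.eq_iff] at e
          rcases e with ⟨-, e⟩ | ⟨-, e⟩
          · exact h1 e
          · exact h4 e
      · rintro (h3 | h3)
        · rw [h.cc t h.ht x hxA] at h3
          exact h3.1
        · rcases (h.mc x hxA).1 h3 with h4 | h4 | h4
          · rw [h4]
            exact h.hst.symm
          · exact absurd h4 h1
          · exact h4.2
  have h1 := hc.hsf hG
  rwa [hA] at h1

/-! ### fast operations -/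

/-- the constants -/
structure Cst (n R1 R2 : ℕ) : Prop where
  e1 : R1 = rep n (n + 1) 1
  e2 : R2 = rep (n + 1) (n + 1) 1

/-- toggling the pairs `(m, v)`, `v` in `L` -/
def tg (n R1 R2 M L m : ℕ) : ℕ :=
  Nat.xor (Nat.xor M (Nat.shiftLeft L (Nat.mul m (n + 1)))) (Nat.shiftLeft (Nat.land (Nat.mul L R1) R2) m)

theorem tg_eq {n R1 R2 : ℕ} (h : Cst n R1 R2) (M L m : ℕ) : tg n R1 R2 M L m = tog n M L m := by
  unfold tg tog sp
  rw [h.e1, h.e2]

/-- the new matrix of a subdivision -/
def nwf (n R1 R2 M L m s t : ℕ) : ℕ := tg n R1 R2 (tg n R1 R2 M L m) (Nat.pow 2 s) t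

theorem nwf_eq {n R1 R2 : ℕ} (h : Cst n R1 R2) (M L m s t : ℕ) : nwf n R1 R2 M L m s t = nw n M L m s t := by
  unfold nwf nw
  rw [tg_eq h, tg_eq h]

/-- the conditions for a subdivision -/
def cS (n R2 M a m s t : ℕ) : Bool :=
  Nat.ble (Nat.succ m) n && !bt a m && bt a s && bt a t && !Nat.beq s t && bt (row n M s) t &&
    Nat.beq (row n M m) 0 && Nat.beq (Nat.land (Nat.shiftRight M m) R2) 0

theorem cS_eq {n R1 R2 : ℕ} (h : Cst n R1 R2) (M a m s t : ℕ) : cS n R2 M a m s t = ckS n M a m s t := by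
  unfold cS ckS
  rw [h.e2]

/-- all the rows of the vertices in `P` avoid `Q` -/
def av (n M Q : ℕ) : ℕ → ℕ → Bool
  | 0, P => Nat.beq P 0
  | f + 1, P => cond (Nat.beq P 0) true
      (Nat.beq (Nat.land (row n M (Nat.log2 P)) Q) 0 && av n M Q f (Nat.xor P (Nat.pow 2 (Nat.log2 P))))

theorem log2_bit {P : ℕ} (h : P ≠ 0) : P.testBit (Nat.log2 P) = true := by
  rw [Nat.testBit_eq_decide_div_mod_eq, decide_eq_true_eq]
  have h1 : 2 ^ Nat.log2 P ≤ P := Nat.log2_self_le h
  have h2 : P < 2 ^ (Nat.log2 P + 1) := Nat.lt_log2_self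
  have h3 : P / 2 ^ Nat.log2 P = 1 := by
    refine Nat.div_eq_of_lt_le (by rw [Nat.one_mul]; exact h1) ?_
    rw [pow_succ] at h2
    omega
  rw [h3]

theorem av_spec {n M Q : ℕ} (f : ℕ) : ∀ P, av n M Q f P = true → ∀ y, P.testBit y = true → ∀ x, x < n →
    Q.testBit x = true → M.testBit (y * (n + 1) + x) = false := by
  induction f with
  | zero =>
    intro P h y hy
    rw [av, Nat.beq_eq] at h
    rw [h, Nat.zero_testBit] at hy
    exact absurd hy (by simp)
  | succ f ih =>
    intro P h y hy x hx hQ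
    rw [av] at h
    by_cases hP : P = 0
    · rw [hP, Nat.zero_testBit] at hy
      exact absurd hy (by simp)
    have hb : Nat.beq P 0 = false := by
      rw [Bool.eq_false_iff]
      exact fun h' => hP (Nat.eq_of_beq_eq_true h')
    rw [hb, cond_false, Bool.and_eq_true, Nat.beq_eq] at h
    by_cases hyl : y = Nat.log2 P
    · rw [hyl]
      have h1 : row n M (Nat.log2 P) &&& Q = 0 := h.1
      have h2 := congrArg (fun z : ℕ => z.testBit x) h1
      simp only [Nat.testBit_and, testBit_row, hQ, Bool.and_true, Nat.zero_testBit, decide_eq_true hx,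
        Bool.true_and] at h2
      exact h2
    · refine ih _ h.2 y ?_ x hx hQ
      have h3 : (P ^^^ 2 ^ Nat.log2 P).testBit y = true := by
        rw [Nat.testBit_xor, Nat.testBit_two_pow, hy, decide_eq_false (fun e => hyl e.symm)]
        rfl
      exact h3

/-- the neighbours of `m` which are not neighbours of `t`, without `t` -/
def ou (n M m t : ℕ) : ℕ := Nat.xor (Nat.xor (row n M m) (Nat.land (row n M m) (row n M t))) (Nat.pow 2 t)

/-- the conditions for the contraction of `m` into `t`; `b` is the new set of active vertices -/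
def cC (n M a b m t : ℕ) : Bool :=
  Nat.beq (Nat.lor b (Nat.pow 2 m)) a && !bt b m && bt b t && bt (row n M m) t && bt (row n M t) m &&
    !bt (row n M t) t && !bt (row n M m) m && av n M (ou n M t m) n (ou n M m t)

/-- the new matrix of a contraction -/
def nwc (n R1 R2 M m t : ℕ) : ℕ := tg n R1 R2 (tg n R1 R2 M (row n M m) m) (ou n M m t) t

/-- the state, all fields -/
structure GoodF (k n M a : ℕ) : Prop where
  lt : ∀ i, a.testBit i = true → i < n
  sy : ∀ u v, a.testBit u = true → a.testBit v = true →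
    M.testBit (u * (n + 1) + v) = M.testBit (v * (n + 1) + u)
  hs : ∀ (F : Type) [Field F], HSF F k (gr n M) (al n a)

theorem sb_good {k n M M' a m s t : ℕ} (h : Sb n M M' a m s t) (hG : GoodF k n M a) :
    GoodF k n M' (a ||| 2 ^ m) where
  lt i hi := by
    rw [Nat.testBit_or, Nat.testBit_two_pow, Bool.or_eq_true, decide_eq_true_eq] at hi
    rcases hi with hi | hi
    · exact hG.lt i hi
    · rw [← hi]
      exact h.hm
  sy := h.sy' hG.sy
  hs F _ := by
    rw [al_or h.hm]
    exact sd_fwd (h.sd hG.lt hG.sy) (hG.hs F)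

theorem sb_back {k n M M' a m s t : ℕ} (h : Sb n M M' a m s t)
    (hsy : ∀ u v, a.testBit u = true → a.testBit v = true →
      M.testBit (u * (n + 1) + v) = M.testBit (v * (n + 1) + u))
    (hG : GoodF k n M' (a ||| 2 ^ m)) : GoodF k n M a where
  lt i hi := hG.lt i (by rw [Nat.testBit_or, hi, Bool.true_or])
  sy := hsy
  hs F _ := by
    have h1 := hG.hs F
    rw [al_or h.hm] at h1
    exact sd_back (h.sd (fun i hi => hG.lt i (by rw [Nat.testBit_or, hi, Bool.true_or])) hsy) h1

theorem ou_lt (n M m t : ℕ) (ht : t < n) : ou n M m t < 2 ^ n := by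
  have h1 : ou n M m t = (row n M m ^^^ (row n M m &&& row n M t)) ^^^ 2 ^ t := rfl
  rw [h1]
  exact Nat.xor_lt_two_pow (Nat.xor_lt_two_pow (row_lt _ _ _) (Nat.and_lt_two_pow _ (row_lt _ _ _)))
    (Nat.pow_lt_pow_right (by norm_num) ht)

theorem testBit_ou {n M m t x : ℕ} (hx : x < n) (h : M.testBit (m * (n + 1) + t) = true)
    (ht : M.testBit (t * (n + 1) + t) = false) : (ou n M m t).testBit x =
      (M.testBit (m * (n + 1) + x) && !M.testBit (t * (n + 1) + x) && !decide (x = t)) := by
  have h1 : ou n M m t = (row n M m ^^^ (row n M m &&& row n M t)) ^^^ 2 ^ t := rfl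
  rw [h1, Nat.testBit_xor, Nat.testBit_xor, Nat.testBit_and, testBit_row, testBit_row, Nat.testBit_two_pow,
    decide_eq_true hx, Bool.true_and, Bool.true_and]
  by_cases hxt : x = t
  · subst hxt
    rw [h, ht, decide_eq_true rfl]
    rfl
  · rw [decide_eq_false hxt, decide_eq_false (fun e => hxt e.symm)]
    generalize M.testBit (m * (n + 1) + x) = b1
    generalize M.testBit (t * (n + 1) + x) = b2
    revert b1 b2
    decide

theorem testBit_nwc {n R1 R2 M m t u v : ℕ} (hR : Cst n R1 R2) (hm : m < n) (ht : t < n) (hu : u < n) (hv : v < n)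
    (hum : u ≠ m) (hvm : v ≠ m) : (nwc n R1 R2 M m t).testBit (u * (n + 1) + v) =
      ((M.testBit (u * (n + 1) + v) ^^ (decide (u = t) && (ou n M m t).testBit v)) ^^
        (decide (v = t) && (ou n M m t).testBit u)) := by
  unfold nwc
  rw [tg_eq hR, tg_eq hR, testBit_tog (ou_lt n M m t ht) ht hu hv, testBit_tog (row_lt _ _ _) hm hu hv,
    decide_eq_false hum, decide_eq_false hvm, Bool.false_and, Bool.false_and, Bool.xor_false, Bool.xor_false]

theorem cC_good {k n R1 R2 M a b m t : ℕ} (hR : Cst n R1 R2) (hG : GoodF k n M a) (h : cC n M a b m t = true) :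
    GoodF k n (nwc n R1 R2 M m t) b := by
  unfold cC at h
  simp only [Bool.and_eq_true, Bool.not_eq_true', bt_eq, Nat.beq_eq] at h
  obtain ⟨⟨⟨⟨⟨⟨⟨hab, hbm⟩, hbt⟩, hmt⟩, htm⟩, htt⟩, hmm⟩, hav⟩ := h
  have hab : b ||| 2 ^ m = a := hab
  have hba : ∀ u, b.testBit u = true → a.testBit u = true := by
    intro u hu
    rw [← hab, Nat.testBit_or, hu, Bool.true_or]
  have ham : a.testBit m = true := by
    rw [← hab, Nat.testBit_or, Nat.testBit_two_pow_self, Bool.or_true]
  have hm := hG.lt m ham
  have ht := hG.lt t (hba t hbt)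
  rw [testBit_row, decide_eq_true ht, Bool.true_and] at hmt htt
  rw [testBit_row, decide_eq_true hm, Bool.true_and] at htm hmm
  have hne : ∀ u, b.testBit u = true → u ≠ m := by
    rintro u hu rfl
    rw [hbm] at hu
    exact absurd hu (by simp)
  have htm' := hne t hbt
  have hmem : ∀ u, a.testBit u = true → u ≠ m → b.testBit u = true := by
    intro u hu hum
    rw [← hab, Nat.testBit_or, Nat.testBit_two_pow, decide_eq_false (fun e => hum e.symm), Bool.or_false] at hu
    exact hu
  -- the bits of the new matrix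
  have e1 : ∀ x, b.testBit x = true → x ≠ t → (nwc n R1 R2 M m t).testBit (t * (n + 1) + x) =
      (M.testBit (t * (n + 1) + x) || M.testBit (m * (n + 1) + x)) := by
    intro x hx hxt
    have hxn := hG.lt x (hba x hx)
    rw [testBit_nwc hR hm ht ht hxn htm' (hne x hx), decide_eq_true rfl, decide_eq_false hxt, Bool.false_and,
      Bool.xor_false, Bool.true_and, testBit_ou hxn hmt htt, decide_eq_false hxt]
    generalize M.testBit (t * (n + 1) + x) = b1
    generalize M.testBit (m * (n + 1) + x) = b2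
    revert b1 b2
    decide
  have e2 : ∀ x, b.testBit x = true → x ≠ t → (nwc n R1 R2 M m t).testBit (x * (n + 1) + t) =
      (M.testBit (t * (n + 1) + x) || M.testBit (m * (n + 1) + x)) := by
    intro x hx hxt
    have hxn := hG.lt x (hba x hx)
    rw [testBit_nwc hR hm ht hxn ht (hne x hx) htm', decide_eq_true rfl, decide_eq_false hxt, Bool.false_and,
      Bool.xor_false, Bool.true_and, testBit_ou hxn hmt htt, decide_eq_false hxt,
      hG.sy x t (hba x hx) (hba t hbt)]
    generalize M.testBit (t * (n + 1) + x) = b1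
    generalize M.testBit (m * (n + 1) + x) = b2
    revert b1 b2
    decide
  have e3 : ∀ u v, b.testBit u = true → b.testBit v = true → u ≠ t → v ≠ t →
      (nwc n R1 R2 M m t).testBit (u * (n + 1) + v) = M.testBit (u * (n + 1) + v) := by
    intro u v hu hv hut hvt
    rw [testBit_nwc hR hm ht (hG.lt u (hba u hu)) (hG.lt v (hba v hv)) (hne u hu) (hne v hv), decide_eq_false hut,
      decide_eq_false hvt, Bool.false_and, Bool.false_and, Bool.xor_false, Bool.xor_false]
  have hsy : ∀ u v, b.testBit u = true → b.testBit v = true →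
      (nwc n R1 R2 M m t).testBit (u * (n + 1) + v) = (nwc n R1 R2 M m t).testBit (v * (n + 1) + u) := by
    intro u v hu hv
    by_cases hut : u = t
    · by_cases hvt : v = t
      · rw [hut, hvt]
      · rw [hut, e1 v hv hvt, e2 v hv hvt]
    · by_cases hvt : v = t
      · rw [hvt, e1 u hu hut, e2 u hu hut]
      · rw [e3 u v hu hv hut hvt, e3 v u hv hu hvt hut]
        exact hG.sy u v (hba u hu) (hba v hv)
  have hset : al n a \ {⟨m, hm⟩} = al n b := by
    ext x
    constructor
    · rintro ⟨h1, h2⟩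
      exact hmem x h1 fun e => h2 (Fin.ext e)
    · intro h1
      exact ⟨hba x h1, fun e => hne x h1 (congrArg Fin.val e)⟩
  have hc : Cn (gr n M) (gr n (nwc n R1 R2 M m t)) (al n a) ⟨t, ht⟩ ⟨m, hm⟩ := by
    refine ⟨hba t hbt, ham, ⟨fun e => htm' (congrArg Fin.val e), htm, hmt⟩, ?_, ?_, ?_⟩
    · intro x hx y hy h1 h2 h3 h4 h5 h6 h7
      have hx : a.testBit x = true := hx
      have hy : a.testBit y = true := hy
      have k2 : M.testBit (m * (n + 1) + x) = false := by
        by_contra hcon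
        rw [Bool.not_eq_false] at hcon
        exact h2 ⟨fun e => h3 e.symm, hcon, by rw [hG.sy x m hx ham]; exact hcon⟩
      have k5 : M.testBit (t * (n + 1) + y) = false := by
        by_contra hcon
        rw [Bool.not_eq_false] at hcon
        exact h5 ⟨fun e => h6 e.symm, hcon, by rw [hG.sy y t hy (hba t hbt)]; exact hcon⟩
      have q1 : (ou n M m t).testBit y = true := by
        rw [testBit_ou y.2 hmt htt, h4.2.1, k5, decide_eq_false (fun e => h6 (Fin.ext e))]
        rfl
      have q2 : (ou n M t m).testBit x = true := by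
        rw [testBit_ou x.2 htm hmm, h1.2.1, k2, decide_eq_false (fun e => h3 (Fin.ext e))]
        rfl
      have q3 := av_spec n _ hav y q1 x x.2 q2
      have q4 : M.testBit (y * (n + 1) + x) = true := h7.2.2
      rw [q3] at q4
      exact absurd q4 (by simp)
    · intro x hx y hy h1 h2 h3 h4
      have hx : a.testBit x = true := hx
      have hy : a.testBit y = true := hy
      have hxb := hmem x hx fun e => h2 (Fin.ext e)
      have hyb := hmem y hy fun e => h4 (Fin.ext e)
      have h1 : (x : ℕ) ≠ t := fun e => h1 (Fin.ext e)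
      have h3 : (y : ℕ) ≠ t := fun e => h3 (Fin.ext e)
      show (x ≠ y ∧ _ ∧ _) ↔ (x ≠ y ∧ _ ∧ _)
      rw [e3 x y hxb hyb h1 h3, e3 y x hyb hxb h3 h1]
    · intro x hx h1 h2
      have hx : a.testBit x = true := hx
      have hxb := hmem x hx fun e => h2 (Fin.ext e)
      have h1' : (x : ℕ) ≠ t := fun e => h1 (Fin.ext e)
      show ((⟨t, ht⟩ : Fin n) ≠ x ∧ _ ∧ _) ↔ ((⟨t, ht⟩ : Fin n) ≠ x ∧ _ ∧ _) ∨ ((⟨m, hm⟩ : Fin n) ≠ x ∧ _ ∧ _)
      rw [e1 x hxb h1', e2 x hxb h1', hG.sy x t hx (hba t hbt), hG.sy x m hx ham, Bool.or_eq_true]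
      have g1 : (⟨t, ht⟩ : Fin n) ≠ x := fun e => h1 e.symm
      have g2 : (⟨m, hm⟩ : Fin n) ≠ x := fun e => h2 e.symm
      tauto
  exact ⟨fun i hi => hG.lt i (hba i hi), hsy, fun F _ => by rw [← hset]; exact hc.hsf (hG.hs F)⟩

/-! ### runs -/

/-- evaluation of the argument -/
def frc (x : ℕ) (k : ℕ → Bool) : Bool := Nat.rec (k 0) (fun y _ => k (Nat.succ y)) x

theorem frc_eq (x : ℕ) (k : ℕ → Bool) : frc x k = k x := by
  cases x <;> rfl

/-- Executing `f` moves, and then `K`. The moves are the digits of `N` in base `2 ^ (3 q + 2)`: the lowest two bits of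
a digit are the type (`0`: subdivision, `1`: inverse subdivision, otherwise contraction), followed by the vertices
`m`, `s`, `t` with `q` bits each (`s` is not used for contractions). -/
def go (n q R1 R2 : ℕ) (K : ℕ → ℕ → Bool) : ℕ → ℕ → ℕ → ℕ → Bool
  | 0, _, M, a => K M a
  | f + 1, N, M, a =>
    frc (Nat.mod (Nat.shiftRight N 2) (Nat.pow 2 q)) fun m =>
    frc (Nat.mod (Nat.shiftRight N (q + 2)) (Nat.pow 2 q)) fun s =>
    frc (Nat.mod (Nat.shiftRight N (2 * q + 2)) (Nat.pow 2 q)) fun t =>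
    frc (Nat.mod N 4) fun y =>
    frc (Nat.shiftRight N (3 * q + 2)) fun N' =>
    cond (Nat.beq y 0)
      (cS n R2 M a m s t && frc (nwf n R1 R2 M (nb n M s t) m s t) fun M1 => frc (Nat.lor a (Nat.pow 2 m)) fun a1 =>
        go n q R1 R2 K f N' M1 a1)
      (frc (Nat.xor a (Nat.pow 2 m)) fun a1 =>
        cond (Nat.beq y 1)
          (ckI n M a a1 m s t && frc (nwf n R1 R2 M (row n M m) m s t) fun M1 => go n q R1 R2 K f N' M1 a1)
          (cC n M a a1 m t && frc (nwc n R1 R2 M m t) fun M1 => go n q R1 R2 K f N' M1 a1))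

theorem go_good {k n q R1 R2 : ℕ} (hR : Cst n R1 R2) (K : ℕ → ℕ → Bool) (f : ℕ) : ∀ (N M a : ℕ), GoodF k n M a →
    go n q R1 R2 K f N M a = true → ∃ M' a', GoodF k n M' a' ∧ K M' a' = true := by
  induction f with
  | zero =>
    intro N M a hG h
    exact ⟨M, a, hG, h⟩
  | succ f ih =>
    intro N M a hG h
    rw [go] at h
    simp only [frc_eq] at h
    generalize (N.shiftRight 2).mod (Nat.pow 2 q) = m at h
    generalize (N.shiftRight (q + 2)).mod (Nat.pow 2 q) = s at h
    generalize (N.shiftRight (2 * q + 2)).mod (Nat.pow 2 q) = t at h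
    cases hc : (N.mod 4).beq 0 with
    | true =>
      rw [hc, cond_true, Bool.and_eq_true, cS_eq hR, nwf_eq hR] at h
      exact ih _ _ _ (sb_good (ckS_sb hG.lt h.1) hG) h.2
    | false =>
      rw [hc, cond_false] at h
      cases hc' : (N.mod 4).beq 1 with
      | true =>
        rw [hc', cond_true, Bool.and_eq_true, nwf_eq hR] at h
        obtain ⟨h1, h2, h3⟩ := ckI_sb hG.lt hG.sy h.1
        rw [← h1] at hG
        exact ih _ _ _ (sb_back h2 h3 hG) h.2
      | false =>
        rw [hc', cond_false, Bool.and_eq_true] at h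
        exact ih _ _ _ (cC_good hR hG h.1) h.2

/-- Executing the chunks of moves of a list: pairs of the number of moves and the number of the moves. -/
def goL (n q R1 R2 : ℕ) (K : ℕ → ℕ → Bool) : List (ℕ × ℕ) → ℕ → ℕ → Bool
  | [], M, a => K M a
  | c :: l, M, a => go n q R1 R2 (goL n q R1 R2 K l) c.1 c.2 M a

theorem goL_good {k n q R1 R2 : ℕ} (hR : Cst n R1 R2) (K : ℕ → ℕ → Bool) (l : List (ℕ × ℕ)) : ∀ (M a : ℕ),
    GoodF k n M a → goL n q R1 R2 K l M a = true → ∃ M' a', GoodF k n M' a' ∧ K M' a' = true := by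
  induction l with
  | nil =>
    intro M a hG h
    exact ⟨M, a, hG, h⟩
  | cons c l ih =>
    intro M a hG h
    rw [goL] at h
    obtain ⟨M', a', h1, h2⟩ := go_good hR _ _ _ _ _ hG h
    exact ih M' a' h1 h2

/-- the repunit numbers -/
theorem rep_one {w : ℕ} (hw : 0 < w) (c : ℕ) : rep w c 1 = (2 ^ (w * c) - 1) / (2 ^ w - 1) := by
  have h1 : 1 < 2 ^ w := by
    calc 1 = 2 ^ 0 := rfl
      _ < 2 ^ w := Nat.pow_lt_pow_right (by norm_num) hw
  symm
  refine Nat.div_eq_of_eq_mul_left (by omega) ?_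
  induction c with
  | zero => simp [rep]
  | succ c ih =>
    have h2 : rep w (c + 1) 1 = 2 ^ w * rep w c 1 + 1 := rfl
    have h3 : 2 ^ (w * (c + 1)) = 2 ^ w * 2 ^ (w * c) := by
      rw [Nat.mul_succ, pow_add, mul_comm]
    have h4 : 1 ≤ 2 ^ (w * c) := Nat.one_le_two_pow
    rw [h2, h3]
    obtain ⟨x, hx⟩ : ∃ x, 2 ^ w = x + 1 := ⟨2 ^ w - 1, by omega⟩
    obtain ⟨y, hy⟩ : ∃ y, 2 ^ (w * c) = y + 1 := ⟨2 ^ (w * c) - 1, by omega⟩
    rw [hx, hy] at ih ⊢
    have e1 : x + 1 - 1 = x := by omega
    have e2 : y + 1 - 1 = y := by omega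
    rw [e1, e2] at ih
    rw [e1]
    have e3 : (x + 1) * (y + 1) - 1 = (x + 1) * y + x := by
      have : (x + 1) * (y + 1) = (x + 1) * y + x + 1 := by ring
      omega
    rw [e3, ih]
    ring

/-- the constants, computed -/
def r1 (n : ℕ) : ℕ := Nat.div (Nat.sub (Nat.pow 2 (Nat.mul n (Nat.succ n))) 1) (Nat.sub (Nat.pow 2 n) 1)

/-- the constants, computed -/
def r2 (n : ℕ) : ℕ :=
  Nat.div (Nat.sub (Nat.pow 2 (Nat.mul (Nat.succ n) (Nat.succ n))) 1) (Nat.sub (Nat.pow 2 (Nat.succ n)) 1)

theorem cst (n : ℕ) (hn : 0 < n) : Cst n (r1 n) (r2 n) := ⟨(rep_one hn _).symm, (rep_one (by omega) _).symm⟩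

/-! ### the octahedral sphere -/

theorem oct_hsF {k n M : ℕ} (F : Type) [Field F] (h : ckO k n M = true) (j : ℕ) (hj : j ≤ k) :
    HSF F j (gr n M) {v : Fin n | (v : ℕ) < 2 * j} := by
  obtain ⟨hn, hb⟩ := ckO_bit h
  induction j with
  | zero =>
    have h1 : {v : Fin n | (v : ℕ) < 2 * 0} = ∅ := by
      ext v
      simp
    rw [h1]
    exact hs_empty F _
  | succ j ih =>
    have ih := ih (by omega)
    have h1 : {v : Fin n | (v : ℕ) < 2 * (j + 1)} =
        insert ⟨2 * j, by omega⟩ (insert ⟨2 * j + 1, by omega⟩ {v : Fin n | (v : ℕ) < 2 * j}) := by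
      ext v
      show (v : ℕ) < 2 * (j + 1) ↔ v = _ ∨ v = _ ∨ (v : ℕ) < 2 * j
      rw [Fin.ext_iff, Fin.ext_iff]
      show (v : ℕ) < 2 * (j + 1) ↔ (v : ℕ) = 2 * j ∨ (v : ℕ) = 2 * j + 1 ∨ (v : ℕ) < 2 * j
      omega
    rw [h1]
    refine hs_susp ?_ ?_ ?_ ?_ ?_ ?_ ih
    · intro h2
      have h2 : 2 * j < 2 * j := h2
      omega
    · intro h2
      have h2 : 2 * j + 1 < 2 * j := h2
      omega
    · rw [Ne, Fin.ext_iff]
      show ¬ (2 * j = 2 * j + 1)
      omega
    · rintro ⟨-, h2, -⟩
      have h2 : M.testBit (2 * j * (n + 1) + (2 * j + 1)) = true := h2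
      rw [hb _ _ (by omega) (by omega), decide_eq_true_eq] at h2
      omega
    · intro a ha
      have ha : (a : ℕ) < 2 * j := ha
      refine ⟨?_, ?_, ?_⟩
      · rw [Ne, Fin.ext_iff]
        show ¬ (2 * j = (a : ℕ))
        omega
      · show M.testBit (2 * j * (n + 1) + (a : ℕ)) = true
        rw [hb _ _ (by omega) (by omega), decide_eq_true_eq]
        omega
      · show M.testBit ((a : ℕ) * (n + 1) + 2 * j) = true
        rw [hb _ _ (by omega) (by omega), decide_eq_true_eq]
        omega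
    · intro a ha
      have ha : (a : ℕ) < 2 * j := ha
      refine ⟨?_, ?_, ?_⟩
      · rw [Ne, Fin.ext_iff]
        show ¬ (2 * j + 1 = (a : ℕ))
        omega
      · show M.testBit ((2 * j + 1) * (n + 1) + (a : ℕ)) = true
        rw [hb _ _ (by omega) (by omega), decide_eq_true_eq]
        omega
      · show M.testBit ((a : ℕ) * (n + 1) + (2 * j + 1)) = true
        rw [hb _ _ (by omega) (by omega), decide_eq_true_eq]
        omega

theorem oct_goodF {k n M : ℕ} (h : ckO k n M = true) : GoodF k n M (2 ^ (2 * k) - 1) where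
  lt i hi := by
    rw [Nat.testBit_two_pow_sub_one, decide_eq_true_eq] at hi
    have := (ckO_bit h).1
    omega
  sy u v hu hv := by
    rw [Nat.testBit_two_pow_sub_one, decide_eq_true_eq] at hu hv
    rw [(ckO_bit h).2 u v hu hv, (ckO_bit h).2 v u hv hu]
    exact decide_eq_decide.2 ne_comm
  hs F _ := by
    rw [al_pow]
    exact oct_hsF F h k le_rfl

end Run7.h636.LT.Ctr
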