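import Pool.Agent.Run7.h636.LT.C.ChkE

/-!
# Project LT (helper636): runs of the checkers which are cut into pieces
-/

set_option autoImplicit false
set_option linter.unusedVariables false

namespace Run7.h636.LT.Ctr

open Pool.Agent.Run7.h308.LT.Chk

/-- The number of a list of blocks of `w` bits. -/
def mkM (w : ℕ) : List ℕ → ℕ
  | [] => 0
  | r :: l => Nat.add r (Nat.shiftLeft (mkM w l) w)

/-- A piece of a run: from `mkM w S`, `a` to `mkM w S'`, `a'`. -/
def piE (n q w : ℕ) (S S' : List ℕ) (a a' : ℕ) (NN : List (ℕ × ℕ)) : Bool :=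
  frc (r1 n) fun R1 => frc (r2 n) fun R2 => frc (mkM w S) fun M =>
    geL n q R1 R2 (fun M b => Nat.beq b a' && Nat.beq M (mkM w S')) NN M a

theorem piE_good {k n q w : ℕ} {S S' : List ℕ} {a a' : ℕ} {NN : List (ℕ × ℕ)} (hn : 0 < n)
    (hG : Good k n (mkM w S) a) (h : piE n q w S S' a a' NN = true) : Good k n (mkM w S') a' := by
  unfold piE at h
  rw [frc_eq, frc_eq, frc_eq] at h
  obtain ⟨M', b', h1, h2⟩ := geL_good (cst n hn) _ NN _ _ hG h
  rw [Bool.and_eq_true, Nat.beq_eq, Nat.beq_eq] at h2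
  rw [← h2.1, ← h2.2]
  exact h1

/-- the octahedral sphere and the table, at the two ends of a run -/
def ckA (k n w : ℕ) (S : List ℕ) : Bool := frc (mkM w S) fun M => ckO k n M

theorem ckA_good {k n w : ℕ} {S : List ℕ} (h : ckA k n w S = true) : Good k n (mkM w S) (2 ^ (2 * k) - 1) := by
  unfold ckA at h
  rw [frc_eq] at h
  exact oct_good h

theorem ckA_goodF {k n w : ℕ} {S : List ℕ} (h : ckA k n w S = true) : GoodF k n (mkM w S) (2 ^ (2 * k) - 1) := by
  unfold ckA at h
  rw [frc_eq] at h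
  exact oct_goodF h

end Run7.h636.LT.Ctr
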