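import Pool.Agent.Run7.h636.LT.C.Prd
import Pool.Agent.Run7.h636.LT.C.Cut

/-!
# Project LT (helper636): a faster version of the checker `go`
-/

set_option autoImplicit false
set_option linter.unusedVariables false

namespace Run7.h636.LT.Ctr

open Pool.Agent.Run7.h308.LT.Chk

/-- the conditions for the contraction of `m` into `t`; `b` is the new set of active vertices -/
def cC2 (n R1 R2 M a b m t : ℕ) : Bool :=
  Nat.beq (Nat.lor b (Nat.pow 2 m)) a && !bt b m && bt b t && bt (row n M m) t && bt (row n M t) m &&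
    !bt (row n M t) t && !bt (row n M m) m && av2 n R1 R2 M (ou n M t m) (ou n M m t)

theorem cC2_cC {n R1 R2 M a b m t : ℕ} (hR : Cst n R1 R2) (ha : ∀ i, a.testBit i = true → i < n)
    (h : cC2 n R1 R2 M a b m t = true) : cC n M a b m t = true := by
  unfold cC2 at h
  rw [Bool.and_eq_true] at h
  unfold cC
  rw [Bool.and_eq_true]
  refine ⟨h.1, ?_⟩
  have h1 := h.1
  simp only [Bool.and_eq_true, Bool.not_eq_true', bt_eq, Nat.beq_eq] at h1
  obtain ⟨⟨⟨⟨⟨⟨hab, hbm⟩, hbt⟩, -⟩, -⟩, -⟩, -⟩ := h1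
  have hab : b ||| 2 ^ m = a := hab
  have hm : m < n := ha m (by rw [← hab, Nat.testBit_or, Nat.testBit_two_pow_self, Bool.or_true])
  have ht : t < n := ha t (by rw [← hab, Nat.testBit_or, hbt, Bool.true_or])
  refine av_of n _ (ou_lt n M m t ht) ?_
  exact av2_spec hR (by omega) (ou_lt n M m t ht) (ou_lt n M t m hm) h.2

/-- Executing `f` moves, and then `K`. The moves are the digits of `N` in base `2 ^ (3 q + 2)`: the lowest two bits of
a digit are the type (`0`: subdivision, `1`: inverse subdivision, otherwise contraction), followed by the vertices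
`m`, `s`, `t` with `q` bits each (`s` is not used for contractions). -/
def g2 (n q R1 R2 : ℕ) (K : ℕ → ℕ → Bool) : ℕ → ℕ → ℕ → ℕ → Bool
  | 0, _, M, a => K M a
  | f + 1, N, M, a =>
    frc (Nat.mod (Nat.shiftRight N 2) (Nat.pow 2 q)) fun m =>
    frc (Nat.mod (Nat.shiftRight N (q + 2)) (Nat.pow 2 q)) fun s =>
    frc (Nat.mod (Nat.shiftRight N (2 * q + 2)) (Nat.pow 2 q)) fun t =>
    frc (Nat.mod N 4) fun y =>
    frc (Nat.shiftRight N (3 * q + 2)) fun N' =>
    cond (Nat.beq y 0)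
      (cS n R2 M a m s t && frc (nwf n R1 R2 M (nb n M s t) m s t) fun M1 => frc (Nat.lor a (Nat.pow 2 m)) fun a1 =>
        g2 n q R1 R2 K f N' M1 a1)
      (frc (Nat.xor a (Nat.pow 2 m)) fun a1 =>
        cond (Nat.beq y 1)
          (ckI n M a a1 m s t && frc (nwf n R1 R2 M (row n M m) m s t) fun M1 => g2 n q R1 R2 K f N' M1 a1)
          (cC2 n R1 R2 M a a1 m t && frc (nwc n R1 R2 M m t) fun M1 => g2 n q R1 R2 K f N' M1 a1))

theorem g2_good {k n q R1 R2 : ℕ} (hR : Cst n R1 R2) (K : ℕ → ℕ → Bool) (f : ℕ) : ∀ (N M a : ℕ), GoodF k n M a →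
    g2 n q R1 R2 K f N M a = true → ∃ M' a', GoodF k n M' a' ∧ K M' a' = true := by
  induction f with
  | zero =>
    intro N M a hG h
    exact ⟨M, a, hG, h⟩
  | succ f ih =>
    intro N M a hG h
    rw [g2] at h
    simp only [frc_eq] at h
    generalize (N.shiftRight 2).mod (Nat.pow 2 q) = m at h
    generalize (N.shiftRight (q + 2)).mod (Nat.pow 2 q) = s at h
    generalize (N.shiftRight (2 * q + 2)).mod (Nat.pow 2 q) = t at h
    cases hc : (N.mod 4).beq 0 with
    | true =>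
      rw [hc, cond_true, Bool.and_eq_true, cS_eq hR, nwf_eq hR] at h
      exact ih _ _ _ (sb_good (ckS_sb hG.lt h.1) hG) h.2
    | false =>
      rw [hc, cond_false] at h
      cases hc' : (N.mod 4).beq 1 with
      | true =>
        rw [hc', cond_true, Bool.and_eq_true, nwf_eq hR] at h
        obtain ⟨h1, h2, h3⟩ := ckI_sb hG.lt hG.sy h.1
        rw [← h1] at hG
        exact ih _ _ _ (sb_back h2 h3 hG) h.2
      | false =>
        rw [hc', cond_false, Bool.and_eq_true] at h
        exact ih _ _ _ (cC_good hR hG (cC2_cC hR hG.lt h.1)) h.2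

/-- Executing the chunks of moves of a list: pairs of the number of moves and the number of the moves. -/
def g2L (n q R1 R2 : ℕ) (K : ℕ → ℕ → Bool) : List (ℕ × ℕ) → ℕ → ℕ → Bool
  | [], M, a => K M a
  | c :: l, M, a => g2 n q R1 R2 (g2L n q R1 R2 K l) c.1 c.2 M a

theorem g2L_good {k n q R1 R2 : ℕ} (hR : Cst n R1 R2) (K : ℕ → ℕ → Bool) (l : List (ℕ × ℕ)) : ∀ (M a : ℕ),
    GoodF k n M a → g2L n q R1 R2 K l M a = true → ∃ M' a', GoodF k n M' a' ∧ K M' a' = true := by
  induction l with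
  | nil =>
    intro M a hG h
    exact ⟨M, a, hG, h⟩
  | cons c l ih =>
    intro M a hG h
    rw [g2L] at h
    obtain ⟨M', a', h1, h2⟩ := g2_good hR _ _ _ _ _ hG h
    exact ih M' a' h1 h2

/-- A piece of a run: from `mkM w S`, `a` to `mkM w S'`, `a'`. -/
def piG (n q w : ℕ) (S S' : List ℕ) (a a' : ℕ) (NN : List (ℕ × ℕ)) : Bool :=
  frc (r1 n) fun R1 => frc (r2 n) fun R2 => frc (mkM w S) fun M =>
    g2L n q R1 R2 (fun M b => Nat.beq b a' && Nat.beq M (mkM w S')) NN M a

theorem piG_good {k n q w : ℕ} {S S' : List ℕ} {a a' : ℕ} {NN : List (ℕ × ℕ)} (hn : 0 < n)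
    (hG : GoodF k n (mkM w S) a) (h : piG n q w S S' a a' NN = true) : GoodF k n (mkM w S') a' := by
  unfold piG at h
  rw [frc_eq, frc_eq, frc_eq] at h
  obtain ⟨M', b', h1, h2⟩ := g2L_good (cst n hn) _ NN _ _ hG h
  rw [Bool.and_eq_true, Nat.beq_eq, Nat.beq_eq] at h2
  rw [← h2.1, ← h2.2]
  exact h1

end Run7.h636.LT.Ctr
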