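import Pool.Agent.Run7.h636.LT.C.ChkG

/-!
# Project LT (helper636): the checker in the form used for the certificate

The state is one number: the matrix, the set of active vertices (`n` bits) and a label (64 bits; it has no meaning, but
it makes the lowest bits of the states of a run different, which the hash tables of the kernel need).
-/

set_option autoImplicit false
set_option linter.unusedVariables false

namespace Run7.h636.LT.Ctr

open Pool.Agent.Run7.h308.LT.Chk

/-- a state -/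
def en (n c M a : ℕ) : ℕ :=
  Nat.add (Nat.shiftLeft (Nat.add (Nat.shiftLeft M n) a) 64) (Nat.mod c 18446744073709551616)

/-- the matrix of a state -/
abbrev dM (n X : ℕ) : ℕ := Nat.shiftRight X (Nat.add n 64)

/-- the active vertices of a state -/
abbrev dA (n X : ℕ) : ℕ := Nat.mod (Nat.shiftRight X 64) (Nat.pow 2 n)

/-- the condition on `a` -/
abbrev lo (n a : ℕ) : Bool := Nat.beq (Nat.shiftRight a n) 0

theorem lo_lt {n a : ℕ} (h : lo n a = true) : a < 2 ^ n := by
  have h1 : a >>> n = 0 := Nat.eq_of_beq_eq_true h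
  rw [Nat.shiftRight_eq_div_pow] at h1
  exact (Nat.div_eq_zero_iff_lt (by positivity)).1 h1

theorem en_shift (n c M a : ℕ) : (en n c M a) >>> 64 = 2 ^ n * M + a := by
  have h1 : en n c M a = ((M <<< n) + a) <<< 64 + c % 2 ^ 64 := rfl
  have h2 : c % 2 ^ 64 < 2 ^ 64 := Nat.mod_lt _ (by positivity)
  rw [h1, Nat.shiftLeft_eq, Nat.shiftLeft_eq, Nat.shiftRight_eq_div_pow, Nat.mul_comm _ (2 ^ 64),
    Nat.mul_add_div (by positivity), Nat.div_eq_of_lt h2, Nat.add_zero, Nat.mul_comm M]

theorem dM_en {n c M a : ℕ} (h : a < 2 ^ n) : dM n (en n c M a) = M := by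
  have h1 : dM n (en n c M a) = (en n c M a) >>> (64 + n) := by
    rw [Nat.add_comm 64 n]
    rfl
  rw [h1, Nat.shiftRight_add, en_shift, Nat.shiftRight_eq_div_pow, Nat.mul_add_div (by positivity),
    Nat.div_eq_of_lt h, Nat.add_zero]

theorem dA_en {n c M a : ℕ} (h : a < 2 ^ n) : dA n (en n c M a) = a := by
  have h1 : dA n (en n c M a) = ((en n c M a) >>> 64) % 2 ^ n := rfl
  rw [h1, en_shift, Nat.mul_add_mod, Nat.mod_eq_of_lt h]

/-- Executing `f` moves, and then `K`. The moves are the digits of `N` in base `2 ^ (3 q + 2)`: the lowest two bits of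
a digit are the type (`0`: subdivision, `1`: inverse subdivision, otherwise contraction, which is not allowed if `e`),
followed by the vertices `m`, `s`, `t` with `q` bits each (`s` is not used for contractions). -/
def gh (e : Bool) (n q R1 R2 : ℕ) (K : ℕ → Bool) : ℕ → ℕ → ℕ → Bool
  | 0, _, X => K X
  | f + 1, N, X =>
    frc (Nat.mod (Nat.shiftRight N 2) (Nat.pow 2 q)) fun m =>
    frc (Nat.mod (Nat.shiftRight N (Nat.add q 2)) (Nat.pow 2 q)) fun s =>
    frc (Nat.mod (Nat.shiftRight N (Nat.add (Nat.mul 2 q) 2)) (Nat.pow 2 q)) fun t =>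
    cond (Nat.beq (Nat.mod N 4) 0)
      (cS n R2 (dM n X) (dA n X) m s t && (lo n (Nat.lor (dA n X) (Nat.pow 2 m)) &&
        frc (en n N (nwf n R1 R2 (dM n X) (nb n (dM n X) s t) m s t) (Nat.lor (dA n X) (Nat.pow 2 m))) fun X1 =>
        gh e n q R1 R2 K f (Nat.shiftRight N (Nat.add (Nat.mul 3 q) 2)) X1))
      (lo n (Nat.xor (dA n X) (Nat.pow 2 m)) &&
        (cond (Nat.beq (Nat.mod N 4) 1)
          (ckI n (dM n X) (dA n X) (Nat.xor (dA n X) (Nat.pow 2 m)) m s t &&
            frc (en n N (nwf n R1 R2 (dM n X) (row n (dM n X) m) m s t) (Nat.xor (dA n X) (Nat.pow 2 m))) fun X1 =>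
            gh e n q R1 R2 K f (Nat.shiftRight N (Nat.add (Nat.mul 3 q) 2)) X1)
          (cond e false (cC2 n R1 R2 (dM n X) (dA n X) (Nat.xor (dA n X) (Nat.pow 2 m)) m t &&
            frc (en n N (nwc n R1 R2 (dM n X) m t) (Nat.xor (dA n X) (Nat.pow 2 m))) fun X1 =>
            gh e n q R1 R2 K f (Nat.shiftRight N (Nat.add (Nat.mul 3 q) 2)) X1))))

theorem gh_goodF {k : ℕ} {e : Bool} {n q R1 R2 : ℕ} (hR : Cst n R1 R2) (K : ℕ → Bool) (f : ℕ) : ∀ (N X : ℕ),
    GoodF k n (dM n X) (dA n X) → gh e n q R1 R2 K f N X = true → ∃ Y, GoodF k n (dM n Y) (dA n Y) ∧ K Y = true := by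
  induction f with
  | zero =>
    intro N X hG h
    exact ⟨X, hG, h⟩
  | succ f ih =>
    intro N X hG h
    rw [gh] at h
    simp only [frc_eq] at h
    generalize (N.shiftRight 2).mod (Nat.pow 2 q) = m at h
    generalize (N.shiftRight (q.add 2)).mod (Nat.pow 2 q) = s at h
    generalize (N.shiftRight ((Nat.mul 2 q).add 2)).mod (Nat.pow 2 q) = t at h
    cases hc : (N.mod 4).beq 0 with
    | true =>
      rw [hc, cond_true, Bool.and_eq_true, Bool.and_eq_true, cS_eq hR, nwf_eq hR] at h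
      obtain ⟨h1, h2, h3⟩ := h
      have h4 := lo_lt h2
      refine ih _ _ ?_ h3
      rw [dM_en h4, dA_en h4]
      exact sb_good (ckS_sb hG.lt h1) hG
    | false =>
      rw [hc, cond_false, Bool.and_eq_true] at h
      have h4 := lo_lt h.1
      cases hc' : (N.mod 4).beq 1 with
      | true =>
        rw [hc', cond_true, Bool.and_eq_true, nwf_eq hR] at h
        obtain ⟨h1, h2, h3⟩ := ckI_sb hG.lt hG.sy h.2.1
        refine ih _ _ ?_ h.2.2
        rw [dM_en h4, dA_en h4]
        rw [← h1] at hG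
        exact sb_back h2 h3 hG
      | false =>
        cases e with
        | true =>
          rw [hc', cond_false, cond_true] at h
          exact absurd h.2 (by simp)
        | false =>
          rw [hc', cond_false, cond_false, Bool.and_eq_true] at h
          refine ih _ _ ?_ h.2.2
          rw [dM_en h4, dA_en h4]
          exact cC_good hR hG (cC2_cC hR hG.lt h.2.1)

theorem gh_good {k n q R1 R2 : ℕ} (hR : Cst n R1 R2) (K : ℕ → Bool) (f : ℕ) : ∀ (N X : ℕ),
    Good k n (dM n X) (dA n X) → gh true n q R1 R2 K f N X = true → ∃ Y, Good k n (dM n Y) (dA n Y) ∧ K Y = true := by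
  induction f with
  | zero =>
    intro N X hG h
    exact ⟨X, hG, h⟩
  | succ f ih =>
    intro N X hG h
    rw [gh] at h
    simp only [frc_eq] at h
    generalize (N.shiftRight 2).mod (Nat.pow 2 q) = m at h
    generalize (N.shiftRight (q.add 2)).mod (Nat.pow 2 q) = s at h
    generalize (N.shiftRight ((Nat.mul 2 q).add 2)).mod (Nat.pow 2 q) = t at h
    cases hc : (N.mod 4).beq 0 with
    | true =>
      rw [hc, cond_true, Bool.and_eq_true, Bool.and_eq_true, cS_eq hR, nwf_eq hR] at h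
      obtain ⟨h1, h2, h3⟩ := h
      have h4 := lo_lt h2
      refine ih _ _ ?_ h3
      rw [dM_en h4, dA_en h4]
      exact (ckS_sb hG.lt h1).good hG
    | false =>
      rw [hc, cond_false, Bool.and_eq_true] at h
      have h4 := lo_lt h.1
      cases hc' : (N.mod 4).beq 1 with
      | true =>
        rw [hc', cond_true, Bool.and_eq_true, nwf_eq hR] at h
        obtain ⟨h1, h2, h3⟩ := ckI_sb hG.lt hG.sy h.2.1
        refine ih _ _ ?_ h.2.2
        rw [dM_en h4, dA_en h4]
        rw [← h1] at hG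
        exact h2.good_back h3 hG
      | false =>
        rw [hc', cond_false, cond_true] at h
        exact absurd h.2 (by simp)

/-- Executing the chunks of moves of a list: pairs of the number of moves and the number of the moves. -/
def ghL (e : Bool) (n q R1 R2 : ℕ) (K : ℕ → Bool) : List (ℕ × ℕ) → ℕ → Bool
  | [], X => K X
  | c :: l, X => gh e n q R1 R2 (ghL e n q R1 R2 K l) c.1 c.2 X

theorem ghL_goodF {k : ℕ} {e : Bool} {n q R1 R2 : ℕ} (hR : Cst n R1 R2) (K : ℕ → Bool) (l : List (ℕ × ℕ)) :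
    ∀ X : ℕ, GoodF k n (dM n X) (dA n X) → ghL e n q R1 R2 K l X = true →
      ∃ Y, GoodF k n (dM n Y) (dA n Y) ∧ K Y = true := by
  induction l with
  | nil =>
    intro X hG h
    exact ⟨X, hG, h⟩
  | cons c l ih =>
    intro X hG h
    rw [ghL] at h
    obtain ⟨Y, h1, h2⟩ := gh_goodF hR _ _ _ _ hG h
    exact ih Y h1 h2

theorem ghL_good {k n q R1 R2 : ℕ} (hR : Cst n R1 R2) (K : ℕ → Bool) (l : List (ℕ × ℕ)) :
    ∀ X : ℕ, Good k n (dM n X) (dA n X) → ghL true n q R1 R2 K l X = true →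
      ∃ Y, Good k n (dM n Y) (dA n Y) ∧ K Y = true := by
  induction l with
  | nil =>
    intro X hG h
    exact ⟨X, hG, h⟩
  | cons c l ih =>
    intro X hG h
    rw [ghL] at h
    obtain ⟨Y, h1, h2⟩ := gh_good hR _ _ _ _ hG h
    exact ih Y h1 h2

/-- A piece of a run: from `mkM w S`, `a` to `mkM w S'`, `a'`. -/
def piH (e : Bool) (n q w : ℕ) (S S' : List ℕ) (a a' : ℕ) (NN : List (ℕ × ℕ)) : Bool :=
  lo n a && (frc (r1 n) fun R1 => frc (r2 n) fun R2 => frc (en n 0 (mkM w S) a) fun X =>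
    ghL e n q R1 R2 (fun Y => Nat.beq (dA n Y) a' && Nat.beq (dM n Y) (mkM w S')) NN X)

theorem piH_goodF {k n q w : ℕ} {e : Bool} {S S' : List ℕ} {a a' : ℕ} {NN : List (ℕ × ℕ)} (hn : 0 < n)
    (hG : GoodF k n (mkM w S) a) (h : piH e n q w S S' a a' NN = true) : GoodF k n (mkM w S') a' := by
  unfold piH at h
  rw [Bool.and_eq_true, frc_eq, frc_eq, frc_eq] at h
  have h0 := lo_lt h.1
  obtain ⟨Y, h1, h2⟩ := ghL_goodF (cst n hn) _ NN _ (by rw [dM_en h0, dA_en h0]; exact hG) h.2
  rw [Bool.and_eq_true, Nat.beq_eq, Nat.beq_eq] at h2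
  rw [← h2.1, ← h2.2]
  exact h1

theorem piH_good {k n q w : ℕ} {S S' : List ℕ} {a a' : ℕ} {NN : List (ℕ × ℕ)} (hn : 0 < n)
    (hG : Good k n (mkM w S) a) (h : piH true n q w S S' a a' NN = true) : Good k n (mkM w S') a' := by
  unfold piH at h
  rw [Bool.and_eq_true, frc_eq, frc_eq, frc_eq] at h
  have h0 := lo_lt h.1
  obtain ⟨Y, h1, h2⟩ := ghL_good (cst n hn) _ NN _ (by rw [dM_en h0, dA_en h0]; exact hG) h.2
  rw [Bool.and_eq_true, Nat.beq_eq, Nat.beq_eq] at h2
  rw [← h2.1, ← h2.2]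
  exact h1

end Run7.h636.LT.Ctr
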