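import Pool.Agent.Run7.h636.LT.C.Del

/-!
# Project LT (helper636): contraction of edges of flag homology spheres

The contraction of an edge `a b` which is in no induced 4-cycle of the graph of a flag homology sphere is a flag
homology sphere.
-/

set_option autoImplicit false
set_option linter.unusedSectionVars false

noncomputable section

namespace Run7.h636.LT.Ctr

open Module Pool.Agent.W907.SG
open Pool.Agent.W907.SM (lk)

variable {V : Type} [Fintype V] [LinearOrder V] {F : Type} [Field F] {G G' : SimpleGraph V} {A : Set V}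

/-- no induced 4-cycle through the edge `a b` with vertices in `L` -/
def NC (G : SimpleGraph V) (L : Set V) (a b : V) : Prop :=
  ∀ x ∈ L, ∀ y ∈ L, G.Adj a x → ¬ G.Adj b x → x ≠ b → G.Adj b y → ¬ G.Adj a y → y ≠ a → ¬ G.Adj x y

/-- `G'` on the set `A \ {b}` is the contraction of the edge `a b` of `G` into `a`, and there is no induced 4-cycle
through `a b` -/
structure Cn (G G' : SimpleGraph V) (A : Set V) (a b : V) : Prop where
  ha : a ∈ A
  hb : b ∈ A
  hab : G.Adj a b
  c4 : NC G A a b
  cc : ∀ x ∈ A, ∀ y ∈ A, x ≠ a → x ≠ b → y ≠ a → y ≠ b → (G'.Adj x y ↔ G.Adj x y)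
  ac : ∀ x ∈ A, x ≠ a → x ≠ b → (G'.Adj a x ↔ G.Adj a x ∨ G.Adj b x)

/-- the link of the new vertex -/
def DD (G : SimpleGraph V) (L : Set V) (a b : V) : Set V := {x | x ∈ L ∧ x ≠ a ∧ x ≠ b ∧ (G.Adj a x ∨ G.Adj b x)}

section loc

variable {L : Set V} {a b : V} {k : ℕ}

theorem HSF.pos (h : HSF F k G L) (ha : a ∈ L) : 0 < k := by
  obtain ⟨S, h1, -, -, h4⟩ := h.facet {a} (by simp) (by simpa using ha)
  rw [← h4]
  exact Finset.card_pos.2 ⟨a, h1 (by simp)⟩

/-- the union of the two stars is acyclic -/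
theorem stars (ha : a ∈ L) (hb : b ∈ L) (hab : G.Adj a b) (hc : NC G L a b) (i : ℕ) :
    bb F G (insert b (insert a (DD G L a b))) i = 0 := by
  classical
  obtain ⟨C0, hC0⟩ : ∃ C0 : Set V, C0 = insert a (L ∩ G.neighborSet a) := ⟨_, rfl⟩
  have hbC0 : b ∈ C0 := by
    rw [hC0]
    exact Or.inr ⟨hb, hab⟩
  have h0 : ∀ i, bb F G C0 i = 0 := by
    refine bb_cone (u := a) (by rw [hC0]; exact Or.inl rfl) fun w hw hwa => ?_
    rw [hC0] at hw
    rcases hw with hw | hw
    · exact absurd hw hwa
    · exact hw.2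
  have key : ∀ Q : Finset V, (∀ x ∈ Q, x ∈ L ∧ G.Adj b x ∧ ¬ G.Adj a x ∧ x ≠ a) → ∀ i, bb F G (C0 ∪ (Q : Set V)) i = 0 := by
    intro Q
    induction Q using Finset.induction_on with
    | empty =>
      intro _ i
      rw [Finset.coe_empty, Set.union_empty]
      exact h0 i
    | insert x Q hxQ ih =>
      intro hQ i
      have hx := hQ x (Finset.mem_insert_self _ _)
      have hQ' : ∀ x ∈ Q, x ∈ L ∧ G.Adj b x ∧ ¬ G.Adj a x ∧ x ≠ a := fun y hy => hQ y (Finset.mem_insert_of_mem hy)
      have hset : C0 ∪ ((insert x Q : Finset V) : Set V) = insert x (C0 ∪ (Q : Set V)) := by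
        rw [Finset.coe_insert, Set.union_insert]
      rw [hset, bb_dom (u := b) ?_ (Or.inl hbC0) hx.2.1.symm ?_ i, ih hQ' i]
      · rintro (h1 | h1)
        · rw [hC0] at h1
          rcases h1 with h1 | h1
          · exact hx.2.2.2 h1
          · exact hx.2.2.1 h1.2
        · exact hxQ h1
      · rintro w (hw | hw) hxw hwb
        · rw [hC0] at hw
          rcases hw with hw | hw
          · rw [hw]
            exact hab.symm
          · by_contra hbw
            exact hc w hw.1 x hx.1 hw.2 hbw hwb hx.2.1 hx.2.2.1 hx.2.2.2 hxw.symm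
        · exact (hQ' w hw).2.1
  have hset : insert b (insert a (DD G L a b)) =
      C0 ∪ (((Set.toFinite {x | x ∈ L ∧ G.Adj b x ∧ ¬ G.Adj a x ∧ x ≠ a}).toFinset : Finset V) : Set V) := by
    rw [Set.Finite.coe_toFinset, hC0]
    ext x
    constructor
    · rintro (h1 | h1 | ⟨h1, h2, h3, h4⟩)
      · rw [h1]
        exact Or.inl (Or.inr ⟨hb, hab⟩)
      · exact Or.inl (Or.inl h1)
      · by_cases h5 : G.Adj a x
        · exact Or.inl (Or.inr ⟨h1, h5⟩)
        · exact Or.inr ⟨h1, h4.resolve_left h5, h5, h2⟩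
    · rintro ((h1 | h1) | ⟨h1, h2, h3, h4⟩)
      · exact Or.inr (Or.inl h1)
      · by_cases h5 : x = b
        · exact Or.inl h5
        · exact Or.inr (Or.inr ⟨h1.1, (SimpleGraph.Adj.ne h1.2).symm, h5, Or.inl h1.2⟩)
      · by_cases h5 : x = b
        · exact Or.inl h5
        · exact Or.inr (Or.inr ⟨h1, h4, h5, Or.inr h2⟩)
  rw [hset]
  refine key _ (fun x hx => ?_) i
  rw [Set.Finite.mem_toFinset] at hx
  exact hx

theorem DD_bb (h : HSF F (k + 1) G L) (ha : a ∈ L) (hb : b ∈ L) (hab : G.Adj a b) (hc : NC G L a b) (i : ℕ) :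
    bb F G (DD G L a b) i = if i = k then 1 else 0 := by
  classical
  have hla := h.lnk1 ha
  have hlb := h.lnk1 hb
  have h1 : bb F G (insert a (DD G L a b)) i = bb F G (DD G L a b) i := by
    refine bb_add (fun h => h.2.1 rfl) (fun j => ?_) i
    have hset : DD G L a b ∩ G.neighborSet a = ((L \ {a}) ∩ G.neighborSet a) \ {b} := by
      ext x
      constructor
      · rintro ⟨⟨h1, h2, h3, h4⟩, h5⟩
        exact ⟨⟨⟨h1, h2⟩, h5⟩, h3⟩
      · rintro ⟨⟨⟨h1, h2⟩, h5⟩, h3⟩
        exact ⟨⟨h1, h2, h3, Or.inl h5⟩, h5⟩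
    rw [hset]
    exact hla.del ⟨⟨hb, hab.ne.symm⟩, hab⟩ j
  have hnb : b ∉ insert a (DD G L a b) := by
    rintro (h2 | h2)
    · exact hab.ne h2.symm
    · exact h2.2.2.1 rfl
  have hset : insert a (DD G L a b) ∩ G.neighborSet b = (L \ {b}) ∩ G.neighborSet b := by
    ext x
    constructor
    · rintro ⟨h2 | h2, h3⟩
      · rw [h2]
        exact ⟨⟨ha, hab.ne⟩, hab.symm⟩
      · exact ⟨⟨h2.1, h2.2.2.1⟩, h3⟩
    · rintro ⟨⟨h2, h3⟩, h4⟩
      refine ⟨?_, h4⟩
      by_cases h5 : x = a
      · exact Or.inl h5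
      · exact Or.inr ⟨h2, h5, h3, Or.inr h4⟩
  have h2 := bb_vdel (F := F) (G := G) hnb i
  have h3 := bb_lnk (F := F) (G := G) hnb i
  rw [hset, hlb.top, stars ha hb hab hc] at h2 h3
  rw [← h1]
  omega

theorem del2 (h : HSF F k G L) (ha : a ∈ L) (hb : b ∈ L) (hab : G.Adj a b) (i : ℕ) :
    bb F G (L \ {a, b}) i = 0 := by
  obtain ⟨k', rfl⟩ : ∃ k', k = k' + 1 := ⟨k - 1, by have := h.pos hb; omega⟩
  have hlb := h.lnk1 hb
  have h1 : insert b (L \ {a, b}) = L \ {a} := by
    ext x
    constructor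
    · rintro (h1 | ⟨h1, h2⟩)
      · rw [h1]
        exact ⟨hb, hab.ne.symm⟩
      · exact ⟨h1, fun e => h2 (Or.inl e)⟩
    · rintro ⟨h1, h2⟩
      by_cases h3 : x = b
      · exact Or.inl h3
      · refine Or.inr ⟨h1, ?_⟩
        rintro (h4 | h4)
        · exact h2 h4
        · exact h3 h4
  have h2 : (L \ {a, b}) ∩ G.neighborSet b = ((L \ {b}) ∩ G.neighborSet b) \ {a} := by
    ext x
    constructor
    · rintro ⟨⟨h1, h2⟩, h3⟩
      exact ⟨⟨⟨h1, fun e => h2 (Or.inr e)⟩, h3⟩, fun e => h2 (Or.inl e)⟩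
    · rintro ⟨⟨⟨h1, h2⟩, h3⟩, h4⟩
      refine ⟨⟨h1, ?_⟩, h3⟩
      rintro (h5 | h5)
      · exact h4 h5
      · exact h2 h5
  rw [← bb_add (v := b) (fun h => h.2 (Or.inr rfl)) (fun j => ?_) i, h1]
  · exact h.del ha i
  · rw [h2]
    exact hlb.del ⟨⟨ha, hab.ne⟩, hab.symm⟩ j

/-- coning -/
theorem cone_off {D B : Set V} {v : V} (hv : v ∉ B) (hB : ∀ i, bb F G B i = 0) (hD : B ∩ G.neighborSet v = D)
    (hDk : ∀ i, bb F G D i = if i = k then 1 else 0) (i : ℕ) :
    bb F G (insert v B) i = if i = k + 1 then 1 else 0 := by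
  cases i with
  | zero => rw [bb0 (Set.mem_insert v B), if_neg (by omega)]
  | succ i =>
    have h1 := bb_vert (F := F) (G := G) hv i
    have h2 := bb_lnk (F := F) (G := G) hv i
    rw [hD, hB, hDk] at h1 h2
    have h3 : (if i = k then 1 else 0) = if i + 1 = k + 1 then 1 else 0 := by
      congr 1
      rw [eq_iff_iff]
      omega
    omega

end loc

section main

variable {a b : V} {k : ℕ}

theorem Cn.hsf (h : Cn G G' A a b) (hG : HSF F k G A) : HSF F k G' (A \ {b}) := by
  classical
  intro S hS hSA i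
  have hSb : ∀ s ∈ S, s ∈ A ∧ s ≠ b := fun s hs => hSA hs
  by_cases haS : a ∈ S
  · -- the vertex `a` is in `S`
    obtain ⟨S0, hS0⟩ : ∃ S0, S0 = S.erase a := ⟨_, rfl⟩
    have hmem : ∀ s, s ∈ S0 ↔ s ≠ a ∧ s ∈ S := by
      intro s
      rw [hS0, Finset.mem_erase]
    have hcard : S.card = S0.card + 1 := by
      rw [hS0, Finset.card_erase_add_one haS]
    have hcl : G.IsClique (S0 : Set V) := by
      intro x hx y hy hxy
      have hx := (hmem x).1 hx
      have hy := (hmem y).1 hy
      exact (h.cc x (hSb x hx.2).1 y (hSb y hy.2).1 hx.1 (hSb x hx.2).2 hy.1 (hSb y hy.2).2).1 (hS hx.2 hy.2 hxy)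
    have hS0A : (S0 : Set V) ⊆ A := fun s hs => (hSb s ((hmem s).1 hs).2).1
    have hor : ∀ s ∈ S0, G.Adj a s ∨ G.Adj b s := by
      intro s hs
      have hs := (hmem s).1 hs
      exact (h.ac s (hSb s hs.2).1 hs.1 (hSb s hs.2).2).1 (hS haS hs.2 hs.1.symm)
    have hle := hG.card_le hcl hS0A
    obtain ⟨k0, rfl⟩ : ∃ k0, k = k0 + S0.card := ⟨k - S0.card, by omega⟩
    have hL := hG.lnk hcl hS0A
    obtain ⟨L, hLd⟩ : ∃ L, L = A ∩ lk G S0 := ⟨_, rfl⟩
    rw [← hLd] at hL
    have hT : (A \ {b}) ∩ lk G' S = DD G L a b := by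
      rw [hLd]
      ext x
      constructor
      · rintro ⟨⟨h1, h2⟩, h3⟩
        have h4 : x ≠ a := by
          rintro rfl
          exact G'.loopless.irrefl _ (h3 x haS)
        refine ⟨⟨h1, fun u hu => ?_⟩, h4, h2, ?_⟩
        · have hu := (hmem u).1 hu
          exact (h.cc x h1 u (hSb u hu.2).1 h4 h2 hu.1 (hSb u hu.2).2).1 (h3 u hu.2)
        · exact (h.ac x h1 h4 h2).1 (h3 a haS).symm
      · rintro ⟨⟨h1, h2⟩, h3, h4, h5⟩
        refine ⟨⟨h1, h4⟩, fun u hu => ?_⟩
        by_cases hua : u = a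
        · rw [hua]
          exact ((h.ac x h1 h3 h4).2 h5).symm
        · exact (h.cc x h1 u (hSb u hu).1 h3 h4 hua (hSb u hu).2).2 (h2 u ((hmem u).2 ⟨hua, hu⟩))
    have hcongr : bb F G' (DD G L a b) i = bb F G (DD G L a b) i := by
      refine bb_congr (fun u hu v hv => ?_) i
      rw [hLd] at hu hv
      exact h.cc u hu.1.1 v hv.1.1 hu.2.1 hu.2.2.1 hv.2.1 hv.2.2.1
    rw [hT, hcongr, hcard]
    have hNC : NC G L a b := by
      intro x hx y hy
      rw [hLd] at hx hy
      exact h.c4 x hx.1 y hy.1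
    by_cases haL : a ∈ L
    · obtain ⟨k1, rfl⟩ : ∃ k1, k0 = k1 + 1 := ⟨k0 - 1, by have := hL.pos haL; omega⟩
      have hiff : (if i + (S0.card + 1) = k1 + 1 + S0.card then 1 else 0) = if i = k1 then 1 else 0 := by
        congr 1
        rw [eq_iff_iff]
        omega
      rw [hiff]
      by_cases hbL : b ∈ L
      · exact DD_bb hL haL hbL h.hab hNC i
      · have hset : DD G L a b = (L \ {a}) ∩ G.neighborSet a := by
          ext x
          constructor
          · rintro ⟨h1, h2, h3, h4⟩
            refine ⟨⟨h1, h2⟩, ?_⟩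
            rcases h4 with h4 | h4
            · exact h4
            · by_contra hax
              apply hbL
              rw [hLd] at h1 haL ⊢
              refine ⟨h.hb, fun s hs => ?_⟩
              by_contra hbs
              have hs' := (hmem s).1 hs
              exact h.c4 s (hS0A hs) x h1.1 (haL.2 s hs) hbs (hSb s hs'.2).2 h4 hax h2 (h1.2 s hs).symm
          · rintro ⟨⟨h1, h2⟩, h4⟩
            refine ⟨h1, h2, ?_, Or.inl h4⟩
            rintro rfl
            exact hbL h1
        rw [hset]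
        exact (hL.lnk1 haL).top i
    · by_cases hbL : b ∈ L
      · obtain ⟨k1, rfl⟩ : ∃ k1, k0 = k1 + 1 := ⟨k0 - 1, by have := hL.pos hbL; omega⟩
        have hiff : (if i + (S0.card + 1) = k1 + 1 + S0.card then 1 else 0) = if i = k1 then 1 else 0 := by
          congr 1
          rw [eq_iff_iff]
          omega
        rw [hiff]
        have hset : DD G L a b = (L \ {b}) ∩ G.neighborSet b := by
          ext x
          constructor
          · rintro ⟨h1, h2, h3, h4⟩
            refine ⟨⟨h1, h3⟩, ?_⟩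
            rcases h4 with h4 | h4
            · by_contra hbx
              apply haL
              rw [hLd] at h1 hbL ⊢
              refine ⟨h.ha, fun s hs => ?_⟩
              by_contra has
              have hs' := (hmem s).1 hs
              exact h.c4 x h1.1 s (hS0A hs) h4 hbx h3 (hbL.2 s hs) has hs'.1 (h1.2 s hs)
            · exact h4
          · rintro ⟨⟨h1, h2⟩, h4⟩
            refine ⟨h1, ?_, h2, Or.inr h4⟩
            rintro rfl
            exact haL h1
        rw [hset]
        exact (hL.lnk1 hbL).top i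
      · exfalso
        have h1 : ∃ s ∈ S0, ¬ G.Adj a s := by
          by_contra hn
          push Not at hn
          exact haL (by rw [hLd]; exact ⟨h.ha, hn⟩)
        have h2 : ∃ s ∈ S0, ¬ G.Adj b s := by
          by_contra hn
          push Not at hn
          exact hbL (by rw [hLd]; exact ⟨h.hb, hn⟩)
        obtain ⟨s1, hs1, h1⟩ := h1
        obtain ⟨s2, hs2, h2⟩ := h2
        have h3 := (hor s1 hs1).resolve_left h1
        have h4 := (hor s2 hs2).resolve_right h2
        have hne : s2 ≠ s1 := by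
          rintro rfl
          exact h1 h4
        exact h.c4 s2 (hS0A hs2) s1 (hS0A hs1) h4 h2 (hSb s2 ((hmem s2).1 hs2).2).2 h3 h1 ((hmem s1).1 hs1).1
          (hcl hs2 hs1 hne)
  · -- the vertex `a` is not in `S`
    have hSa : ∀ s ∈ S, s ≠ a := fun s hs e => haS (e ▸ hs)
    have hcl : G.IsClique (S : Set V) := by
      intro x hx y hy hxy
      exact (h.cc x (hSb x hx).1 y (hSb y hy).1 (hSa x hx) (hSb x hx).2 (hSa y hy) (hSb y hy).2).1 (hS hx hy hxy)
    have hSA' : (S : Set V) ⊆ A := fun s hs => (hSb s hs).1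
    have hle := hG.card_le hcl hSA'
    obtain ⟨k0, rfl⟩ : ∃ k0, k = k0 + S.card := ⟨k - S.card, by omega⟩
    have hL := hG.lnk hcl hSA'
    obtain ⟨L, hLd⟩ : ∃ L, L = A ∩ lk G S := ⟨_, rfl⟩
    rw [← hLd] at hL
    have hx : ∀ x, x ≠ a → x ≠ b → (x ∈ (A \ {b}) ∩ lk G' S ↔ x ∈ L) := by
      intro x h1 h2
      rw [hLd]
      constructor
      · rintro ⟨⟨h3, -⟩, h4⟩
        exact ⟨h3, fun u hu => (h.cc x h3 u (hSb u hu).1 h1 h2 (hSa u hu) (hSb u hu).2).1 (h4 u hu)⟩
      · rintro ⟨h3, h4⟩
        exact ⟨⟨h3, h2⟩, fun u hu => (h.cc x h3 u (hSb u hu).1 h1 h2 (hSa u hu) (hSb u hu).2).2 (h4 u hu)⟩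
    have hax : a ∈ (A \ {b}) ∩ lk G' S ↔ ∀ s ∈ S, G.Adj a s ∨ G.Adj b s := by
      constructor
      · rintro ⟨-, h4⟩ s hs
        exact (h.ac s (hSb s hs).1 (hSa s hs) (hSb s hs).2).1 (h4 s hs)
      · intro h4
        exact ⟨⟨h.ha, h.hab.ne⟩, fun s hs => (h.ac s (hSb s hs).1 (hSa s hs) (hSb s hs).2).2 (h4 s hs)⟩
    have hbx : b ∉ (A \ {b}) ∩ lk G' S := fun h => h.1.2 rfl
    have hiff : (if i + S.card = k0 + S.card then 1 else 0) = if i = k0 then 1 else 0 := by
      congr 1
      rw [eq_iff_iff]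
      omega
    rw [hiff]
    have hNC : NC G L a b := by
      intro x hx y hy
      rw [hLd] at hx hy
      exact h.c4 x hx.1 y hy.1
    have hLA : ∀ x ∈ L, x ∈ A := by
      intro x hx
      rw [hLd] at hx
      exact hx.1
    by_cases haL : a ∈ L
    · by_cases hbL : b ∈ L
      · obtain ⟨k1, rfl⟩ : ∃ k1, k0 = k1 + 1 := ⟨k0 - 1, by have := hL.pos haL; omega⟩
        have hT : (A \ {b}) ∩ lk G' S = insert a (L \ {a, b}) := by
          ext x
          by_cases h1 : x = a
          · rw [h1]
            refine ⟨fun _ => Or.inl rfl, fun _ => hax.2 fun s hs => ?_⟩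
            rw [hLd] at haL
            exact Or.inl (haL.2 s hs)
          · by_cases h2 : x = b
            · rw [h2]
              refine ⟨fun h => absurd h hbx, ?_⟩
              rintro (h3 | h3)
              · exact absurd h3 h.hab.ne.symm
              · exact absurd (Or.inr rfl) h3.2
            · rw [hx x h1 h2]
              refine ⟨fun h3 => Or.inr ⟨h3, ?_⟩, ?_⟩
              · rintro (h4 | h4)
                · exact h1 h4
                · exact h2 h4
              · rintro (h3 | h3)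
                · exact absurd h3 h1
                · exact h3.1
        rw [hT]
        refine cone_off (D := DD G L a b) (fun h => h.2 (Or.inl rfl)) (fun j => ?_) ?_ (fun j => ?_) i
        · rw [bb_congr (H := G) (fun u hu v hv => ?_) j, del2 hL haL hbL h.hab j]
          exact h.cc u (hLA u hu.1) v (hLA v hv.1) (fun e => hu.2 (Or.inl e)) (fun e => hu.2 (Or.inr e))
            (fun e => hv.2 (Or.inl e)) (fun e => hv.2 (Or.inr e))
        · ext x
          constructor
          · rintro ⟨⟨h1, h2⟩, h3⟩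
            have h4 : x ≠ a := fun e => h2 (Or.inl e)
            have h5 : x ≠ b := fun e => h2 (Or.inr e)
            exact ⟨h1, h4, h5, (h.ac x (hLA x h1) h4 h5).1 h3⟩
          · rintro ⟨h1, h2, h3, h4⟩
            refine ⟨⟨h1, ?_⟩, (h.ac x (hLA x h1) h2 h3).2 h4⟩
            rintro (h5 | h5)
            · exact h2 h5
            · exact h3 h5
        · rw [bb_congr (H := G) (fun u hu v hv => ?_) j, DD_bb hL haL hbL h.hab hNC j]
          exact h.cc u (hLA u hu.1) v (hLA v hv.1) hu.2.1 hu.2.2.1 hv.2.1 hv.2.2.1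
      · have hT : (A \ {b}) ∩ lk G' S = L := by
          ext x
          by_cases h1 : x = a
          · rw [h1]
            refine ⟨fun _ => haL, fun _ => hax.2 fun s hs => ?_⟩
            rw [hLd] at haL
            exact Or.inl (haL.2 s hs)
          · by_cases h2 : x = b
            · rw [h2]
              exact ⟨fun h => absurd h hbx, fun h => absurd h hbL⟩
            · exact hx x h1 h2
        have key : ∀ x ∈ L, x ≠ a → (G'.Adj a x ↔ G.Adj a x) := by
          intro x hxL hxa
          have hxb : x ≠ b := fun e => hbL (e ▸ hxL)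
          rw [h.ac x (hLA x hxL) hxa hxb]
          refine ⟨?_, Or.inl⟩
          rintro (h1 | h1)
          · exact h1
          · by_contra hax
            apply hbL
            rw [hLd] at hxL haL ⊢
            refine ⟨h.hb, fun s hs => ?_⟩
            by_contra hbs
            exact h.c4 s (hSb s hs).1 x hxL.1 (haL.2 s hs) hbs (hSb s hs).2 h1 hax hxa (hxL.2 s hs).symm
        rw [hT, bb_congr (H := G) (fun u hu v hv => ?_) i, hL.top]
        have hub : u ≠ b := fun e => hbL (e ▸ hu)
        have hvb : v ≠ b := fun e => hbL (e ▸ hv)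
        by_cases hua : u = a
        · by_cases hva : v = a
          · rw [hua, hva]
            exact ⟨fun h => absurd h (G'.loopless.irrefl _), fun h => absurd h (G.loopless.irrefl _)⟩
          · rw [hua]
            exact key v hv hva
        · by_cases hva : v = a
          · rw [hva, G'.adj_comm, G.adj_comm]
            exact key u hu hua
          · exact h.cc u (hLA u hu) v (hLA v hv) hua hub hva hvb
    · by_cases hbL : b ∈ L
      · obtain ⟨k1, rfl⟩ : ∃ k1, k0 = k1 + 1 := ⟨k0 - 1, by have := hL.pos hbL; omega⟩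
        have hT : (A \ {b}) ∩ lk G' S = insert a (L \ {b}) := by
          ext x
          by_cases h1 : x = a
          · rw [h1]
            refine ⟨fun _ => Or.inl rfl, fun _ => hax.2 fun s hs => ?_⟩
            rw [hLd] at hbL
            exact Or.inr (hbL.2 s hs)
          · by_cases h2 : x = b
            · rw [h2]
              refine ⟨fun h => absurd h hbx, ?_⟩
              rintro (h3 | h3)
              · exact absurd h3 h.hab.ne.symm
              · exact absurd rfl h3.2
            · rw [hx x h1 h2]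
              refine ⟨fun h3 => Or.inr ⟨h3, h2⟩, ?_⟩
              rintro (h3 | h3)
              · exact absurd h3 h1
              · exact h3.1
        have hLa : ∀ x ∈ L, x ≠ a := fun x hx e => haL (e ▸ hx)
        rw [hT]
        refine cone_off (D := (L \ {b}) ∩ G.neighborSet b) (fun h => haL h.1) (fun j => ?_) ?_ (fun j => ?_) i
        · rw [bb_congr (H := G) (fun u hu v hv => ?_) j, hL.del hbL j]
          exact h.cc u (hLA u hu.1) v (hLA v hv.1) (hLa u hu.1) hu.2 (hLa v hv.1) hv.2
        · ext x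
          constructor
          · rintro ⟨⟨h1, h2⟩, h3⟩
            refine ⟨⟨h1, h2⟩, ?_⟩
            rcases (h.ac x (hLA x h1) (hLa x h1) h2).1 h3 with h4 | h4
            · by_contra hbx
              apply haL
              rw [hLd] at h1 hbL ⊢
              refine ⟨h.ha, fun s hs => ?_⟩
              by_contra has
              exact h.c4 x h1.1 s (hSb s hs).1 h4 hbx h2 (hbL.2 s hs) has (hSa s hs) (h1.2 s hs)
            · exact h4
          · rintro ⟨⟨h1, h2⟩, h3⟩
            exact ⟨⟨h1, h2⟩, (h.ac x (hLA x h1) (hLa x h1) h2).2 (Or.inr h3)⟩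
        · rw [bb_congr (H := G) (fun u hu v hv => ?_) j, (hL.lnk1 hbL).top j]
          exact h.cc u (hLA u hu.1.1) v (hLA v hv.1.1) (hLa u hu.1.1) hu.1.2 (hLa v hv.1.1) hv.1.2
      · have hna : ¬ ∀ s ∈ S, G.Adj a s ∨ G.Adj b s := by
          intro hor
          have h1 : ∃ s ∈ S, ¬ G.Adj a s := by
            by_contra hn
            push Not at hn
            exact haL (by rw [hLd]; exact ⟨h.ha, hn⟩)
          have h2 : ∃ s ∈ S, ¬ G.Adj b s := by
            by_contra hn
            push Not at hn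
            exact hbL (by rw [hLd]; exact ⟨h.hb, hn⟩)
          obtain ⟨s1, hs1, h1⟩ := h1
          obtain ⟨s2, hs2, h2⟩ := h2
          have h3 := (hor s1 hs1).resolve_left h1
          have h4 := (hor s2 hs2).resolve_right h2
          have hne : s2 ≠ s1 := by
            rintro rfl
            exact h1 h4
          exact h.c4 s2 (hSb s2 hs2).1 s1 (hSb s1 hs1).1 h4 h2 (hSb s2 hs2).2 h3 h1 (hSa s1 hs1)
            (hcl hs2 hs1 hne)
        have hT : (A \ {b}) ∩ lk G' S = L := by
          ext x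
          by_cases h1 : x = a
          · rw [h1]
            exact ⟨fun h => absurd (hax.1 h) hna, fun h => absurd h haL⟩
          · by_cases h2 : x = b
            · rw [h2]
              exact ⟨fun h => absurd h hbx, fun h => absurd h hbL⟩
            · exact hx x h1 h2
        rw [hT, bb_congr (H := G) (fun u hu v hv => ?_) i, hL.top]
        exact h.cc u (hLA u hu) v (hLA v hv) (fun e => haL (e ▸ hu)) (fun e => hbL (e ▸ hu))
          (fun e => haL (e ▸ hv)) (fun e => hbL (e ▸ hv))

end main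

end Run7.h636.LT.Ctr
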