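/-!
# Project LT (helper636): the checker, without imports

Most definitions are copies of those of `Chk.lean`, `ChkF.lean`, `Prd.lean`, `ChkG.lean` and `Cut.lean` (see
`CoreEq.lean`); so the files with the computations need no library.
-/

set_option autoImplicit false
set_option linter.unusedVariables false

noncomputable section

namespace Run7.h636.LT.Core

/-- evaluation of the argument -/
def frc (x : Nat) (k : Nat → Bool) : Bool := Nat.rec (k 0) (fun y _ => k (Nat.succ y)) x

/-- the constants, computed -/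
def r1 (n : Nat) : Nat := Nat.div (Nat.sub (Nat.pow 2 (Nat.mul n (Nat.succ n))) 1) (Nat.sub (Nat.pow 2 n) 1)

/-- the constants, computed -/
def r2 (n : Nat) : Nat :=
  Nat.div (Nat.sub (Nat.pow 2 (Nat.mul (Nat.succ n) (Nat.succ n))) 1) (Nat.sub (Nat.pow 2 (Nat.succ n)) 1)

/-- The number of a list of blocks of `w` bits. -/
def mkM (w : Nat) : List Nat → Nat
  | [] => 0
  | r :: l => Nat.add r (Nat.shiftLeft (mkM w l) w)

/-- the row of the vertex `s` -/
def row (n M s : Nat) : Nat := Nat.mod (Nat.shiftRight M (Nat.mul s (n + 1))) (Nat.pow 2 n)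

/-- a fast version of `testBit` -/
def bt (x i : Nat) : Bool := Nat.beq (Nat.mod (Nat.shiftRight x i) 2) 1

/-- the neighbours of the new vertex -/
def nb (n M s t : Nat) : Nat := Nat.lor (Nat.lor (Nat.land (row n M s) (row n M t)) (Nat.pow 2 s)) (Nat.pow 2 t)

/-- toggling the pairs `(m, v)`, `v` in `L` -/
def tg (n R1 R2 M L m : Nat) : Nat :=
  Nat.xor (Nat.xor M (Nat.shiftLeft L (Nat.mul m (n + 1)))) (Nat.shiftLeft (Nat.land (Nat.mul L R1) R2) m)

/-- the new matrix of a subdivision -/
def nwg (n R1 R2 M L m s t : Nat) : Nat :=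
  Nat.xor (Nat.xor (tg n R1 R2 M L m) (Nat.pow 2 (Nat.add (Nat.mul t (n + 1)) s)))
    (Nat.pow 2 (Nat.add (Nat.mul s (n + 1)) t))

/-- the conditions for a subdivision -/
def cS (n R2 M a m s t : Nat) : Bool :=
  Nat.ble (Nat.succ m) n && !bt a m && bt a s && bt a t && !Nat.beq s t && bt (row n M s) t &&
    Nat.beq (row n M m) 0 && Nat.beq (Nat.land (Nat.shiftRight M m) R2) 0

/-- the conditions for an inverse subdivision -/
def ckI (n M a b m s t : Nat) : Bool :=
  Nat.beq (Nat.lor b (Nat.pow 2 m)) a && !bt b m && bt b s && bt b t && !Nat.beq s t &&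
    !bt (row n M s) t && bt (row n M m) s && bt (row n M m) t &&
    Nat.beq (Nat.land (row n M s) (row n M t))
      (Nat.lor (Nat.xor (Nat.xor (row n M m) (Nat.pow 2 s)) (Nat.pow 2 t)) (Nat.pow 2 m))

/-- the neighbours of `m` which are not neighbours of `t`, without `t` -/
def ou (n M m t : Nat) : Nat := Nat.xor (Nat.xor (row n M m) (Nat.land (row n M m) (row n M t))) (Nat.pow 2 t)

/-- all the rows of the vertices in `P` avoid `Q` -/
def av2 (n R1 R2 M Q P : Nat) : Bool :=
  Nat.beq (Nat.land M (Nat.mul (Nat.land (Nat.mul P R1) R2) Q)) 0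

/-- the conditions for the contraction of `m` into `t`; `b` is the new set of active vertices -/
def cC2 (n R1 R2 M a b m t : Nat) : Bool :=
  Nat.beq (Nat.lor b (Nat.pow 2 m)) a && !bt b m && bt b t && bt (row n M m) t && bt (row n M t) m &&
    !bt (row n M t) t && !bt (row n M m) m && av2 n R1 R2 M (ou n M t m) (ou n M m t)

/-- the new matrix of a contraction -/
def nwc (n R1 R2 M m t : Nat) : Nat := tg n R1 R2 (tg n R1 R2 M (row n M m) m) (ou n M m t) t

/-- Executing `f` moves, and then `K`. The moves are the digits of `N` in base `2 ^ (3 q + 2)`: the lowest two bits of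
a digit are the type (`0`: subdivision, `1`: inverse subdivision, otherwise contraction, which is not allowed if `e`),
followed by the vertices `m`, `s`, `t` with `q` bits each (`s` is not used for contractions). -/
def gj (e : Bool) (n q R1 R2 : Nat) (K : Nat → Nat → Bool) : Nat → Nat → Nat → Nat → Bool
  | 0, _, M, a => K M a
  | f + 1, N, M, a =>
    frc (Nat.mod (Nat.shiftRight N 2) (Nat.pow 2 q)) fun m =>
    frc (Nat.mod (Nat.shiftRight N (Nat.add q 2)) (Nat.pow 2 q)) fun s =>
    frc (Nat.mod (Nat.shiftRight N (Nat.add (Nat.mul 2 q) 2)) (Nat.pow 2 q)) fun t =>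
    cond (Nat.beq (Nat.mod N 4) 0)
      (cS n R2 M a m s t &&
        gj e n q R1 R2 K f (Nat.shiftRight N (Nat.add (Nat.mul 3 q) 2)) (nwg n R1 R2 M (nb n M s t) m s t)
          (Nat.lor a (Nat.pow 2 m)))
      (cond (Nat.beq (Nat.mod N 4) 1)
        (ckI n M a (Nat.xor a (Nat.pow 2 m)) m s t &&
          gj e n q R1 R2 K f (Nat.shiftRight N (Nat.add (Nat.mul 3 q) 2)) (nwg n R1 R2 M (row n M m) m s t)
            (Nat.xor a (Nat.pow 2 m)))
        (cond e false (cC2 n R1 R2 M a (Nat.xor a (Nat.pow 2 m)) m t &&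
          gj e n q R1 R2 K f (Nat.shiftRight N (Nat.add (Nat.mul 3 q) 2)) (nwc n R1 R2 M m t)
            (Nat.xor a (Nat.pow 2 m)))))

/-- Executing the chunks of moves of a list: pairs of the number of moves and the number of the moves. -/
def gjL (e : Bool) (n q R1 R2 : Nat) (K : Nat → Nat → Bool) : List (Nat × Nat) → Nat → Nat → Bool
  | [], M, a => K M a
  | c :: l, M, a => gj e n q R1 R2 (gjL e n q R1 R2 K l) c.1 c.2 M a

/-- A piece of a run: from `mkM w S`, `a` to `mkM w S'`, `a'`. -/
def piJ (e : Bool) (n q w : Nat) (S S' : List Nat) (a a' : Nat) (NN : List (Nat × Nat)) : Bool :=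
  frc (r1 n) fun R1 => frc (r2 n) fun R2 =>
    gjL e n q R1 R2 (fun M b => Nat.beq b a' && Nat.beq M (mkM w S')) NN (mkM w S) a

end Run7.h636.LT.Core
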