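import Pool.Agent.Run7.h636.LT.C.Core
import Pool.Agent.Run7.h636.LT.C.ChkG

/-!
# Project LT (helper636): correctness of the checker of `Core.lean`
-/

set_option autoImplicit false

namespace Run7.h636.LT.Ctr

open Pool.Agent.Run7.h308.LT.Chk

theorem mkM_core (w : ℕ) (S : List ℕ) : Core.mkM w S = mkM w S := by
  induction S with
  | nil => rfl
  | cons r S ih => rw [Core.mkM, mkM, ih]

theorem sp_pow {n s : ℕ} (hs : s < n) : sp n (2 ^ s) = 2 ^ (s * (n + 1)) := by
  have hn : 0 < n := by omega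
  refine Nat.eq_of_testBit_eq fun i => ?_
  rw [testBit_sp hn (Nat.pow_lt_pow_right (by norm_num) hs), Nat.testBit_two_pow, Nat.testBit_two_pow,
    ← Bool.decide_and]
  refine decide_eq_decide.2 ?_
  constructor
  · rintro ⟨h1, h2⟩
    have h3 := Nat.div_add_mod i (n + 1)
    rw [h1, Nat.add_zero, ← h2, Nat.mul_comm] at h3
    exact h3
  · intro h
    subst h
    exact ⟨Nat.mul_mod_left _ _, (Nat.mul_div_cancel _ (by omega)).symm⟩

theorem nwg_core {n R1 R2 M L m s t : ℕ} (hR : Cst n R1 R2) (hs : s < n) :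
    Core.nwg n R1 R2 M L m s t = nwf n R1 R2 M L m s t := by
  have h1 : Core.nwg n R1 R2 M L m s t =
      (tg n R1 R2 M L m ^^^ 2 ^ (t * (n + 1) + s)) ^^^ 2 ^ (s * (n + 1) + t) := rfl
  have h2 : nwf n R1 R2 M L m s t =
      (tg n R1 R2 M L m ^^^ (2 ^ s <<< (t * (n + 1)))) ^^^ ((2 ^ s * R1) &&& R2) <<< t := rfl
  have h3 : (2 ^ s * R1) &&& R2 = sp n (2 ^ s) := by
    rw [hR.e1, hR.e2]
    rfl
  rw [h1, h2, h3, sp_pow hs, Nat.shiftLeft_eq, Nat.shiftLeft_eq, ← pow_add, ← pow_add, Nat.add_comm s]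

theorem gj_goodF {k : ℕ} {e : Bool} {n q R1 R2 : ℕ} (hR : Cst n R1 R2) (K : ℕ → ℕ → Bool) (f : ℕ) :
    ∀ (N M a : ℕ), GoodF k n M a → Core.gj e n q R1 R2 K f N M a = true →
      ∃ M' a', GoodF k n M' a' ∧ K M' a' = true := by
  have e1 : Core.frc = frc := rfl
  have e2 : Core.cS = cS := rfl
  have e3 : Core.ckI = ckI := rfl
  have e4 : Core.cC2 = cC2 := rfl
  have e5 : Core.row = row := rfl
  have e6 : Core.nb = nb := rfl
  have e7 : Core.nwc = nwc := rfl
  induction f with
  | zero =>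
    intro N M a hG h
    exact ⟨M, a, hG, h⟩
  | succ f ih =>
    intro N M a hG h
    rw [Core.gj] at h
    simp only [e1, e2, e3, e4, e5, e6, e7, frc_eq] at h
    generalize (N.shiftRight 2).mod (Nat.pow 2 q) = m at h
    generalize (N.shiftRight (q.add 2)).mod (Nat.pow 2 q) = s at h
    generalize (N.shiftRight ((Nat.mul 2 q).add 2)).mod (Nat.pow 2 q) = t at h
    cases hc : (N.mod 4).beq 0 with
    | true =>
      rw [hc, cond_true, Bool.and_eq_true, cS_eq hR] at h
      have h1 := ckS_sb hG.lt h.1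
      have h2 := h.2
      rw [nwg_core hR (hG.lt s h1.hs), nwf_eq hR] at h2
      exact ih _ _ _ (sb_good h1 hG) h2
    | false =>
      rw [hc, cond_false] at h
      cases hc' : (N.mod 4).beq 1 with
      | true =>
        rw [hc', cond_true, Bool.and_eq_true] at h
        obtain ⟨h1, h2, h3⟩ := ckI_sb hG.lt hG.sy h.1
        have h4 := h.2
        rw [nwg_core hR (hG.lt s (by rw [← h1, Nat.testBit_or, h2.hs, Bool.true_or])), nwf_eq hR] at h4
        rw [← h1] at hG
        exact ih _ _ _ (sb_back h2 h3 hG) h4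
      | false =>
        cases e with
        | true =>
          rw [hc', cond_false, cond_true] at h
          exact absurd h (by simp)
        | false =>
          rw [hc', cond_false, cond_false, Bool.and_eq_true] at h
          exact ih _ _ _ (cC_good hR hG (cC2_cC hR hG.lt h.1)) h.2

theorem gj_good {k n q R1 R2 : ℕ} (hR : Cst n R1 R2) (K : ℕ → ℕ → Bool) (f : ℕ) :
    ∀ (N M a : ℕ), Good k n M a → Core.gj true n q R1 R2 K f N M a = true →
      ∃ M' a', Good k n M' a' ∧ K M' a' = true := by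
  have e1 : Core.frc = frc := rfl
  have e2 : Core.cS = cS := rfl
  have e3 : Core.ckI = ckI := rfl
  have e4 : Core.cC2 = cC2 := rfl
  have e5 : Core.row = row := rfl
  have e6 : Core.nb = nb := rfl
  have e7 : Core.nwc = nwc := rfl
  induction f with
  | zero =>
    intro N M a hG h
    exact ⟨M, a, hG, h⟩
  | succ f ih =>
    intro N M a hG h
    rw [Core.gj] at h
    simp only [e1, e2, e3, e4, e5, e6, e7, frc_eq] at h
    generalize (N.shiftRight 2).mod (Nat.pow 2 q) = m at h
    generalize (N.shiftRight (q.add 2)).mod (Nat.pow 2 q) = s at h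
    generalize (N.shiftRight ((Nat.mul 2 q).add 2)).mod (Nat.pow 2 q) = t at h
    cases hc : (N.mod 4).beq 0 with
    | true =>
      rw [hc, cond_true, Bool.and_eq_true, cS_eq hR] at h
      have h1 := ckS_sb hG.lt h.1
      have h2 := h.2
      rw [nwg_core hR (hG.lt s h1.hs), nwf_eq hR] at h2
      exact ih _ _ _ (h1.good hG) h2
    | false =>
      rw [hc, cond_false] at h
      cases hc' : (N.mod 4).beq 1 with
      | true =>
        rw [hc', cond_true, Bool.and_eq_true] at h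
        obtain ⟨h1, h2, h3⟩ := ckI_sb hG.lt hG.sy h.1
        have h4 := h.2
        rw [nwg_core hR (hG.lt s (by rw [← h1, Nat.testBit_or, h2.hs, Bool.true_or])), nwf_eq hR] at h4
        rw [← h1] at hG
        exact ih _ _ _ (h2.good_back h3 hG) h4
      | false =>
        rw [hc', cond_false, cond_true] at h
        exact absurd h (by simp)

theorem gjL_goodF {k : ℕ} {e : Bool} {n q R1 R2 : ℕ} (hR : Cst n R1 R2) (K : ℕ → ℕ → Bool) (l : List (ℕ × ℕ)) :
    ∀ (M a : ℕ), GoodF k n M a → Core.gjL e n q R1 R2 K l M a = true → ∃ M' a', GoodF k n M' a' ∧ K M' a' = true := by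
  induction l with
  | nil =>
    intro M a hG h
    exact ⟨M, a, hG, h⟩
  | cons c l ih =>
    intro M a hG h
    rw [Core.gjL] at h
    obtain ⟨M', a', h1, h2⟩ := gj_goodF hR _ _ _ _ _ hG h
    exact ih M' a' h1 h2

theorem gjL_good {k n q R1 R2 : ℕ} (hR : Cst n R1 R2) (K : ℕ → ℕ → Bool) (l : List (ℕ × ℕ)) :
    ∀ (M a : ℕ), Good k n M a → Core.gjL true n q R1 R2 K l M a = true → ∃ M' a', Good k n M' a' ∧ K M' a' = true := by
  induction l with
  | nil =>
    intro M a hG h
    exact ⟨M, a, hG, h⟩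
  | cons c l ih =>
    intro M a hG h
    rw [Core.gjL] at h
    obtain ⟨M', a', h1, h2⟩ := gj_good hR _ _ _ _ _ hG h
    exact ih M' a' h1 h2

theorem piC_goodF {k n q w : ℕ} {e : Bool} {S S' : List ℕ} {a a' : ℕ} {NN : List (ℕ × ℕ)} (hn : 0 < n)
    (hG : GoodF k n (mkM w S) a) (h : Core.piJ e n q w S S' a a' NN = true) : GoodF k n (mkM w S') a' := by
  have e1 : Core.frc = frc := rfl
  have e2 : Core.r1 = r1 := rfl
  have e3 : Core.r2 = r2 := rfl
  unfold Core.piJ at h
  rw [e1, e2, e3, frc_eq, frc_eq, mkM_core, mkM_core] at h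
  obtain ⟨M', b', h1, h2⟩ := gjL_goodF (cst n hn) _ NN _ _ hG h
  rw [Bool.and_eq_true, Nat.beq_eq, Nat.beq_eq] at h2
  rw [← h2.1, ← h2.2]
  exact h1

theorem piC_good {k n q w : ℕ} {S S' : List ℕ} {a a' : ℕ} {NN : List (ℕ × ℕ)} (hn : 0 < n)
    (hG : Good k n (mkM w S) a) (h : Core.piJ true n q w S S' a a' NN = true) : Good k n (mkM w S') a' := by
  have e1 : Core.frc = frc := rfl
  have e2 : Core.r1 = r1 := rfl
  have e3 : Core.r2 = r2 := rfl
  unfold Core.piJ at h
  rw [e1, e2, e3, frc_eq, frc_eq, mkM_core, mkM_core] at h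
  obtain ⟨M', b', h1, h2⟩ := gjL_good (cst n hn) _ NN _ _ hG h
  rw [Bool.and_eq_true, Nat.beq_eq, Nat.beq_eq] at h2
  rw [← h2.1, ← h2.2]
  exact h1

end Run7.h636.LT.Ctr
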