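import Pool.Agent.Run7.h636.LT.C.Bas

/-!
# Project LT (helper636): a flag homology sphere minus a vertex is acyclic
-/

set_option autoImplicit false
set_option linter.unusedSectionVars false

noncomputable section

namespace Run7.h636.LT.Ctr

open Module Pool.Agent.W907.SG
open Pool.Agent.W907.SM (lk)
open Pool.Agent.W347.SGV

variable {V : Type} [Fintype V] [LinearOrder V] {F : Type} [Field F] {G H : SimpleGraph V} {A : Set V}

/-- the trivial coefficients -/
abbrev rr (V F : Type) [Field F] : V → F →ₗ[F] F := fun _ => - LinearMap.id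

/-- homology spheres over `F` on a set of vertices -/
def HSF (F : Type) [Field F] (k : ℕ) (G : SimpleGraph V) (A : Set V) : Prop :=
  ∀ S : Finset V, G.IsClique (S : Set V) → (S : Set V) ⊆ A → ∀ i : ℕ,
    bb F G (A ∩ lk G S) i = if i + S.card = k then 1 else 0

theorem bb0 {v : V} (hv : v ∈ A) : bb F G A 0 = 0 := by
  classical
  have key : ∀ Q : Finset V, bb F G (insert v (Q : Set V)) 0 = 0 := by
    intro Q
    induction Q using Finset.induction_on with
    | empty =>
      exact bb_cone (u := v) (Set.mem_insert _ _) (fun w hw hwv => absurd (by simpa using hw) hwv) 0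
    | insert a Q _ ih =>
      by_cases ha : a ∈ insert v (Q : Set V)
      · rw [Finset.coe_insert, Set.insert_comm, Set.insert_eq_of_mem ha, ih]
      · have h1 := bb_vert0 (F := F) (G := G) ha
        rw [ih] at h1
        rw [Finset.coe_insert, Set.insert_comm]
        omega
  have h1 := key (A.toFinite.toFinset)
  rwa [Set.Finite.coe_toFinset, Set.insert_eq_of_mem hv] at h1

theorem mem_KK_id {G : SimpleGraph V} {A : Set V} {i : ℕ} {c : Finset V → F} :
    c ∈ KK G (fun _ => (- LinearMap.id : F →ₗ[F] F)) A ∅ i ↔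
      ∀ T : Finset V, ¬ (G.IsClique (T : Set V) ∧ (T : Set V) ⊆ A ∧ T.card = i) → c T = 0 := by
  rw [mem_KK]
  exact and_iff_left (fun T t _ => rfl)

theorem bb_empty (F : Type) [Field F] (G : SimpleGraph V) (i : ℕ) : bb F G (∅ : Set V) i = if i = 0 then 1 else 0 := by
  classical
  have hK : ∀ i, i ≠ 0 → KK G (fun _ => (- LinearMap.id : F →ₗ[F] F)) (∅ : Set V) ∅ i = ⊥ := by
    intro i hi
    rw [eq_bot_iff]
    intro c hc
    rw [Submodule.mem_bot]
    funext T
    refine mem_KK_id.mp hc T ?_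
    rintro ⟨_, h2, h3⟩
    have : T = ∅ := by
      rw [← Finset.coe_eq_empty]
      exact Set.subset_empty_iff.mp h2
    rw [this, Finset.card_empty] at h3
    exact hi h3.symm
  split_ifs with hi
  · subst hi
    have hB : BB G (fun _ => (- LinearMap.id : F →ₗ[F] F)) (∅ : Set V) ∅ 0 = ⊥ := by
      unfold BB
      rw [hK 1 one_ne_zero, Submodule.map_bot]
    have hZ : ZZ G (fun _ => (- LinearMap.id : F →ₗ[F] F)) (∅ : Set V) ∅ 0 =
        Submodule.span F {fun T => if T = ∅ then 1 else 0} := by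
      refine le_antisymm ?_ ?_
      · rintro c ⟨hc, _⟩
        rw [Submodule.mem_span_singleton]
        refine ⟨c ∅, ?_⟩
        funext T
        simp only [Pi.smul_apply, smul_eq_mul]
        split_ifs with hT
        · rw [hT, mul_one]
        · rw [mul_zero]
          symm
          refine mem_KK_id.mp hc T ?_
          rintro ⟨_, _, h3⟩
          exact hT (Finset.card_eq_zero.mp h3)
      · rw [Submodule.span_singleton_le_iff_mem]
        refine ⟨mem_KK_id.mpr fun T hT => ?_, ?_⟩
        · rw [if_neg]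
          rintro rfl
          exact hT ⟨by simp, by simp, by simp⟩
        · show bd F _ = 0
          funext T
          rw [bd_apply]
          refine Finset.sum_eq_zero fun v _ => ?_
          rw [if_neg (Finset.insert_ne_empty v T), smul_zero]
    unfold bb beta
    rw [hB, hZ, finrank_bot, Nat.sub_zero, finrank_span_singleton]
    intro h
    have := congrFun h ∅
    simp at this
  · unfold bb beta
    have hZ : ZZ G (fun _ => (- LinearMap.id : F →ₗ[F] F)) (∅ : Set V) ∅ i = ⊥ := by
      rw [eq_bot_iff, ← hK i hi]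
      exact inf_le_left
    rw [hZ, finrank_bot, Nat.zero_sub]


theorem lk_empty (G : SimpleGraph V) : lk G (∅ : Finset V) = Set.univ := by
  ext v
  simp [lk]

theorem HSF.top {k : ℕ} (h : HSF F k G A) (i : ℕ) : bb F G A i = if i = k then 1 else 0 := by
  have h1 := h ∅ (by simp) (by simp) i
  rwa [lk_empty, Set.inter_univ, Finset.card_empty, add_zero] at h1

theorem lk_union [DecidableEq V] (G : SimpleGraph V) (R S : Finset V) : lk G R ∩ lk G S = lk G (R ∪ S) := by
  ext v
  constructor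
  · rintro ⟨h1, h2⟩ u hu
    rcases Finset.mem_union.1 hu with h | h
    · exact h1 u h
    · exact h2 u h
  · intro h
    exact ⟨fun u hu => h u (Finset.mem_union_left _ hu), fun u hu => h u (Finset.mem_union_right _ hu)⟩

theorem HSF.lnk {k : ℕ} {R : Finset V} (h : HSF F (k + R.card) G A) (hR : G.IsClique (R : Set V))
    (hRA : (R : Set V) ⊆ A) : HSF F k G (A ∩ lk G R) := by
  classical
  intro S hS hSA i
  rw [Set.inter_assoc, lk_union]
  have hd : Disjoint R S := by
    rw [Finset.disjoint_left]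
    intro v hv hv'
    exact (G.loopless.irrefl v) ((hSA hv').2 v hv)
  rw [h (R ∪ S) ?_ ?_ i, Finset.card_union_of_disjoint hd]
  · congr 1
    rw [eq_iff_iff]
    omega
  · rw [Finset.coe_union]
    rintro a (ha | ha) b (hb | hb) hab
    · exact hR ha hb hab
    · exact ((hSA hb).2 a ha).symm
    · exact (hSA ha).2 b hb
    · exact hS ha hb hab
  · rw [Finset.coe_union]
    exact Set.union_subset hRA fun v hv => (hSA hv).1

theorem HSF.facet {k : ℕ} (hS : HSF F k G A) (T : Finset V) (hT : G.IsClique (T : Set V)) (hTA : (T : Set V) ⊆ A) :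
    ∃ S : Finset V, T ⊆ S ∧ G.IsClique (S : Set V) ∧ (S : Set V) ⊆ A ∧ S.card = k := by
  classical
  obtain ⟨S, hS0, hmax⟩ := Set.Finite.exists_maximalFor Finset.card
    {S : Finset V | T ⊆ S ∧ G.IsClique (S : Set V) ∧ (S : Set V) ⊆ A} (Set.toFinite _)
    ⟨T, Finset.Subset.refl T, hT, hTA⟩
  obtain ⟨hTS, hSc, hSA⟩ := hS0
  refine ⟨S, hTS, hSc, hSA, ?_⟩
  have hlk : A ∩ lk G S = ∅ := by
    rw [Set.eq_empty_iff_forall_notMem]
    rintro v ⟨hvA, hv⟩
    have hvS : v ∉ S := fun h => (hv v h).ne rfl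
    have h1 : G.IsClique ((insert v S : Finset V) : Set V) := by
      rw [Finset.coe_insert]
      exact hSc.insert fun u hu _ => hv u hu
    have h2 := hmax ⟨hTS.trans (Finset.subset_insert v S), h1, by
      rw [Finset.coe_insert]
      exact Set.insert_subset hvA hSA⟩ (by
      show S.card ≤ (insert v S).card
      rw [Finset.card_insert_of_notMem hvS]; omega)
    have h2 : (insert v S).card ≤ S.card := h2
    rw [Finset.card_insert_of_notMem hvS] at h2
    omega
  by_contra hcon
  have h1 := hS S hSc hSA 0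
  rw [if_neg (by omega), hlk, bb_empty, if_pos rfl] at h1
  exact one_ne_zero h1

theorem HSF.card_le {k : ℕ} (hS : HSF F k G A) {T : Finset V} (hT : G.IsClique (T : Set V)) (hTA : (T : Set V) ⊆ A) :
    T.card ≤ k := by
  obtain ⟨S, h1, -, -, h2⟩ := hS.facet T hT hTA
  exact h2 ▸ Finset.card_le_card h1

theorem lk_one (G : SimpleGraph V) (v : V) : A ∩ lk G ({v} : Finset V) = (A \ {v}) ∩ G.neighborSet v := by
  ext w
  constructor
  · rintro ⟨h1, h2⟩
    have h3 : G.Adj w v := h2 v (Finset.mem_singleton_self v)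
    exact ⟨⟨h1, h3.ne⟩, h3.symm⟩
  · rintro ⟨⟨h1, -⟩, h2⟩
    refine ⟨h1, fun u hu => ?_⟩
    rw [Finset.mem_singleton] at hu
    rw [hu]
    exact SimpleGraph.Adj.symm h2

theorem HSF.lnk1 {k : ℕ} {v : V} (h : HSF F (k + 1) G A) (hv : v ∈ A) :
    HSF F k G ((A \ {v}) ∩ G.neighborSet v) := by
  have h1 : HSF F (k + ({v} : Finset V).card) G A := by rwa [Finset.card_singleton]
  have h2 := h1.lnk (R := {v}) (by simp) (by simpa using hv)
  rwa [lk_one] at h2

theorem ins_sd {v : V} (hv : v ∈ A) : insert v (A \ {v}) = A := by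
  rw [Set.insert_sdiff_singleton, Set.insert_eq_of_mem hv]

theorem q_mem {k : ℕ} {v : V} (hv : v ∈ A) {c : Finset V → F} (hc : c ∈ KK G (rr V F) A ∅ (k + 1)) :
    qq F v c ∈ KK G (rr V F) ((A \ {v}) ∩ G.neighborSet v) ∅ k := by
  have h1 : c ∈ KK G (rr V F) (insert v (A \ {v})) ∅ (k + 1) := by rwa [ins_sd hv]
  have h2 := qq_mem h1
  rwa [KK_S] at h2

theorem q_zero {v : V} {i : ℕ} {B : Set V} (hv : v ∉ B) {c : Finset V → F} (hc : c ∈ KK G (rr V F) B ∅ i) :
    qq F v c = 0 := by
  funext T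
  by_cases hvT : v ∈ T
  · exact qq_of_mem _ hvT
  · rw [qq_of_not _ hvT, (mem_KK.1 hc).1 (insert v T), smul_zero]
    · rfl
    · rintro ⟨-, h, -⟩
      exact hv (h (by simp))

theorem of_q {v : V} {i : ℕ} (hv : v ∈ A) {c : Finset V → F} (hc : c ∈ KK G (rr V F) A ∅ i)
    (hq : qq F v c = 0) : c ∈ KK G (rr V F) (A \ {v}) ∅ i := by
  refine mem_of_qq (v := v) ?_ hq
  rwa [ins_sd hv]

theorem q_supp {v : V} {c : Finset V → F} (hq : qq F v c = 0) (T : Finset V) (hvT : v ∈ T) : c T = 0 := by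
  have h1 := congrFun hq (T.erase v)
  rw [qq_of_not _ (Finset.notMem_erase v T), Finset.insert_erase hvT, Pi.zero_apply] at h1
  rcases sg_eq_or v (T.erase v) with h | h
  · rwa [h, one_smul] at h1
  · rw [h, neg_smul, one_smul, neg_eq_zero] at h1
    exact h1

theorem bd_empty (c : Finset V → F) : bd F c ∅ = ∑ v : V, c {v} := by
  rw [bd_apply, Finset.compl_empty]
  refine Finset.sum_congr rfl fun v _ => ?_
  have h1 : sg v (∅ : Finset V) = 1 := by simp [sg]
  rw [h1, one_smul]
  rfl

/-- the difference of two points -/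
def df (F : Type) [Field F] (v0 w0 : V) : Finset V → F := fun T => if T = {v0} then 1 else if T = {w0} then -1 else 0

theorem df_mem {v0 w0 : V} (hv0 : v0 ∈ A) (hw0 : w0 ∈ A) : df F v0 w0 ∈ KK G (rr V F) A ∅ 1 := by
  rw [mem_KK_id]
  intro T hT
  unfold df
  rw [if_neg, if_neg]
  · rintro rfl
    exact hT ⟨by simp, by simpa using hw0, by simp⟩
  · rintro rfl
    exact hT ⟨by simp, by simpa using hv0, by simp⟩

theorem df_cyc {v0 w0 : V} (hvw : v0 ≠ w0) : bd F (df F v0 w0) = 0 := by
  classical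
  funext T
  by_cases hT : T = ∅
  · subst hT
    rw [bd_empty, Pi.zero_apply]
    have h1 : ∀ v : V, df F v0 w0 {v} = (if v = v0 then 1 else 0) + (if v = w0 then -1 else 0) := by
      intro v
      unfold df
      simp only [Finset.singleton_inj]
      by_cases h1 : v = v0
      · rw [if_pos h1, if_pos h1, if_neg (h1.symm ▸ hvw), add_zero]
      · rw [if_neg h1, if_neg h1, zero_add]
    rw [Finset.sum_congr rfl fun v _ => h1 v, Finset.sum_add_distrib, Finset.sum_ite_eq' Finset.univ v0,
      Finset.sum_ite_eq' Finset.univ w0, if_pos (Finset.mem_univ _), if_pos (Finset.mem_univ _)]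
    ring
  · rw [bd_apply, Pi.zero_apply]
    refine Finset.sum_eq_zero fun v hv => ?_
    have h2 : 2 ≤ (insert v T).card := by
      rw [Finset.card_insert_of_notMem (Finset.mem_compl.1 hv)]
      have := Finset.card_pos.2 (Finset.nonempty_iff_ne_empty.2 hT)
      omega
    unfold df
    rw [if_neg, if_neg, smul_zero]
    · intro h3
      rw [h3, Finset.card_singleton] at h2
      omega
    · intro h3
      rw [h3, Finset.card_singleton] at h2
      omega

theorem exact_of {i : ℕ} (h : bb F G A i = 0) {z : Finset V → F} (hz : z ∈ KK G (rr V F) A ∅ i) (hb : bd F z = 0) :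
    ∃ y ∈ KK G (rr V F) A ∅ (i + 1), bd F y = z := by
  unfold bb beta at h
  have h2 := Submodule.eq_of_le_of_finrank_le (BB_le_ZZ G (rr V F) A ∅ i) (by
    have h3 : finrank F (ZZ G (rr V F) A ∅ i) - finrank F (BB G (rr V F) A ∅ i) = 0 := h
    omega)
  have h3 : z ∈ ZZ G (rr V F) A ∅ i := ⟨hz, hb⟩
  rw [← h2] at h3
  obtain ⟨y, hy, hyc⟩ := h3
  exact ⟨y, hy, hyc⟩

/-- the graph on the vertices of a homology sphere of positive dimension is connected -/
theorem HSF.conn {k : ℕ} (h : HSF F (k + 2) G A) (U : Set V) (hUA : U ⊆ A) (hU : ∀ v ∈ U, ∀ w ∈ A, G.Adj v w → w ∈ U)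
    {v0 w0 : V} (hv0 : v0 ∈ U) (hw0 : w0 ∈ A) (hw0U : w0 ∉ U) : False := by
  classical
  have hvw : v0 ≠ w0 := fun e => hw0U (e ▸ hv0)
  have h1 := h.top 1
  rw [if_neg (by omega)] at h1
  obtain ⟨y, hy, hyd⟩ := exact_of h1 (df_mem (G := G) (hUA hv0) hw0) (df_cyc hvw)
  rw [mem_KK_id] at hy
  obtain ⟨yU, hyU⟩ : ∃ yU : Finset V → F, yU = fun T : Finset V => if (T : Set V) ⊆ U then y T else 0 := ⟨_, rfl⟩
  have h2 := congrFun (bd_bd (F := F) yU) ∅
  rw [bd_empty, Pi.zero_apply] at h2
  have h3 : ∀ v : V, bd F yU {v} = if v = v0 then 1 else 0 := by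
    intro v
    by_cases hv : v ∈ U
    · have h4 : bd F yU {v} = bd F y {v} := by
        rw [bd_apply, bd_apply]
        refine Finset.sum_congr rfl fun u hu => ?_
        congr 1
        rw [hyU]
        dsimp only
        by_cases hu' : ((insert u {v} : Finset V) : Set V) ⊆ U
        · rw [if_pos hu']
        · rw [if_neg hu']
          symm
          apply hy
          rintro ⟨k1, k2, -⟩
          apply hu'
          have k3 : u ≠ v := by simpa using Finset.mem_compl.1 hu
          rw [Finset.coe_insert, Finset.coe_singleton]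
          refine Set.insert_subset (hU v hv u (k2 (by simp)) ?_) (by simpa using hv)
          exact (k1 (by simp) (by simp) k3).symm
      rw [h4, hyd]
      unfold df
      simp only [Finset.singleton_inj]
      by_cases h5 : v = v0
      · rw [if_pos h5, if_pos h5]
      · rw [if_neg h5, if_neg h5, if_neg]
        rintro rfl
        exact hw0U hv
    · rw [if_neg (fun e : v = v0 => hv (e ▸ hv0)), bd_apply]
      refine Finset.sum_eq_zero fun u _ => ?_
      rw [hyU]
      dsimp only
      rw [if_neg, smul_zero]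
      intro h5
      exact hv (h5 (by simp))
  rw [Finset.sum_congr rfl fun v _ => h3 v, Finset.sum_ite_eq' Finset.univ v0, if_pos (Finset.mem_univ _)] at h2
  exact one_ne_zero h2

/-- no chains above the top -/
theorem HSF.bot {k : ℕ} (h : HSF F k G A) : KK G (rr V F) A ∅ (k + 1) = ⊥ := by
  rw [eq_bot_iff]
  intro c hc
  rw [Submodule.mem_bot]
  funext T
  refine (mem_KK_id.1 hc) T ?_
  rintro ⟨h1, h2, h3⟩
  have := h.card_le h1 h2
  omega

/-- the top cycles are a line -/
theorem HSF.line {k : ℕ} (h : HSF F k G A) : finrank F (ZZ G (rr V F) A ∅ k) = 1 := by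
  have h1 := h.top k
  rw [if_pos rfl] at h1
  unfold bb beta at h1
  have h2 : BB G (rr V F) A ∅ k = ⊥ := by
    unfold BB
    rw [h.bot, Submodule.map_bot]
  have h3 : finrank F (ZZ G (rr V F) A ∅ k) - finrank F (BB G (rr V F) A ∅ k) = 1 := h1
  rw [h2, finrank_bot] at h3
  omega

/-- the top cycles vanish nowhere -/
theorem HSF.supp : ∀ {k : ℕ} {A : Set V}, HSF F k G A → ∀ c ∈ KK G (rr V F) A ∅ k, bd F c = 0 → ∀ T0 : Finset V,
    G.IsClique (T0 : Set V) → (T0 : Set V) ⊆ A → T0.card = k → c T0 = 0 → c = 0 := by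
  classical
  intro k
  induction k with
  | zero =>
    intro A h c hc _ T0 _ _ hT0 h0
    funext T
    by_cases hT : T = T0
    · rw [hT, h0]
      rfl
    · refine (mem_KK_id.1 hc) T ?_
      rintro ⟨-, -, h3⟩
      rw [Finset.card_eq_zero] at h3 hT0
      exact hT (h3.trans hT0.symm)
  | succ k ih =>
    intro A h c hc hb T0 hT0 hT0A hT0c h0
    have hq : ∀ v ∈ A, ∀ T : Finset V, v ∈ T → G.IsClique (T : Set V) → (T : Set V) ⊆ A → T.card = k + 1 →
        c T = 0 → ∀ T' : Finset V, v ∈ T' → c T' = 0 := by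
      intro v hv T hvT hT hTA hTc hcT
      have h1 : qq F v c = 0 := by
        refine ih (h.lnk1 hv) _ (q_mem hv hc) ?_ (T.erase v) (hT.subset (by simp)) ?_ ?_ ?_
        · rw [qq_bd, hb, map_zero, neg_zero]
        · intro u hu
          rw [Finset.mem_coe, Finset.mem_erase] at hu
          exact ⟨⟨hTA hu.2, hu.1⟩, hT hvT hu.2 hu.1.symm⟩
        · rw [Finset.card_erase_of_mem hvT, hTc]
          rfl
        · rw [qq_of_not _ (Finset.notMem_erase v T), Finset.insert_erase hvT, hcT, smul_zero]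
      exact fun T' h2 => q_supp h1 T' h2
    obtain ⟨v0, hv0⟩ : T0.Nonempty := Finset.card_pos.1 (by omega)
    obtain ⟨U, hU⟩ : ∃ U : Set V, U = {v | v ∈ A ∧ ∀ T : Finset V, v ∈ T → c T = 0} := ⟨_, rfl⟩
    have hmem : ∀ v, v ∈ U ↔ v ∈ A ∧ ∀ T : Finset V, v ∈ T → c T = 0 := by
      intro v
      rw [hU]
      rfl
    have hv0U : v0 ∈ U := (hmem v0).2 ⟨hT0A hv0, hq v0 (hT0A hv0) T0 hv0 hT0 hT0A hT0c h0⟩
    have hstep : ∀ v ∈ U, ∀ w ∈ A, G.Adj v w → w ∈ U := by
      intro v hv w hw hvw
      have hv := (hmem v).1 hv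
      obtain ⟨S, h1, h2, h3, h4⟩ := h.facet {v, w} (by
        rw [Finset.coe_insert, Finset.coe_singleton]
        exact SimpleGraph.isClique_pair.2 fun _ => hvw) (by
        rw [Finset.coe_insert, Finset.coe_singleton]
        exact Set.insert_subset hv.1 (by simpa using hw))
      have h5 := hv.2 S (h1 (by simp))
      exact (hmem w).2 ⟨hw, hq w hw S (h1 (by simp)) h2 h3 h4 h5⟩
    by_cases hall : ∀ w ∈ A, w ∈ U
    · funext T
      by_contra hcT
      have h1 : G.IsClique (T : Set V) ∧ (T : Set V) ⊆ A ∧ T.card = k + 1 := by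
        by_contra h2
        exact hcT ((mem_KK_id.1 hc) T h2)
      obtain ⟨w, hw⟩ : T.Nonempty := Finset.card_pos.1 (by omega)
      exact hcT (((hmem w).1 (hall w (h1.2.1 hw))).2 T hw)
    · push Not at hall
      obtain ⟨w0, hw0, hw0U⟩ := hall
      rcases Nat.eq_zero_or_pos k with hk | hk
      · subst hk
        have hvw : v0 ≠ w0 := fun e => hw0U (e ▸ hv0U)
        by_contra hcne
        have h1 := h.line
        obtain ⟨z, hz⟩ := (finrank_eq_one_iff_of_nonzero' (⟨c, hc, hb⟩ : ZZ G (rr V F) A ∅ 1)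
          (fun e => hcne (congrArg Subtype.val e))).1 h1 ⟨df F v0 w0, df_mem (hT0A hv0) hw0, df_cyc hvw⟩
        have h2 := congrFun (congrArg Subtype.val hz) {v0}
        have h3 : z • c {v0} = df F v0 w0 {v0} := h2
        rw [((hmem v0).1 hv0U).2 {v0} (by simp), smul_zero] at h3
        unfold df at h3
        rw [if_pos rfl] at h3
        exact zero_ne_one h3
      · obtain ⟨k', rfl⟩ : ∃ k', k = k' + 1 := ⟨k - 1, by omega⟩
        exact (h.conn U (fun v hv => ((hmem v).1 hv).1) hstep hv0U hw0 hw0U).elim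

/-- a homology sphere minus a vertex is acyclic -/
theorem HSF.del {k : ℕ} (h : HSF F k G A) {v : V} (hv : v ∈ A) (i : ℕ) : bb F G (A \ {v}) i = 0 := by
  classical
  obtain ⟨S, h1, h2, h3, h4⟩ := h.facet {v} (by simp) (by simpa using hv)
  have hvS : v ∈ S := h1 (by simp)
  have hk : 0 < k := by
    rw [← h4]
    exact Finset.card_pos.2 ⟨v, hvS⟩
  obtain ⟨k', rfl⟩ : ∃ k', k = k' + 1 := ⟨k - 1, by omega⟩
  have hB : v ∉ A \ {v} := fun h => h.2 rfl
  have hlk := h.lnk1 hv
  have hz : ∀ c ∈ KK G (rr V F) (A \ {v}) ∅ (k' + 1), bd F c = 0 → c = 0 := by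
    intro c hc hb
    refine h.supp c (KK_mono Set.sdiff_subset hc) hb S h2 h3 h4 ?_
    refine (mem_KK_id.1 hc) S ?_
    rintro ⟨-, h5, -⟩
    exact (h5 hvS).2 rfl
  rcases eq_or_ne i (k' + 1) with rfl | hi1
  · have h5 : ZZ G (rr V F) (A \ {v}) ∅ (k' + 1) = ⊥ := by
      rw [eq_bot_iff]
      rintro c ⟨hc, hb⟩
      exact (Submodule.mem_bot F).2 (hz c hc hb)
    unfold bb beta
    have h6 : finrank F (ZZ G (rr V F) (A \ {v}) ∅ (k' + 1)) = 0 := by rw [h5, finrank_bot]
    show finrank F (ZZ G (rr V F) (A \ {v}) ∅ (k' + 1)) - _ = 0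
    rw [h6, Nat.zero_sub]
  rcases eq_or_ne i k' with rfl | hi2
  · refine Pool.Agent.R703.MO.beta_zero_of fun z hz' hb => ?_
    obtain ⟨y, hy, hyz⟩ := exact_of (by rw [h.top, if_neg (by omega)]) (KK_mono Set.sdiff_subset hz') hb
    have hl := h.line
    obtain ⟨⟨z1, hz1, hb1⟩, hne⟩ : ∃ z1 : ZZ G (rr V F) A ∅ (i + 1), z1 ≠ 0 := by
      have h5 : 0 < finrank F (ZZ G (rr V F) A ∅ (i + 1)) := by omega
      have := Module.finrank_pos_iff.1 h5
      exact exists_ne 0
    have hb1 : bd F z1 = 0 := hb1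
    have hne : z1 ≠ 0 := fun e => hne (Subtype.ext e)
    have hq1 : qq F v z1 ≠ 0 := fun e => hne (hz z1 (of_q hv hz1 e) hb1)
    have hqb : bd F (qq F v z1) = 0 := by rw [qq_bd, hb1, map_zero, neg_zero]
    have hqy : bd F (qq F v y) = 0 := by rw [qq_bd, hyz, q_zero hB hz', neg_zero]
    obtain ⟨a, ha⟩ := (finrank_eq_one_iff_of_nonzero' (⟨qq F v z1, q_mem hv hz1, hqb⟩ :
      ZZ G (rr V F) ((A \ {v}) ∩ G.neighborSet v) ∅ i) (fun e => hq1 (congrArg Subtype.val e))).1 hlk.line
      ⟨qq F v y, q_mem hv hy, hqy⟩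
    have ha : a • qq F v z1 = qq F v y := congrArg Subtype.val ha
    refine ⟨y - a • z1, of_q hv (Submodule.sub_mem _ hy (Submodule.smul_mem _ a hz1)) ?_, ?_⟩
    · rw [map_sub, map_smul, ha, sub_self]
    · rw [map_sub, map_smul, hb1, smul_zero, sub_zero, hyz]
  · have h5 := bb_vdel (F := F) (G := G) hB i
    rw [ins_sd hv, h.top, hlk.top, if_neg hi1, if_neg hi2] at h5
    omega

end Run7.h636.LT.Ctr
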