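import Pool.Agent.Run7.h636.LT.C.Tab

/-!
# Project LT (helper636): the mod 3 cycle of the 17-vertex Moore complex, joined with two points

Vertices: `x_0, …, x_3` = 0, …, 3; `y_0, …, y_5` = 4, …, 9; `w_0, …, w_5` = 10, …, 15; `z` = 16; `a` = 17, `b`
   = 18.
-/

set_option autoImplicit false

noncomputable section

namespace Run7.h636.LT.Tab

/-- the cycle: bit masks of the simplices and coefficients -/
def L17 : List (ℕ × ℕ) :=
  [(131091, 2), (131094, 2), (131113, 1), (131116, 2), (131139, 2), (131142, 2), (131209, 1), (131212, 2),
   (131331, 2), (131334, 2), (131593, 1), (131596, 2), (132113, 2), (132609, 1), (133140, 1), (133156, 2),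
   (135201, 1), (135233, 2), (139332, 1), (139396, 2), (147585, 1), (147713, 2), (164100, 1), (164356, 2),
   (197648, 1), (198144, 2), (198672, 2), (198688, 1), (200736, 2), (200768, 1), (204864, 2), (204928, 1),
   (213120, 2), (213248, 1), (229632, 2), (229888, 1), (262163, 1), (262166, 1), (262185, 2), (262188, 1),
   (262211, 1), (262214, 1), (262281, 2), (262284, 1), (262403, 1), (262406, 1), (262665, 2), (262668, 1),
   (263185, 1), (263681, 2), (264212, 2), (264228, 1), (266273, 2), (266305, 1), (270404, 2), (270468, 1),
   (278657, 2), (278785, 1), (295172, 2), (295428, 1), (328720, 2), (329216, 1), (329744, 1), (329760, 2),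
   (331808, 1), (331840, 2), (335936, 1), (336000, 2), (344192, 1), (344320, 2), (360704, 1), (360960, 2)]

set_option maxRecDepth 100000 in
theorem L17_ck : ckZ L17 = true := by decide +kernel

theorem L17_ne : zz L17 ≠ 0 := by
  intro h
  have h1 := congrFun h {0, 1, 4, 17}
  have h2 : code {0, 1, 4, 17} = 131091 := by decide
  unfold zz at h1
  rw [h2] at h1
  revert h1
  decide

end Run7.h636.LT.Tab
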