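import Pool.Agent.Run7.h636.LT.C.Contr
import Pool.Agent.Run7.h308.LT.Mv

/-!
# Project LT (helper636): edge subdivisions of flag homology spheres over a field

After `Pool/Agent/N496/LT/E1.lean`, `Pool/Agent/Run7/h308/LT/Mv.lean` (real coefficients).
-/

set_option autoImplicit false
set_option linter.unusedSectionVars false
set_option linter.unusedVariables false

noncomputable section

namespace Run7.h636.LT.Ctr

open Module Pool.Agent.W907.SG
open Pool.Agent.W907.SM (lk)
open Pool.Agent.W347.SGV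
open Pool.Agent.Run7.h308.LT.Mv (Sd Md md_comm gg gg_cc gg_mc gg_del lk_a lk_m)

variable {V : Type} [Fintype V] [LinearOrder V] {F : Type} [Field F] {G H : SimpleGraph V} {A : Set V}

/-- suspensions -/
theorem bb_susp {s t : V} (hs : s ∈ A) (ht : t ∈ A) (hst : s ≠ t) (hn : ¬ G.Adj s t)
    (h : ∀ w ∈ A, w ≠ s → w ≠ t → G.Adj s w ∧ G.Adj t w) :
    bb F G A 0 = 0 ∧ ∀ i, bb F G A (i + 1) = bb F G (A \ {s, t}) i := by
  have h1 : A = insert t (A \ {t}) := by
    rw [Set.insert_sdiff_singleton, Set.insert_eq_of_mem ht]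
  have h2 : t ∉ A \ {t} := fun h => h.2 rfl
  have h3 : ∀ i, bb F G (A \ {t}) i = 0 := bb_cone (u := s) ⟨hs, hst⟩ fun w hw hws =>
    (h w hw.1 hws hw.2).1
  have h4 : (A \ {t}) ∩ G.neighborSet t = A \ {s, t} := by
    ext w
    constructor
    · rintro ⟨⟨h5, h6⟩, h7⟩
      refine ⟨h5, ?_⟩
      rintro (h8 | h8)
      · rw [h8] at h7
        exact hn (SimpleGraph.Adj.symm h7)
      · exact h6 h8
    · rintro ⟨h5, h6⟩
      have h7 : w ≠ s := fun e => h6 (Or.inl e)
      have h8 : w ≠ t := fun e => h6 (Or.inr e)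
      exact ⟨⟨h5, h8⟩, (h w h5 h7 h8).2⟩
  constructor
  · have h5 := bb_vert0 (F := F) (G := G) h2
    rw [← h1, h3 0] at h5
    omega
  · intro i
    have h5 := bb_vert (F := F) (G := G) h2 i
    have h6 := bb_lnk (F := F) (G := G) h2 i
    rw [← h1, h3, h4] at h5 h6
    omega

open Pool.Agent.W310.SG in
/-- deleting an edge with an acyclic link -/
theorem del_univ {s t : V} (hst : G.Adj s t)
    (h : ∀ i, bb F G (G.neighborSet s ∩ G.neighborSet t) i = 0) (i : ℕ) :
    bb F (G.deleteEdges {s(s, t)}) Set.univ i = bb F G Set.univ i := by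
  refine le_antisymm ?_ ?_
  · have h1 := edge V F F G (fun _ => (- LinearMap.id : F →ₗ[F] F)) s t hst
    cases i with
    | zero => exact h1.1
    | succ i =>
      have h2 := h1.2 i
      rw [beta_SS {s, t}, h i, add_zero] at h2
      exact h2
  · set ρ : V → F →ₗ[F] F := fun _ => (- LinearMap.id : F →ₗ[F] F) with hρ
    rcases Nat.lt_or_ge i 2 with hi | hi
    · have e1 : ZZ G ρ Set.univ ∅ i = ZZ (G.deleteEdges {s(s, t)}) ρ Set.univ ∅ i := by
        unfold ZZ
        rw [KK_eq_small (by omega : i ≤ 1)]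
      have e2 : finrank F (BB (G.deleteEdges {s(s, t)}) ρ Set.univ ∅ i) ≤
          finrank F (BB G ρ Set.univ ∅ i) :=
        Submodule.finrank_mono (Submodule.map_mono (KK_le _))
      show finrank F (ZZ G ρ Set.univ ∅ i) - finrank F (BB G ρ Set.univ ∅ i) ≤
        finrank F (ZZ (G.deleteEdges {s(s, t)}) ρ Set.univ ∅ i) -
          finrank F (BB (G.deleteEdges {s(s, t)}) ρ Set.univ ∅ i)
      rw [e1]
      omega
    · obtain ⟨j, rfl⟩ : ∃ j, i = j + 2 := ⟨i - 2, by omega⟩
      have h3 : bb F G (G.neighborSet s ∩ G.neighborSet t) j =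
          beta G ρ (G.neighborSet s ∩ G.neighborSet t) {s, t} j := (beta_SS _ _).symm
      have key : bb F G Set.univ (j + 2) ≤ bb F (G.deleteEdges {s(s, t)}) Set.univ (j + 2) +
          beta G ρ (G.neighborSet s ∩ G.neighborSet t) {s, t} j := by
        refine mid F (Finset V → F) (Finset V → F) (Finset V → F) LinearMap.id (qq F s t)
          (BB (G.deleteEdges {s(s, t)}) ρ Set.univ ∅ (j + 2))
          (ZZ (G.deleteEdges {s(s, t)}) ρ Set.univ ∅ (j + 2))
          (BB G ρ Set.univ ∅ (j + 2)) (ZZ G ρ Set.univ ∅ (j + 2))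
          (BB G ρ (G.neighborSet s ∩ G.neighborSet t) {s, t} j)
          (ZZ G ρ (G.neighborSet s ∩ G.neighborSet t) {s, t} j)
          (BB_le_ZZ _ _ _ _ _) (BB_le_ZZ _ _ _ _ _) (BB_le_ZZ _ _ _ _ _) ?_ ?_ ?_
        · rw [Submodule.map_id]
          exact Submodule.map_mono (KK_le _)
        · rintro _ ⟨y, ⟨hy1, hy2⟩, rfl⟩
          have hy2 : bd F y = 0 := hy2
          refine ⟨Pool.Agent.W310.SG.q_mem hst hy1, ?_⟩
          show bd F (qq F s t y) = 0
          rw [← q_bd hst.ne, hy2, map_zero]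
        · rintro z ⟨hz1, hz2⟩ ⟨y, hy, hyz⟩
          have hz2 : bd F z = 0 := hz2
          have hl := lft_mem hst hy
          refine ⟨z - bd F (lft s t y), ⟨mem_of_q_zero (Submodule.sub_mem _ hz1
            (bd_mem_KK hl)) ?_, ?_⟩, bd F (lft s t y), ⟨_, hl, rfl⟩, ?_⟩
          · rw [map_sub, q_bd hst.ne, q_lft hst hy, hyz, sub_self]
          · show bd F (z - bd F (lft s t y)) = 0
            rw [map_sub, hz2, bd_bd, sub_zero]
          · simp
      rw [← h3, h j, add_zero] at key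
      exact key


/-- transport -/
theorem bb_tr {U V : Type} [Fintype U] [LinearOrder U] [Fintype V] [LinearOrder V] {F : Type} [Field F]
    {G : SimpleGraph V} {H : SimpleGraph U} (φ : U → V) (hφ : StrictMono φ) (A : Set U)
    (h : ∀ u ∈ A, ∀ u' ∈ A, H.Adj u u' ↔ G.Adj (φ u) (φ u')) (i : ℕ) :
    bb F G (φ '' A) i = bb F H A i := by
  classical
  have hfin : Fintype A := Fintype.ofFinite _
  have e1 := tr A V F F G (H.induce A) (fun _ => (- LinearMap.id : F →ₗ[F] F)) (fun x => φ x.1)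
    (fun _ _ hab => hφ hab) (fun u u' => h u.1 u.2 u'.1 u'.2) i
  have e2 := tr A U F F H (H.induce A) (fun _ => (- LinearMap.id : F →ₗ[F] F)) (fun x => x.1)
    (fun _ _ hab => hab) (fun u u' => Iff.rfl) i
  have r1 : Set.range (fun x : A => φ x.1) = φ '' A := by
    ext v
    constructor
    · rintro ⟨x, rfl⟩
      exact ⟨x.1, x.2, rfl⟩
    · rintro ⟨x, hx, rfl⟩
      exact ⟨⟨x, hx⟩, rfl⟩
  rw [r1] at e1
  rw [Subtype.range_coe] at e2
  unfold bb
  rw [e1, e2]

/-- deleting an edge with an acyclic link, on a subset -/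
theorem bb_del {V : Type} [Fintype V] [LinearOrder V] {F : Type} [Field F] {G : SimpleGraph V} {A : Set V} {s t : V}
    (hs : s ∈ A) (ht : t ∈ A) (hst : G.Adj s t)
    (h : ∀ i, bb F G (A ∩ (G.neighborSet s ∩ G.neighborSet t)) i = 0) (i : ℕ) :
    bb F (G.deleteEdges {s(s, t)}) A i = bb F G A i := by
  classical
  have hfin : Fintype A := Fintype.ofFinite _
  have e1 := bb_tr (F := F) (G := G) (H := G.induce A) (Subtype.val : A → V) (fun _ _ hab => hab) Set.univ
    (fun u _ u' _ => Iff.rfl) i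
  have e2 := bb_tr (F := F) (G := G.deleteEdges {s(s, t)})
    (H := (G.induce A).deleteEdges {s((⟨s, hs⟩ : A), (⟨t, ht⟩ : A))}) (Subtype.val : A → V)
    (fun _ _ hab => hab) Set.univ (fun u _ u' _ => by
      rw [SimpleGraph.deleteEdges_adj, SimpleGraph.deleteEdges_adj, Set.mem_singleton_iff,
        Set.mem_singleton_iff, Sym2.eq_iff, Sym2.eq_iff]
      simp only [Subtype.ext_iff]
      rfl) i
  rw [Set.image_univ, Subtype.range_coe] at e1 e2
  rw [e1, e2]
  refine del_univ (F := F) (G := G.induce A) (s := ⟨s, hs⟩) (t := ⟨t, ht⟩) hst (fun j => ?_) i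
  have e3 := bb_tr (F := F) (G := G) (H := G.induce A) (Subtype.val : A → V) (fun _ _ hab => hab)
    ((G.induce A).neighborSet ⟨s, hs⟩ ∩ (G.induce A).neighborSet ⟨t, ht⟩)
    (fun u _ u' _ => Iff.rfl) j
  rw [← e3]
  have r3 : (Subtype.val : A → V) '' ((G.induce A).neighborSet ⟨s, hs⟩ ∩
      (G.induce A).neighborSet ⟨t, ht⟩) = A ∩ (G.neighborSet s ∩ G.neighborSet t) := by
    ext v
    constructor
    · rintro ⟨x, hx, rfl⟩
      exact ⟨x.2, hx⟩
    · rintro ⟨h1, h2⟩
      exact ⟨⟨v, h1⟩, h2, rfl⟩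
  rw [r3]
  exact h j



theorem no_big {k : ℕ} {G : SimpleGraph V} {A : Set V} (hG : HSF F k G A) {T : Finset V}
    (hT : G.IsClique (T : Set V)) (hTA : (T : Set V) ⊆ A) : T.card ≤ k := by
  by_contra hn
  push Not at hn
  obtain ⟨T', hT', hc'⟩ := Finset.exists_subset_card_eq (Nat.succ_le_of_lt hn)
  have hcl : G.IsClique (T' : Set V) := hT.subset (by exact_mod_cast hT')
  have hTA' : (T' : Set V) ⊆ A := fun x hx => hTA (hT' hx)
  obtain ⟨v, hv⟩ : T'.Nonempty := Finset.card_pos.1 (by omega)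
  have h1 := hG (T'.erase v) (hcl.subset (by exact_mod_cast Finset.erase_subset v T'))
    (fun x hx => hTA' (Finset.mem_of_mem_erase hx)) 0
  rw [Finset.card_erase_of_mem hv, hc'] at h1
  rw [if_pos (by omega)] at h1
  have hvl : v ∈ A ∩ lk G (T'.erase v) := ⟨hTA' hv, fun u hu =>
    hcl hv (Finset.mem_coe.2 (Finset.mem_of_mem_erase hu)) (Finset.ne_of_mem_erase hu).symm⟩
  rw [bb0 hvl] at h1
  exact absurd h1 (by norm_num)


section sd

variable {G G' : SimpleGraph V} {A : Set V} {m s t : V} {k : ℕ}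

section cases

variable {S : Finset V} (h : Sd G G' A m s t)

include h

/-- link, vertices of `A` -/
theorem lk_a (hSA : (S : Set V) ⊆ insert m A) {a : V} (ha : a ∈ A) : a ∈ lk G' S ↔
    (∀ u ∈ S.erase m, G.Adj a u ∧ s(a, u) ≠ s(s, t)) ∧ (m ∈ S → Md G s t a) := by
  have hu' : ∀ u ∈ S.erase m, u ∈ A := fun u hu =>
    (hSA (Finset.mem_of_mem_erase hu)).resolve_left (Finset.ne_of_mem_erase hu)
  constructor
  · intro h1
    refine ⟨fun u hu => (h.cc a ha u (hu' u hu)).1 (h1 u (Finset.mem_of_mem_erase hu)), fun hm => ?_⟩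
    exact (h.mc a ha).1 (h1 m hm).symm
  · rintro ⟨h1, h2⟩ v hv
    by_cases hvm : v = m
    · rw [hvm] at hv ⊢
      exact ((h.mc a ha).2 (h2 hv)).symm
    · have hv' := Finset.mem_erase.2 ⟨hvm, hv⟩
      exact (h.cc a ha v (hu' v hv')).2 (h1 v hv')

/-- link, the new vertex -/
theorem lk_m (hSA : (S : Set V) ⊆ insert m A) : m ∈ lk G' S ↔ m ∉ S ∧ ∀ u ∈ S, Md G s t u := by
  constructor
  · intro h1
    have hmS : m ∉ S := fun hm => G'.loopless.irrefl _ (h1 m hm)
    refine ⟨hmS, fun u hu => ?_⟩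
    have hu' : u ∈ A := (hSA hu).resolve_left (fun e => hmS (e ▸ hu))
    exact (h.mc u hu').1 (h1 u hu)
  · rintro ⟨h1, h2⟩ v hv
    have hv' : v ∈ A := (hSA hv).resolve_left (fun e => h1 (e ▸ hv))
    exact (h.mc v hv').2 (h2 v hv)

/-- the new vertex and one end -/
theorem caseA1 (hSA : (S : Set V) ⊆ insert m A) (hm : m ∈ S) (hs : s ∈ S) (i : ℕ) :
    bb F G' (insert m A ∩ lk G' S) i = bb F G (A ∩ lk G (insert t (S.erase m))) i := by
  classical
  have hsm : s ≠ m := fun e => h.hm (e ▸ h.hs)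
  have hset : insert m A ∩ lk G' S = A ∩ lk G (insert t (S.erase m)) := by
    ext a
    constructor
    · rintro ⟨h1, h2⟩
      have haA : a ∈ A := by
        rcases h1 with h1 | h1
        · rw [h1] at h2
          exact absurd hm (((lk_m h hSA).1 h2).1)
        · exact h1
      refine ⟨haA, fun u hu => ?_⟩
      have h3 := (lk_a h hSA haA).1 h2
      rcases Finset.mem_insert.1 hu with rfl | hu
      · rcases h3.2 hm with h4 | h4 | h4
        · exact absurd (h3.1 s (Finset.mem_erase.2 ⟨hsm, hs⟩)).1 (by rw [h4]; exact G.loopless.irrefl _)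
        · exact absurd (by rw [h4, Sym2.eq_swap]) (h3.1 s (Finset.mem_erase.2 ⟨hsm, hs⟩)).2
        · exact h4.2.symm
      · exact (h3.1 u hu).1
    · rintro ⟨haA, h2⟩
      refine ⟨Or.inr haA, (lk_a h hSA haA).2 ?_⟩
      have h3 : G.Adj a t := h2 t (Finset.mem_insert_self _ _)
      have h4 : G.Adj a s := h2 s (Finset.mem_insert_of_mem (Finset.mem_erase.2 ⟨hsm, hs⟩))
      refine ⟨fun u hu => ⟨h2 u (Finset.mem_insert_of_mem hu), fun h5 => ?_⟩, fun _ =>
        Or.inr (Or.inr ⟨h4.symm, h3.symm⟩)⟩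
      rw [Sym2.eq_iff] at h5
      rcases h5 with ⟨h5, -⟩ | ⟨h5, -⟩
      · exact h4.ne h5
      · exact h3.ne h5
  rw [hset]
  refine bb_congr (fun u hu v hv => ?_) i
  rw [h.cc u hu.1 v hv.1]
  have h3 : G.Adj u t := hu.2 t (Finset.mem_insert_self _ _)
  have h4 : G.Adj u s := hu.2 s (Finset.mem_insert_of_mem (Finset.mem_erase.2 ⟨hsm, hs⟩))
  refine ⟨fun h => h.1, fun h => ⟨h, fun h5 => ?_⟩⟩
  rw [Sym2.eq_iff] at h5
  rcases h5 with ⟨h5, -⟩ | ⟨h5, -⟩
  · exact h4.ne h5
  · exact h3.ne h5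

/-- the new vertex and no end -/
theorem caseA3 (hSA : (S : Set V) ⊆ insert m A) (hm : m ∈ S) (hs : s ∉ S) (ht : t ∉ S)
    (hM : ∀ u ∈ S.erase m, Md G s t u) :
    bb F G' (insert m A ∩ lk G' S) 0 = 0 ∧
    ∀ i, bb F G' (insert m A ∩ lk G' S) (i + 1) = bb F G (A ∩ lk G (insert s (insert t (S.erase m)))) i := by
  classical
  have hM' : ∀ u ∈ S.erase m, G.Adj s u ∧ G.Adj t u := by
    intro u hu
    rcases hM u hu with h1 | h1 | h1
    · exact absurd (h1 ▸ Finset.mem_of_mem_erase hu) hs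
    · exact absurd (h1 ▸ Finset.mem_of_mem_erase hu) ht
    · exact h1
  set T := insert s (insert t (S.erase m)) with hT
  have hTs : ∀ a ∈ lk G T, G.Adj a s := fun a ha => ha s (Finset.mem_insert_self _ _)
  have hTt : ∀ a ∈ lk G T, G.Adj a t := fun a ha =>
    ha t (Finset.mem_insert_of_mem (Finset.mem_insert_self _ _))
  have hlk : ∀ a ∈ A, a ∈ lk G' S ↔ a = s ∨ a = t ∨ a ∈ lk G T := by
    intro a ha
    rw [lk_a h hSA ha]
    constructor
    · rintro ⟨h1, h2⟩
      rcases h2 hm with h3 | h3 | h3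
      · exact Or.inl h3
      · exact Or.inr (Or.inl h3)
      · refine Or.inr (Or.inr fun u hu => ?_)
        rw [hT, Finset.mem_insert, Finset.mem_insert] at hu
        rcases hu with rfl | rfl | hu
        · exact h3.1.symm
        · exact h3.2.symm
        · exact (h1 u hu).1
    · have hne : ∀ u ∈ S.erase m, s(a, u) ≠ s(s, t) := by
        intro u hu h3
        rw [Sym2.eq_iff] at h3
        rcases h3 with ⟨-, h3⟩ | ⟨-, h3⟩
        · exact ht (h3 ▸ Finset.mem_of_mem_erase hu)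
        · exact hs (h3 ▸ Finset.mem_of_mem_erase hu)
      rintro (h1 | h1 | h1)
      · refine ⟨fun u hu => ⟨?_, hne u hu⟩, fun _ => Or.inl h1⟩
        rw [h1]
        exact (hM' u hu).1
      · refine ⟨fun u hu => ⟨?_, hne u hu⟩, fun _ => Or.inr (Or.inl h1)⟩
        rw [h1]
        exact (hM' u hu).2
      · refine ⟨fun u hu => ⟨?_, hne u hu⟩, fun _ =>
          Or.inr (Or.inr ⟨(hTs a h1).symm, (hTt a h1).symm⟩)⟩
        exact h1 u (Finset.mem_insert_of_mem (Finset.mem_insert_of_mem hu))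
  have hmn : m ∉ lk G' S := fun h1 => ((lk_m h hSA).1 h1).1 hm
  have hmem : ∀ a, a ∈ insert m A ∩ lk G' S ↔ a ∈ A ∧ (a = s ∨ a = t ∨ a ∈ lk G T) := by
    intro a
    constructor
    · rintro ⟨h1 | h1, h2⟩
      · rw [h1] at h2
        exact absurd h2 hmn
      · exact ⟨h1, (hlk a h1).1 h2⟩
    · rintro ⟨h1, h2⟩
      exact ⟨Or.inr h1, (hlk a h1).2 h2⟩
  have hsusp := bb_susp (F := F) (G := G') (A := insert m A ∩ lk G' S) (s := s) (t := t)
    ((hmem s).2 ⟨h.hs, Or.inl rfl⟩) ((hmem t).2 ⟨h.ht, Or.inr (Or.inl rfl)⟩) h.hst.ne h.ns (by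
      intro a hw hws hwt
      obtain ⟨ha, h1⟩ := (hmem a).1 hw
      rcases h1 with h1 | h1 | h1
      · exact absurd h1 hws
      · exact absurd h1 hwt
      · rw [h.cc s h.hs a ha, h.cc t h.ht a ha]
        refine ⟨⟨(hTs a h1).symm, fun h3 => ?_⟩, ⟨(hTt a h1).symm, fun h3 => ?_⟩⟩
        · rw [Sym2.eq_iff] at h3
          rcases h3 with ⟨-, h3⟩ | ⟨-, h3⟩
          · exact hwt h3
          · exact hws h3
        · rw [Sym2.eq_iff] at h3
          rcases h3 with ⟨-, h3⟩ | ⟨-, h3⟩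
          · exact hwt h3
          · exact hws h3)
  have hset : (insert m A ∩ lk G' S) \ {s, t} = A ∩ lk G T := by
    ext a
    constructor
    · rintro ⟨h1, h2⟩
      obtain ⟨ha, h3⟩ := (hmem a).1 h1
      rcases h3 with h3 | h3 | h3
      · exact absurd (Or.inl h3) h2
      · exact absurd (Or.inr h3) h2
      · exact ⟨ha, h3⟩
    · rintro ⟨ha, h1⟩
      refine ⟨(hmem a).2 ⟨ha, Or.inr (Or.inr h1)⟩, ?_⟩
      rintro (h2 | h2)
      · exact (hTs a h1).ne h2
      · exact (hTt a h1).ne h2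
  refine ⟨hsusp.1, fun i => ?_⟩
  rw [hsusp.2 i, hset]
  refine bb_congr (fun u hu v hv => ?_) i
  rw [h.cc u hu.1 v hv.1]
  refine ⟨fun h => h.1, fun h => ⟨h, fun h3 => ?_⟩⟩
  rw [Sym2.eq_iff] at h3
  rcases h3 with ⟨h3, -⟩ | ⟨h3, -⟩
  · exact (hTs u hu.2).ne h3
  · exact (hTt u hu.2).ne h3

/-- away from the edge -/
theorem caseB2 (hc : G.IsClique (S : Set V)) (hSA : (S : Set V) ⊆ A) (hnb : ¬ (s ∈ S ∧ t ∈ S))
    (hM : ¬ ∀ u ∈ S, Md G s t u) (i : ℕ) :
    bb F G' (insert m A ∩ lk G' S) i = bb F G (A ∩ lk G S) i := by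
  classical
  have hz : m ∉ S := fun hz => h.hm (hSA hz)
  have hSA' : (S : Set V) ⊆ insert m A := hSA.trans (Set.subset_insert _ _)
  have hset : insert m A ∩ lk G' S = A ∩ lk G S := by
    ext a
    constructor
    · rintro ⟨h1 | h1, h2⟩
      · rw [h1] at h2
        exact absurd ((lk_m h hSA').1 h2).2 hM
      · refine ⟨h1, fun u hu => ?_⟩
        exact (((lk_a h hSA' h1).1 h2).1 u (Finset.mem_erase.2 ⟨fun e => hz (e ▸ hu), hu⟩)).1
    · rintro ⟨h1, h2⟩
      refine ⟨Or.inr h1, (lk_a h hSA' h1).2 ⟨fun u hu => ?_, fun h3 => absurd h3 hz⟩⟩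
      have hu := Finset.mem_of_mem_erase hu
      refine ⟨h2 u hu, fun h3 => ?_⟩
      rw [Sym2.eq_iff] at h3
      apply hM
      rcases h3 with ⟨h3, h4⟩ | ⟨h3, h4⟩
      · intro u' hu'
        by_cases h5 : u' = t
        · exact Or.inr (Or.inl h5)
        · refine Or.inr (Or.inr ⟨?_, ?_⟩)
          · rw [← h3]
            exact h2 u' hu'
          · rw [← h4]
            exact hc hu hu' (by rw [h4]; exact fun e => h5 e.symm)
      · intro u' hu'
        by_cases h5 : u' = s
        · exact Or.inl h5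
        · refine Or.inr (Or.inr ⟨?_, ?_⟩)
          · rw [← h4]
            exact hc hu hu' (by rw [h4]; exact fun e => h5 e.symm)
          · rw [← h3]
            exact h2 u' hu'
  rw [hset]
  refine bb_congr (fun u hu v hv => ?_) i
  rw [h.cc u hu.1 v hv.1]
  refine ⟨fun h => h.1, fun h4 => ⟨h4, fun h3 => ?_⟩⟩
  rw [Sym2.eq_iff] at h3
  apply hM
  intro w hw
  refine Or.inr (Or.inr ?_)
  rcases h3 with ⟨h3, h4⟩ | ⟨h3, h4⟩
  · rw [← h3, ← h4]
    exact ⟨hu.2 w hw, hv.2 w hw⟩
  · rw [← h3, ← h4]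
    exact ⟨hv.2 w hw, hu.2 w hw⟩

/-- one end -/
theorem caseB1a (hSA : (S : Set V) ⊆ A) (hM : ∀ u ∈ S, Md G s t u) (hs : s ∈ S) (ht : t ∉ S) (i : ℕ) :
    bb F G' (insert m A ∩ lk G' S) i = bb F G (A ∩ lk G S) i := by
  classical
  have hz : m ∉ S := fun hz => h.hm (hSA hz)
  have hSA' : (S : Set V) ⊆ insert m A := hSA.trans (Set.subset_insert _ _)
  have htl : t ∈ lk G S := by
    intro u hu
    rcases hM u hu with h1 | h1 | h1
    · rw [h1]
      exact h.hst.symm
    · exact absurd (h1 ▸ hu) ht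
    · exact h1.2
  have hsm : s ≠ m := fun e => h.hm (e ▸ h.hs)
  have htm : t ≠ m := fun e => h.hm (e ▸ h.ht)
  have hset : insert m A ∩ lk G' S = insert m ((A ∩ lk G S) \ {t}) := by
    ext a
    constructor
    · rintro ⟨h1 | h1, h2⟩
      · exact Or.inl h1
      · right
        have h3 := (lk_a h hSA' h1).1 h2
        refine ⟨⟨h1, fun u hu => (h3.1 u (Finset.mem_erase.2 ⟨fun e => hz (e ▸ hu), hu⟩)).1⟩,
          fun h4 => ?_⟩
        have h4 : a = t := h4
        exact (h3.1 s (Finset.mem_erase.2 ⟨hsm, hs⟩)).2 (by rw [h4, Sym2.eq_swap])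
    · rintro (h1 | ⟨⟨h1, h2⟩, h3⟩)
      · rw [h1]
        exact ⟨Or.inl rfl, (lk_m h hSA').2 ⟨hz, hM⟩⟩
      · refine ⟨Or.inr h1, (lk_a h hSA' h1).2 ⟨fun u hu => ?_, fun h4 => absurd h4 hz⟩⟩
        refine ⟨h2 u (Finset.mem_of_mem_erase hu), fun h4 => ?_⟩
        rw [Sym2.eq_iff] at h4
        rcases h4 with ⟨h4, -⟩ | ⟨h4, -⟩
        · exact (h2 s hs).ne h4
        · exact h3 h4
  have hsl : s ∉ lk G S := fun h1 => G.loopless.irrefl _ (h1 s hs)
  have hmX : m ∉ A ∩ lk G S := fun h1 => h.hm h1.1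
  have e1 : bb F G' (insert m ((A ∩ lk G S) \ {t})) i =
      bb F (gg G' s t) (insert m ((A ∩ lk G S) \ {t})) i := by
    refine bb_congr (fun u hu v hv => ?_) i
    rw [← gg_del h, SimpleGraph.deleteEdges_adj, Set.mem_singleton_iff, gg_del h]
    refine ⟨fun h => h.1, fun h => ⟨h, fun h3 => ?_⟩⟩
    have key : t ∉ insert m ((A ∩ lk G S) \ {t}) := by
      rintro (h | h)
      · exact htm h
      · exact h.2 rfl
    rw [Sym2.eq_iff] at h3
    rcases h3 with ⟨-, h3⟩ | ⟨h3, -⟩
    · exact key (h3 ▸ hv)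
    · exact key (h3 ▸ hu)
  have e2 : bb F (gg G' s t) (insert t (insert m ((A ∩ lk G S) \ {t}))) i =
      bb F (gg G' s t) (insert m ((A ∩ lk G S) \ {t})) i := by
    refine bb_dom (u := m) ?_ (Or.inl rfl) ((gg_mc h h.ht).2 (Or.inr (Or.inl rfl))).symm ?_ i
    · rintro (h | h)
      · exact htm h
      · exact h.2 rfl
    · rintro w (hw | ⟨⟨hwA, hw⟩, hwt⟩) h1 h2
      · exact absurd hw h2
      · rw [gg_cc h h.ht hwA] at h1
        rw [gg_mc h hwA]
        exact Or.inr (Or.inr ⟨(hw s hs).symm, h1⟩)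
  have e3 : insert t (insert m ((A ∩ lk G S) \ {t})) = insert m (A ∩ lk G S) := by
    have h0 : t ∈ A ∩ lk G S := ⟨h.ht, htl⟩
    rw [Set.insert_comm, Set.insert_sdiff_singleton, Set.insert_eq_of_mem h0]
  have e4 : bb F (gg G' s t) (insert m (A ∩ lk G S)) i = bb F (gg G' s t) (A ∩ lk G S) i := by
    refine bb_dom (u := t) hmX ⟨h.ht, htl⟩ ((gg_mc h h.ht).2 (Or.inr (Or.inl rfl))) ?_ i
    rintro w ⟨hwA, hw⟩ h1 h2
    rw [gg_mc h hwA] at h1
    rw [gg_cc h h.ht hwA]
    rcases h1 with h1 | h1 | h1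
    · exact absurd (h1 ▸ hw) hsl
    · exact absurd h1 h2
    · exact h1.2
  rw [hset, e1, ← e2, e3, e4]
  exact bb_congr (fun u hu v hv => gg_cc h hu.1 hv.1) i

/-- no end -/
theorem caseB1c (hSA : (S : Set V) ⊆ A) (hM : ∀ u ∈ S, Md G s t u) (hs : s ∉ S) (ht : t ∉ S) (i : ℕ) :
    bb F G' (insert m A ∩ lk G' S) i = bb F G (A ∩ lk G S) i := by
  classical
  have hz : m ∉ S := fun hz => h.hm (hSA hz)
  have hSA' : (S : Set V) ⊆ insert m A := hSA.trans (Set.subset_insert _ _)
  have hM' : ∀ u ∈ S, G.Adj s u ∧ G.Adj t u := by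
    intro u hu
    rcases hM u hu with h1 | h1 | h1
    · exact absurd (h1 ▸ hu) hs
    · exact absurd (h1 ▸ hu) ht
    · exact h1
  have hsl : s ∈ lk G S := fun u hu => (hM' u hu).1
  have htl : t ∈ lk G S := fun u hu => (hM' u hu).2
  have hmX : m ∉ A ∩ lk G S := fun h1 => h.hm h1.1
  have hset : insert m A ∩ lk G' S = insert m (A ∩ lk G S) := by
    ext a
    constructor
    · rintro ⟨h1 | h1, h2⟩
      · exact Or.inl h1
      · right
        have h3 := (lk_a h hSA' h1).1 h2
        exact ⟨h1, fun u hu => (h3.1 u (Finset.mem_erase.2 ⟨fun e => hz (e ▸ hu), hu⟩)).1⟩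
    · rintro (h1 | ⟨h1, h2⟩)
      · rw [h1]
        exact ⟨Or.inl rfl, (lk_m h hSA').2 ⟨hz, hM⟩⟩
      · refine ⟨Or.inr h1, (lk_a h hSA' h1).2 ⟨fun u hu => ?_, fun h4 => absurd h4 hz⟩⟩
        have hu := Finset.mem_of_mem_erase hu
        refine ⟨h2 u hu, fun h4 => ?_⟩
        rw [Sym2.eq_iff] at h4
        rcases h4 with ⟨-, h4⟩ | ⟨-, h4⟩
        · exact ht (h4 ▸ hu)
        · exact hs (h4 ▸ hu)
  have e1 : bb F G' (insert m (A ∩ lk G S)) i = bb F (gg G' s t) (insert m (A ∩ lk G S)) i := by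
    have e0 := bb_del (F := F) (G := gg G' s t) (A := insert m (A ∩ lk G S))
      (s := s) (t := t) (Or.inr ⟨h.hs, hsl⟩) (Or.inr ⟨h.ht, htl⟩)
      ((gg_cc h h.hs h.ht).2 h.hst) (bb_cone (u := m) ⟨Or.inl rfl, ((gg_mc h h.hs).2 (Or.inl rfl)).symm,
        ((gg_mc h h.ht).2 (Or.inr (Or.inl rfl))).symm⟩ (by
        rintro w ⟨hw | ⟨ha, hw⟩, h1, h2⟩ h3
        · exact absurd hw h3
        · have h1' : (gg G' s t).Adj s w := h1
          have h2' : (gg G' s t).Adj t w := h2
          rw [gg_cc h h.hs ha] at h1'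
          rw [gg_cc h h.ht ha] at h2'
          rw [gg_mc h ha]
          exact Or.inr (Or.inr ⟨h1', h2'⟩))) i
    rwa [gg_del h] at e0
  have e2 : bb F (gg G' s t) (insert m (A ∩ lk G S)) i = bb F (gg G' s t) (A ∩ lk G S) i := by
    refine bb_dom (u := s) hmX ⟨h.hs, hsl⟩ ((gg_mc h h.hs).2 (Or.inl rfl)) ?_ i
    rintro w ⟨hwA, hw⟩ h1 h2
    rw [gg_mc h hwA] at h1
    rw [gg_cc h h.hs hwA]
    rcases h1 with h1 | h1 | h1
    · exact absurd h1 h2
    · rw [h1]
      exact h.hst
    · exact h1.1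
  rw [hset, e1, e2]
  exact bb_congr (fun u hu v hv => gg_cc h hu.1 hv.1) i

/-- cliques of `G` in `A` which do not contain the edge -/
theorem caseB (hc : G.IsClique (S : Set V)) (hSA : (S : Set V) ⊆ A) (hnb : ¬ (s ∈ S ∧ t ∈ S)) (i : ℕ) :
    bb F G' (insert m A ∩ lk G' S) i = bb F G (A ∩ lk G S) i := by
  by_cases hM : ∀ u ∈ S, Md G s t u
  · by_cases hs : s ∈ S
    · exact caseB1a h hSA hM hs (fun ht => hnb ⟨hs, ht⟩) i
    · by_cases ht : t ∈ S
      · exact caseB1a h.symm hSA (fun u hu => (md_comm u).1 (hM u hu)) ht hs i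
      · exact caseB1c h hSA hM hs ht i
  · exact caseB2 h hc hSA hnb hM i

end cases

/-- An edge subdivision of a flag homology sphere is a homology sphere. -/
theorem sd_fwd (h : Sd G G' A m s t) (hG : HSF F k G A) : HSF F k G' (insert m A) := by
  classical
  intro S hS hSA i
  have hbA : ∀ u ∈ S, u ≠ m → u ∈ A := fun u hu hum => (hSA hu).resolve_left hum
  have hsm : s ≠ m := fun e => h.hm (e ▸ h.hs)
  have htm : t ≠ m := fun e => h.hm (e ▸ h.ht)
  have hnb : ¬ (s ∈ S ∧ t ∈ S) := fun h1 => h.ns (hS h1.1 h1.2 h.hst.ne)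
  by_cases hz : m ∈ S
  · have hM : ∀ u ∈ S.erase m, Md G s t u := fun u hu =>
      (h.mc u (hbA u (Finset.mem_of_mem_erase hu) (Finset.ne_of_mem_erase hu))).1
        (hS hz (Finset.mem_of_mem_erase hu) (Finset.ne_of_mem_erase hu).symm)
    have hcl : G.IsClique ((S.erase m : Finset V) : Set V) := by
      intro a ha b hb hab
      have ha := Finset.mem_erase.1 (Finset.mem_coe.1 ha)
      have hb := Finset.mem_erase.1 (Finset.mem_coe.1 hb)
      exact ((h.cc a (hbA a ha.2 ha.1) b (hbA b hb.2 hb.1)).1 (hS ha.2 hb.2 hab)).1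
    have hcE : ((S.erase m : Finset V) : Set V) ⊆ A := fun a ha =>
      hbA a (Finset.mem_of_mem_erase (Finset.mem_coe.1 ha)) (Finset.ne_of_mem_erase (Finset.mem_coe.1 ha))
    have hcard : (S.erase m).card + 1 = S.card := Finset.card_erase_add_one hz
    have one : ∀ {s t : V}, Sd G G' A m s t → s ∈ S → t ∉ S → s ≠ m →
        (∀ u ∈ S.erase m, Md G s t u) → bb F G' (insert m A ∩ lk G' S) i = if i + S.card = k then 1 else 0 := by
      intro s t h hs ht hsm hM
      rw [caseA1 h hSA hz hs, hG]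
      · have : (insert t (S.erase m)).card = S.card := by
          rw [Finset.card_insert_of_notMem (fun h1 => ht (Finset.mem_of_mem_erase h1)), hcard]
        rw [this]
      · rw [Finset.coe_insert, SimpleGraph.isClique_insert]
        refine ⟨hcl, fun b hb hbt => ?_⟩
        rcases hM b hb with h1 | h1 | h1
        · rw [h1]
          exact h.hst.symm
        · exact absurd h1.symm hbt
        · exact h1.2
      · rw [Finset.coe_insert]
        exact Set.insert_subset h.ht hcE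
    by_cases hs : s ∈ S
    · exact one h hs (fun ht => hnb ⟨hs, ht⟩) hsm hM
    · by_cases ht : t ∈ S
      · exact one h.symm ht hs htm (fun u hu => (md_comm u).1 (hM u hu))
      · have hM' : ∀ u ∈ S.erase m, G.Adj s u ∧ G.Adj t u := by
          intro u hu
          rcases hM u hu with h1 | h1 | h1
          · exact absurd (h1 ▸ Finset.mem_of_mem_erase hu) hs
          · exact absurd (h1 ▸ Finset.mem_of_mem_erase hu) ht
          · exact h1
        have hs' : s ∉ insert t (S.erase m) := by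
          rw [Finset.mem_insert, not_or]
          exact ⟨h.hst.ne, fun h1 => hs (Finset.mem_of_mem_erase h1)⟩
        have hTc : G.IsClique ((insert s (insert t (S.erase m)) : Finset V) : Set V) := by
          rw [Finset.coe_insert, SimpleGraph.isClique_insert, Finset.coe_insert,
            SimpleGraph.isClique_insert]
          refine ⟨⟨hcl, fun b hb _ => (hM' b hb).2⟩, fun b hb _ => ?_⟩
          rcases hb with rfl | hb
          · exact h.hst
          · exact (hM' b hb).1
        have hTA : ((insert s (insert t (S.erase m)) : Finset V) : Set V) ⊆ A := by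
          rw [Finset.coe_insert, Finset.coe_insert]
          exact Set.insert_subset h.hs (Set.insert_subset h.ht hcE)
        have hcd : (insert s (insert t (S.erase m))).card = S.card + 1 := by
          rw [Finset.card_insert_of_notMem hs',
            Finset.card_insert_of_notMem (fun h1 => ht (Finset.mem_of_mem_erase h1)), hcard]
        obtain ⟨e0, e1⟩ := caseA3 (F := F) h hSA hz hs ht hM
        cases i with
        | zero =>
          have h1 := no_big hG hTc hTA
          rw [hcd] at h1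
          rw [e0, if_neg (by omega)]
        | succ i =>
          rw [e1 i, hG _ hTc hTA i, hcd]
          congr 1
          rw [eq_iff_iff]
          omega
  · have hSA2 : (S : Set V) ⊆ A := fun a ha => hbA a ha (fun e => hz (e ▸ ha))
    have hc : G.IsClique (S : Set V) := by
      intro a ha b hb hab
      exact ((h.cc a (hSA2 ha) b (hSA2 hb)).1 (hS ha hb hab)).1
    rw [caseB h hc hSA2 hnb i, hG S hc hSA2 i]


end sd

/-- suspensions -/
theorem hs_susp {G : SimpleGraph V} {A : Set V} {s t : V} {k : ℕ} (hs : s ∉ A) (ht : t ∉ A)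
    (hst : s ≠ t) (hn : ¬ G.Adj s t) (hsA : ∀ a ∈ A, G.Adj s a) (htA : ∀ a ∈ A, G.Adj t a)
    (hG : HSF F k G A) : HSF F (k + 1) G (insert s (insert t A)) := by
  classical
  intro S hS hSA i
  have one : ∀ {s t : V}, s ∉ A → t ∉ A → s ≠ t → ¬ G.Adj s t → (∀ a ∈ A, G.Adj s a) →
      (∀ a ∈ A, G.Adj t a) → (S : Set V) ⊆ insert s (insert t A) → s ∈ S →
      bb F G (insert s (insert t A) ∩ lk G S) i = if i + S.card = k + 1 then 1 else 0 := by
    intro s t hs ht hst hn hsA htA hSA hsS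
    have htS : t ∉ S := fun h => hn (hS hsS h hst)
    have hSE : ((S.erase s : Finset V) : Set V) ⊆ A := by
      intro a ha
      have ha := Finset.mem_erase.1 (Finset.mem_coe.1 ha)
      rcases hSA ha.2 with h1 | h1 | h1
      · exact absurd h1 ha.1
      · exact absurd (h1 ▸ ha.2) htS
      · exact h1
    have hset : insert s (insert t A) ∩ lk G S = A ∩ lk G (S.erase s) := by
      ext a
      constructor
      · rintro ⟨h1, h2⟩
        have h3 := h2 s hsS
        refine ⟨?_, fun u hu => h2 u (Finset.mem_of_mem_erase hu)⟩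
        rcases h1 with h1 | h1 | h1
        · rw [h1] at h3
          exact absurd h3 (G.loopless.irrefl _)
        · rw [h1] at h3
          exact absurd h3.symm hn
        · exact h1
      · rintro ⟨h1, h2⟩
        refine ⟨Or.inr (Or.inr h1), fun u hu => ?_⟩
        by_cases hus : u = s
        · rw [hus]
          exact (hsA a h1).symm
        · exact h2 u (Finset.mem_erase.2 ⟨hus, hu⟩)
    rw [hset, hG _ (hS.subset (by exact_mod_cast Finset.erase_subset s S)) hSE i]
    have := Finset.card_erase_add_one hsS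
    congr 1
    rw [eq_iff_iff]
    omega
  by_cases hsS : s ∈ S
  · exact one hs ht hst hn hsA htA hSA hsS
  · by_cases htS : t ∈ S
    · rw [Set.insert_comm]
      rw [Set.insert_comm] at hSA
      exact one ht hs hst.symm (fun h => hn h.symm) htA hsA hSA htS
    · have hSA' : (S : Set V) ⊆ A := by
        intro a ha
        rcases hSA ha with h1 | h1 | h1
        · exact absurd (h1 ▸ ha) hsS
        · exact absurd (h1 ▸ ha) htS
        · exact h1
      have hsusp := bb_susp (F := F) (G := G) (A := insert s (insert t A) ∩ lk G S) (s := s) (t := t)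
        ⟨Or.inl rfl, fun u hu => hsA u (hSA' hu)⟩ ⟨Or.inr (Or.inl rfl), fun u hu => htA u (hSA' hu)⟩
        hst hn (by
          rintro w ⟨h1 | h1 | h1, h2⟩ h3 h4
          · exact absurd h1 h3
          · exact absurd h1 h4
          · exact ⟨hsA w h1, htA w h1⟩)
      have hset : (insert s (insert t A) ∩ lk G S) \ {s, t} = A ∩ lk G S := by
        ext a
        constructor
        · rintro ⟨⟨h1 | h1 | h1, h2⟩, h3⟩
          · exact absurd (Or.inl h1) h3
          · exact absurd (Or.inr h1) h3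
          · exact ⟨h1, h2⟩
        · rintro ⟨h1, h2⟩
          refine ⟨⟨Or.inr (Or.inr h1), h2⟩, ?_⟩
          rintro (h3 | h3)
          · exact hs (h3 ▸ h1)
          · exact ht (h3 ▸ h1)
      cases i with
      | zero =>
        have := no_big hG hS hSA'
        rw [hsusp.1, if_neg (by omega)]
      | succ i =>
        rw [hsusp.2 i, hset, hG S hS hSA' i]
        congr 1
        rw [eq_iff_iff]
        omega

/-- the empty sphere -/
theorem hs_empty (F : Type) [Field F] (G : SimpleGraph V) : HSF F 0 G ∅ := by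
  classical
  intro S hS hSA i
  have hS0 : S = ∅ := by
    rw [Finset.eq_empty_iff_forall_notMem]
    exact fun x hx => hSA hx
  subst hS0
  rw [Set.empty_inter, Finset.card_empty, add_zero]
  exact bb_empty F G i


end Run7.h636.LT.Ctr
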