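import Pool.Agent.Run7.h636.LT.C.ChkF

/-!
# Project LT (helper636): a fast check of the condition for contractions
-/

set_option autoImplicit false
set_option linter.unusedVariables false

namespace Run7.h636.LT.Ctr

open Pool.Agent.Run7.h308.LT.Chk

/-- The bits of `P` at distance `w`. -/
def tt (w : ℕ) : ℕ → ℕ → ℕ
  | 0, _ => 0
  | k + 1, P => 2 ^ w * tt w k (P / 2) + P % 2

theorem tt_mul {w Q : ℕ} (hw : 0 < w) (hQ : Q < 2 ^ w) (k : ℕ) : ∀ P y x, y < k → x < w →
    (tt w k P * Q).testBit (y * w + x) = (P.testBit y && Q.testBit x) := by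
  induction k with
  | zero =>
    intro P y x hy
    omega
  | succ k ih =>
    intro P y x hy hx
    have h1 : tt w (k + 1) P * Q = 2 ^ w * (tt w k (P / 2) * Q) + (P % 2) * Q := by
      rw [tt]
      ring
    have h2 : (P % 2) * Q < 2 ^ w := by
      rcases Nat.mod_two_eq_zero_or_one P with h | h
      · rw [h, Nat.zero_mul]
        positivity
      · rw [h, Nat.one_mul]
        exact hQ
    rw [h1, Nat.testBit_two_pow_mul_add _ h2]
    cases y with
    | zero =>
      rw [if_pos (by omega), Nat.zero_mul, Nat.zero_add]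
      rcases Nat.mod_two_eq_zero_or_one P with h | h
      · rw [h, Nat.zero_mul, Nat.zero_testBit, Nat.testBit_zero, h]
        rfl
      · rw [h, Nat.one_mul, Nat.testBit_zero P, h]
        rfl
    | succ y =>
      have h3 : (y + 1) * w + x = (y * w + x) + w := by ring
      rw [h3, if_neg (by omega), Nat.add_sub_cancel, ih _ _ _ (by omega) hx, Nat.testBit_div_two]

theorem tt_lt {w : ℕ} (hw : 0 < w) (k : ℕ) : ∀ P, tt w k P < 2 ^ (w * k) := by
  induction k with
  | zero =>
    intro P
    rw [tt]
    positivity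
  | succ k ih =>
    intro P
    have h1 := ih (P / 2)
    have h2 : P % 2 < 2 := Nat.mod_lt _ (by norm_num)
    have h3 : 2 ^ 1 ≤ 2 ^ w := Nat.pow_le_pow_right (by norm_num) hw
    have h4 : 2 ^ (w * (k + 1)) = 2 ^ w * 2 ^ (w * k) := by
      rw [Nat.mul_succ, pow_add, mul_comm]
    rw [tt, h4]
    calc 2 ^ w * tt w k (P / 2) + P % 2 < 2 ^ w * tt w k (P / 2) + 2 ^ w := by omega
      _ = 2 ^ w * (tt w k (P / 2) + 1) := by ring
      _ ≤ 2 ^ w * 2 ^ (w * k) := Nat.mul_le_mul_left _ h1

theorem sp_eq {n P : ℕ} (hn : 0 < n) (hP : P < 2 ^ n) : sp n P = tt (n + 1) (n + 1) P := by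
  refine Nat.eq_of_testBit_eq fun i => ?_
  rw [testBit_sp hn hP]
  have hi : i = i / (n + 1) * (n + 1) + i % (n + 1) := by
    have := Nat.div_add_mod i (n + 1)
    rw [Nat.mul_comm] at this
    exact this.symm
  rcases Nat.lt_or_ge (i / (n + 1)) (n + 1) with h | h
  · have h1 := tt_mul (w := n + 1) (Q := 1) (by omega) (Nat.one_lt_two_pow (by omega)) (n + 1) P _ _ h
      (Nat.mod_lt i (by omega : 0 < n + 1))
    rw [← hi, Nat.mul_one] at h1
    rw [h1, Bool.and_comm]
    congr 1
    rcases Nat.eq_zero_or_pos (i % (n + 1)) with h2 | h2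
    · rw [h2]
      rfl
    · rw [decide_eq_false (by omega)]
      symm
      refine Nat.testBit_lt_two_pow ?_
      calc 1 < 2 ^ 1 := by norm_num
        _ ≤ 2 ^ (i % (n + 1)) := Nat.pow_le_pow_right (by norm_num) h2
  · have h1 : P.testBit (i / (n + 1)) = false := Nat.testBit_lt_two_pow (lt_of_lt_of_le hP
      (Nat.pow_le_pow_right (by norm_num) (by omega)))
    rw [h1, Bool.and_false]
    symm
    refine Nat.testBit_lt_two_pow (lt_of_lt_of_le (tt_lt (by omega) _ P) (Nat.pow_le_pow_right (by norm_num) ?_))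
    exact (Nat.le_div_iff_mul_le (by omega)).1 h |>.trans' (by rw [Nat.mul_comm])

/-- all the rows of the vertices in `P` avoid `Q` -/
def av2 (n R1 R2 M Q P : ℕ) : Bool :=
  Nat.beq (Nat.land M (Nat.mul (Nat.land (Nat.mul P R1) R2) Q)) 0

theorem av2_spec {n R1 R2 M Q P : ℕ} (hR : Cst n R1 R2) (hn : 0 < n) (hP : P < 2 ^ n) (hQ : Q < 2 ^ n)
    (h : av2 n R1 R2 M Q P = true) : ∀ y, P.testBit y = true → ∀ x, x < n →
    Q.testBit x = true → M.testBit (y * (n + 1) + x) = false := by
  intro y hy x hx hq
  unfold av2 at h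
  rw [Nat.beq_eq, hR.e1, hR.e2] at h
  have h1 : M &&& (sp n P * Q) = 0 := h
  have hyn : y < n := by
    by_contra hcon
    rw [Nat.testBit_lt_two_pow (lt_of_lt_of_le hP (Nat.pow_le_pow_right (by norm_num) (not_lt.1 hcon)))] at hy
    exact absurd hy (by simp)
  have h2 := congrArg (fun z : ℕ => z.testBit (y * (n + 1) + x)) h1
  simp only [Nat.testBit_and, Nat.zero_testBit] at h2
  rw [sp_eq hn hP, tt_mul (by omega) (lt_trans hQ (Nat.pow_lt_pow_right (by norm_num) (by omega))) (n + 1) P y x
    (by omega) (by omega), hy, hq, Bool.and_true, Bool.and_true] at h2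
  exact h2

theorem av_of {n M Q : ℕ} : ∀ (f P : ℕ), P < 2 ^ f → (∀ y, P.testBit y = true → ∀ x, x < n →
    Q.testBit x = true → M.testBit (y * (n + 1) + x) = false) → av n M Q f P = true := by
  intro f
  induction f with
  | zero =>
    intro P hP h
    rw [av, Nat.beq_eq]
    omega
  | succ f ih =>
    intro P hP h
    rw [av]
    by_cases h0 : P = 0
    · rw [h0]
      rfl
    have hb : Nat.beq P 0 = false := by
      rw [Bool.eq_false_iff]
      exact fun h' => h0 (Nat.eq_of_beq_eq_true h')
    have hl := log2_bit h0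
    rw [hb, cond_false, Bool.and_eq_true, Nat.beq_eq]
    constructor
    · refine Nat.eq_of_testBit_eq fun i => ?_
      have h1 : Nat.land (row n M (Nat.log2 P)) Q = row n M (Nat.log2 P) &&& Q := rfl
      rw [h1, Nat.testBit_and, testBit_row, Nat.zero_testBit]
      by_cases hi : i < n
      · cases hq : Q.testBit i with
        | false => rw [Bool.and_false]
        | true => rw [h _ hl i hi hq, Bool.and_false, Bool.false_and]
      · rw [decide_eq_false hi, Bool.false_and, Bool.false_and]
    · have hbits : ∀ y, (P ^^^ 2 ^ Nat.log2 P).testBit y = (P.testBit y && !decide (y = Nat.log2 P)) := by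
        intro y
        rw [Nat.testBit_xor, Nat.testBit_two_pow]
        by_cases hy : y = Nat.log2 P
        · rw [hy, hl, decide_eq_true rfl]
          rfl
        · rw [decide_eq_false hy, decide_eq_false (fun e => hy e.symm), Bool.xor_false, Bool.not_false, Bool.and_true]
      refine ih _ ?_ ?_
      · show P ^^^ 2 ^ Nat.log2 P < 2 ^ f
        have hlf : Nat.log2 P ≤ f := by
          have h1 : 2 ^ Nat.log2 P ≤ P := Nat.log2_self_le h0
          have h2 : 2 ^ Nat.log2 P < 2 ^ (f + 1) := lt_of_le_of_lt h1 hP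
          exact Nat.lt_succ_iff.1 ((Nat.pow_lt_pow_iff_right (by norm_num)).1 h2)
        refine Nat.lt_pow_two_of_testBit _ fun i hi => ?_
        rw [hbits]
        by_cases h1 : i = Nat.log2 P
        · rw [decide_eq_true h1]
          simp
        · rw [Nat.testBit_lt_two_pow (lt_of_lt_of_le (Nat.lt_log2_self (n := P)) (Nat.pow_le_pow_right (by norm_num)
            (by omega))), Bool.false_and]
      · intro y hy
        have hy : (P ^^^ 2 ^ Nat.log2 P).testBit y = true := hy
        rw [hbits, Bool.and_eq_true] at hy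
        exact h y hy.1

end Run7.h636.LT.Ctr
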