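import Pool.Agent.Run7.h636.LT.S.Shd
import Pool.Agent.Run7.h308.LT.ChkB

/-!
# Project LT (helper636): doubled cycles from tables
-/

set_option autoImplicit false

noncomputable section

namespace Run7.h636.LT.Tab

open Pool.Agent.Run7.h308.LT.Chk (bt bt_eq)
open Pool.Agent.W907.SG
open Run7.h636.LT.S (Shd)

/-- the graph of a number -/
abbrev fin := Pool.Agent.Run7.h308.LT.Chk.fin

/-- values of a table -/
def look : List (ℕ × ℕ) → ℕ → ℕ
  | [], _ => 0
  | p :: L, c => cond (Nat.beq p.1 c) p.2 (look L c)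

theorem look_mem (L : List (ℕ × ℕ)) (c : ℕ) (h : look L c ≠ 0) : ∃ p ∈ L, p.1 = c := by
  induction L with
  | nil => exact absurd rfl h
  | cons p L ih =>
    rw [look] at h
    cases hc : Nat.beq p.1 c with
    | true => exact ⟨p, List.mem_cons_self, Nat.eq_of_beq_eq_true hc⟩
    | false =>
      rw [hc, cond_false] at h
      obtain ⟨q, hq, e⟩ := ih h
      exact ⟨q, List.mem_cons_of_mem _ hq, e⟩

/-- the number of a set -/
def code (σ : Finset (Fin 19)) : ℕ := Nat.ofBits fun v : Fin 19 => decide (v ∈ σ)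

theorem code_bit (σ : Finset (Fin 19)) (v : Fin 19) : (code σ).testBit v = decide (v ∈ σ) :=
  Nat.testBit_ofBits_lt _ _ v.2

theorem code_ge (σ : Finset (Fin 19)) (i : ℕ) (h : 19 ≤ i) : (code σ).testBit i = false :=
  Nat.testBit_ofBits_ge _ _ h

theorem code_insert (σ : Finset (Fin 19)) (v : Fin 19) : code (insert v σ) = code σ ||| 2 ^ (v : ℕ) := by
  refine Nat.eq_of_testBit_eq fun i => ?_
  rw [Nat.testBit_or, Nat.testBit_two_pow]
  rcases Nat.lt_or_ge i 19 with h | h
  · have e1 := code_bit (insert v σ) ⟨i, h⟩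
    have e2 := code_bit σ ⟨i, h⟩
    rw [show (code (insert v σ)).testBit i = _ from e1, show (code σ).testBit i = _ from e2]
    by_cases h1 : (⟨i, h⟩ : Fin 19) ∈ σ
    · rw [decide_eq_true h1, decide_eq_true (Finset.mem_insert_of_mem h1)]
      rfl
    · rw [decide_eq_false h1, Bool.false_or]
      refine decide_eq_decide.2 ?_
      rw [Finset.mem_insert]
      constructor
      · rintro (h2 | h2)
        · exact (congrArg Fin.val h2).symm
        · exact absurd h2 h1
      · intro h2
        exact Or.inl (Fin.ext h2.symm)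
  · rw [code_ge _ _ h, code_ge _ _ h, decide_eq_false (by omega)]
    rfl

/-- the number of bits below `v` -/
def pc (t v : ℕ) : ℕ := ((List.range 19).map fun u => cond (Nat.ble (Nat.succ u) v && bt t u) 1 0).sum

theorem sum_list (f : ℕ → ℕ) : ((List.range 19).map f).sum = ∑ u : Fin 19, f u := by
  rw [Fin.sum_univ_eq_sum_range f 19]
  rfl

theorem pc_eq (τ : Finset (Fin 19)) (v : ℕ) : pc (code τ) v = (τ.filter fun u : Fin 19 => (u : ℕ) < v).card := by
  unfold pc
  rw [sum_list, Finset.card_eq_sum_ones, Finset.sum_filter, ← Finset.sum_subset (Finset.subset_univ τ)]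
  · refine Finset.sum_congr rfl fun u hu => ?_
    rw [bt_eq, code_bit, decide_eq_true hu, Bool.and_true]
    by_cases h : (u : ℕ) < v
    · rw [if_pos h, show Nat.ble (Nat.succ u) v = true from (by rw [Nat.ble_eq]; exact h)]
      rfl
    · rw [if_neg h, show Nat.ble (Nat.succ u) v = false from Bool.eq_false_iff.2 fun h' => h (by rw [Nat.ble_eq] at h'; exact h')]
      rfl
  · intro u _ hu
    rw [bt_eq, code_bit, decide_eq_false hu, Bool.and_false]
    rfl

/-- the boundary -/
def bs (L : List (ℕ × ℕ)) (t : ℕ) : ℕ :=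
  ((List.range 19).map fun v => cond (bt t v) 0 (Nat.mul (Nat.pow 2 (pc t v)) (look L (Nat.lor t (Nat.pow 2 v))))).sum

/-- the check of a cycle -/
def ckZ (L : List (ℕ × ℕ)) : Bool := L.all fun p =>
  Nat.beq (pc p.1 19) 4 && (List.range 19).all fun v => !bt p.1 v || Nat.beq (Nat.mod (bs L (Nat.xor p.1 (Nat.pow 2 v))) 3) 0

/-- the chain of a table -/
def zz (L : List (ℕ × ℕ)) (σ : Finset (Fin 19)) : ZMod 3 := (look L (code σ) : ℕ)

theorem bs_eq (L : List (ℕ × ℕ)) (τ : Finset (Fin 19)) :
    ∑ v ∈ τᶜ, (sg v τ) • zz L (insert v τ) = ((bs L (code τ) : ℕ) : ZMod 3) := by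
  unfold bs
  rw [sum_list, Nat.cast_sum, ← Finset.sum_subset (Finset.subset_univ τᶜ)]
  · refine Finset.sum_congr rfl fun v hv => ?_
    have hv := Finset.mem_compl.1 hv
    rw [bt_eq, code_bit, decide_eq_false hv, cond_false]
    have h1 : Nat.lor (code τ) (Nat.pow 2 v) = code (insert v τ) := (code_insert τ v).symm
    rw [h1]
    have h2 : Nat.mul (Nat.pow 2 (pc (code τ) v)) (look L (code (insert v τ))) =
        2 ^ (pc (code τ) v) * look L (code (insert v τ)) := rfl
    rw [h2, Nat.cast_mul, Nat.cast_pow, pc_eq, zsmul_eq_mul]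
    unfold zz sg
    rw [Int.cast_pow]
    have h3 : ((-1 : ℤ) : ZMod 3) = ((2 : ℕ) : ZMod 3) := by decide
    rw [h3]
    rfl
  · intro v _ hv
    have hv : v ∈ τ := by
      by_contra h
      exact hv (Finset.mem_compl.2 h)
    rw [bt_eq, code_bit, decide_eq_true hv, cond_true, Nat.cast_zero]

theorem zz_key (L : List (ℕ × ℕ)) (σ : Finset (Fin 19)) (h : zz L σ ≠ 0) : ∃ p ∈ L, p.1 = code σ := by
  refine look_mem L _ fun h1 => h ?_
  unfold zz
  rw [h1, Nat.cast_zero]

theorem zz_cyc {L : List (ℕ × ℕ)} (h : ckZ L = true) (τ : Finset (Fin 19)) :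
    ∑ v ∈ τᶜ, (sg v τ) • zz L (insert v τ) = 0 := by
  by_cases h0 : ∀ v ∈ τᶜ, zz L (insert v τ) = 0
  · exact Finset.sum_eq_zero fun v hv => by rw [h0 v hv, smul_zero]
  · push Not at h0
    obtain ⟨v, hv, hz⟩ := h0
    obtain ⟨p, hp, e⟩ := zz_key L _ hz
    unfold ckZ at h
    rw [List.all_eq_true] at h
    have h1 := h p hp
    rw [Bool.and_eq_true, List.all_eq_true] at h1
    have h2 := h1.2 v (List.mem_range.2 v.2)
    rw [bt_eq, e, code_bit, decide_eq_true (Finset.mem_insert_self v τ), Bool.not_true, Bool.false_or,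
      Nat.beq_eq] at h2
    have h3 : Nat.xor (code (insert v τ)) (Nat.pow 2 v) = code τ := by
      show (code (insert v τ)) ^^^ (2 ^ (v : ℕ)) = code τ
      refine Nat.eq_of_testBit_eq fun i => ?_
      rw [code_insert, Nat.testBit_xor, Nat.testBit_or, Nat.testBit_two_pow]
      by_cases h4 : (v : ℕ) = i
      · rw [decide_eq_true h4, ← h4, code_bit, decide_eq_false (Finset.mem_compl.1 hv)]
        rfl
      · rw [decide_eq_false h4, Bool.or_false, Bool.xor_false]
    rw [h3] at h2
    rw [bs_eq]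
    have h5 : bs L (code τ) % 3 = 0 := h2
    exact (ZMod.natCast_eq_zero_iff _ _).2 (Nat.dvd_of_mod_eq_zero h5)

theorem zz_card {L : List (ℕ × ℕ)} (h : ckZ L = true) (σ : Finset (Fin 19)) (hz : zz L σ ≠ 0) : σ.card = 4 := by
  obtain ⟨p, hp, e⟩ := zz_key L _ hz
  unfold ckZ at h
  rw [List.all_eq_true] at h
  have h1 := h p hp
  rw [Bool.and_eq_true, Nat.beq_eq, e, pc_eq] at h1
  rw [← h1.1]
  congr 1
  rw [Finset.filter_true_of_mem]
  exact fun u _ => u.2

/-! ### the lifts -/

/-- entries of a list -/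
def nth : List ℕ → ℕ → ℕ
  | [], _ => 0
  | x :: _, 0 => x
  | _ :: L, i + 1 => nth L i

/-- adjacency -/
def ad (n M x y : ℕ) : Bool :=
  !Nat.beq x y && bt M (Nat.add (Nat.mul x (n + 1)) y) && bt M (Nat.add (Nat.mul y (n + 1)) x)

/-- the lift of `v` -/
def ix (J : List ℕ) (v : ℕ) (b : Bool) : ℕ := nth J (Nat.add (Nat.mul 2 v) (cond b 0 1))

/-- the checks of the lifts -/
def ckJ (n M N : ℕ) (J : List ℕ) (L : List (ℕ × ℕ)) (C : ℕ) : Bool :=
  Nat.ble 1 N &&
  ((List.range 19).all fun v => Nat.ble (Nat.succ (ix J v true)) N && Nat.ble (Nat.succ (ix J v false)) N &&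
    !ad n M (ix J v true) (ix J v false)) &&
  ((List.range 19).all fun v => (List.range 19).all fun w =>
    (Nat.beq v w || !Nat.beq (ix J v true) (ix J w true)) && !Nat.beq (ix J v true) (ix J w false)) &&
  (L.all fun p => (List.range 19).all fun v => !bt p.1 v || (List.range 19).all fun w => !bt p.1 w || Nat.beq v w ||
    (ad n M (ix J v true) (ix J w true) && ad n M (ix J v true) (ix J w false) && ad n M (ix J v false) (ix J w true) &&
      ad n M (ix J v false) (ix J w false))) &&
  (J.all fun x => J.all fun y => !ad n M x y ||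
    !Nat.beq (Nat.mod (Nat.shiftRight C (Nat.mul 2 x)) 4) (Nat.mod (Nat.shiftRight C (Nat.mul 2 y)) 4))

theorem ad_iff {n M N : ℕ} (x y : Fin N) : (fin n M N).Adj x y ↔ ad n M x y = true := by
  unfold ad
  rw [Bool.and_eq_true, Bool.and_eq_true, bt_eq, bt_eq, Bool.not_eq_true']
  show (x ≠ y ∧ M.testBit (x * (n + 1) + y) = true ∧ M.testBit (y * (n + 1) + x) = true) ↔ _
  rw [and_assoc]
  refine and_congr ?_ Iff.rfl
  constructor
  · intro h
    rw [Bool.eq_false_iff]
    exact fun h' => h (Fin.ext (Nat.eq_of_beq_eq_true h'))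
  · rintro h rfl
    rw [Nat.beq_refl] at h
    exact absurd h (by simp)

theorem nth_mem (J : List ℕ) (i : ℕ) : nth J i ∈ J ∨ nth J i = 0 := by
  induction J generalizing i with
  | nil => right; cases i <;> rfl
  | cons x J ih =>
    cases i with
    | zero => left; exact List.mem_cons_self
    | succ i =>
      rcases ih i with h | h
      · left; exact List.mem_cons_of_mem _ h
      · right; exact h

theorem nth_lt (J : List ℕ) (i : ℕ) (hi : i < J.length) : nth J i ∈ J := by
  induction J generalizing i with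
  | nil => exact absurd hi (by simp)
  | cons x J ih =>
    cases i with
    | zero => exact List.mem_cons_self
    | succ i =>
      exact List.mem_cons_of_mem _ (ih i (by simpa using hi))

theorem mk {n M N : ℕ} {J : List ℕ} {L : List (ℕ × ℕ)} {C : ℕ} (hL : ckZ L = true)
    (hJ : ckJ n M N J L C = true) (hJl : J.length = 38) (hz : zz L ≠ 0) :
    ∃ (Z : Shd (ZMod 3) (fin n M N) 3) (c : Fin N → Fin 4),
      ∀ v w a b, (fin n M N).Adj (Z.j v a) (Z.j w b) → c (Z.j v a) ≠ c (Z.j w b) := by
  unfold ckJ at hJ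
  simp only [Bool.and_eq_true, List.all_eq_true, List.mem_range, Bool.or_eq_true, Bool.not_eq_true', Nat.ble_eq] at hJ
  obtain ⟨⟨⟨⟨hN, h1⟩, h2⟩, h3⟩, h4⟩ := hJ
  have hlt : ∀ (v : Fin 19) (b : Bool), ix J v b < N := by
    intro v b
    cases b
    · exact (h1 v v.2).1.2
    · exact (h1 v v.2).1.1
  have hbool : ∀ (v w : Fin 19) (b : Bool), ix J v true = ix J w b → v = w ∧ b = true := by
    intro v w b h
    have h5 := h2 v v.2 w w.2
    cases b
    · rw [h] at h5
      have := h5.2
      rw [Nat.beq_refl] at this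
      exact absurd this (by simp)
    · rcases h5.1 with h6 | h6
      · exact ⟨Fin.ext (Nat.eq_of_beq_eq_true h6), rfl⟩
      · rw [h, Nat.beq_refl] at h6
        exact absurd h6 (by simp)
  refine ⟨⟨19, zz L, fun v b => ⟨ix J v b, hlt v b⟩, hz, fun σ hσ => zz_card hL σ hσ, zz_cyc hL, ?_, ?_, ?_⟩,
    fun x => ⟨(C >>> (2 * (x : ℕ))) % 4, Nat.mod_lt _ (by norm_num)⟩, ?_⟩
  · intro v w b h
    exact hbool v w b (congrArg Fin.val h)
  · intro v h
    rw [ad_iff] at h
    have h5 := (h1 v v.2).2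
    have h6 : ad n M (ix J v true) (ix J v false) = true := h
    rw [h6] at h5
    exact absurd h5 (by simp)
  · intro σ hσ v hv w hw hvw a b
    obtain ⟨p, hp, e⟩ := zz_key L _ hσ
    have h5 := h3 p hp v v.2
    rw [bt_eq, e, code_bit, decide_eq_true hv] at h5
    have h6 := (h5.resolve_left (by simp)) w w.2
    rw [bt_eq, code_bit, decide_eq_true hw] at h6
    rcases h6 with (h6 | h6) | h6
    · exact absurd h6 (by simp)
    · exact absurd (Fin.ext (Nat.eq_of_beq_eq_true h6)) hvw
    · rw [ad_iff]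
      cases a <;> cases b
      · exact h6.2
      · exact h6.1.2
      · exact h6.1.1.2
      · exact h6.1.1.1
  · intro v w a b h
    rw [ad_iff] at h
    have hm : ∀ (v : Fin 19) (b : Bool), ix J v b ∈ J := by
      intro v b
      refine nth_lt J _ ?_
      rw [hJl]
      have := v.2
      cases b
      · show 2 * (v : ℕ) + 1 < 38
        omega
      · show 2 * (v : ℕ) + 0 < 38
        omega
    have h5 := h4 _ (hm v a) _ (hm w b)
    have h6 : ad n M (ix J v a) (ix J w b) = true := h
    rw [h6] at h5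
    have h7 := h5.resolve_left (by simp)
    intro h8
    have h9 : (C >>> (2 * ix J v a)) % 4 = (C >>> (2 * ix J w b)) % 4 := congrArg Fin.val h8
    have h10 : Nat.beq (Nat.mod (Nat.shiftRight C (Nat.mul 2 (ix J v a))) 4)
        (Nat.mod (Nat.shiftRight C (Nat.mul 2 (ix J w b))) 4) = true := by
      rw [Nat.beq_eq]
      exact h9
    rw [h10] at h7
    exact absurd h7 (by simp)

end Run7.h636.LT.Tab
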